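import Pool.Agent.OneRelCS.Step2

/-!
# The base case: relators which are powers of words with distinct letters
-/

namespace Pool.Agent.OneRelCS

/-- the free product of a free group on `Y` and a cyclic group of order `n` -/
structure Mdl (n : ℕ) (Y : Type) where
  K : Type
  [grp : Group K]
  j : FreeGroup Y →* K
  z : K
  r : K →* FreeGroup Y
  zn : z ^ n = 1
  rj : ∀ v, r (j v) = v
  rt : RT j.range
  ext : ∀ (G : Type) [Group G] (f g : K →* G),
    (∀ y, f (j (FreeGroup.of y)) = g (j (FreeGroup.of y))) → f z = g z → f = g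
  up : ∀ (G : Type) [Group G] (f : Y → G) (g : G), g ^ n = 1 →
    ∃ h : K →* G, (∀ y, h (j (FreeGroup.of y)) = f y) ∧ h z = g

attribute [instance] Mdl.grp

theorem ratSet_univ_of_finite (G : Type) [Group G] [Finite G] : RatSet (Set.univ : Set G) := by
  refine ⟨G, inferInstance, id, Set.range fun g : G => [g], isRegular_finite (Set.finite_range _),
    ?_, ?_⟩
  · rintro _ ⟨g, rfl⟩ _ ⟨h, rfl⟩ hgh
    have h1 : g = h := by simpa [ev] using hgh
    rw [h1]
  · ext g
    constructor
    · intro _; trivial
    · intro _; exact ⟨[g], ⟨g, rfl⟩, by simp [ev]⟩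

theorem transv_bot (G : Type) [Group G] : Transv (⊥ : Subgroup G) Set.univ Set.univ := by
  refine ⟨fun _ _ => trivial, fun g _ => ⟨g, trivial, by simp, ?_⟩⟩
  intro t' _ h
  rw [Subgroup.mem_bot] at h
  exact (mul_inv_eq_one.1 h).symm

/-- the hom from a cyclic group -/
def zhom (n : ℕ) {G : Type} [Group G] (g : G) (hg : g ^ n = 1) :
    Multiplicative (ZMod n) →* G :=
  AddMonoidHom.toMultiplicativeLeft (ZMod.lift n (A := Additive G)
    ⟨zmultiplesHom (Additive G) (Additive.ofMul g), by
      rw [zmultiplesHom_apply, ← ofMul_zpow, zpow_natCast, hg]; rfl⟩)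

theorem zhom_one (n : ℕ) {G : Type} [Group G] (g : G) (hg : g ^ n = 1) :
    zhom n g hg (Multiplicative.ofAdd 1) = g := by
  have h1 : (1 : ZMod n) = ((1 : ℤ) : ZMod n) := by simp
  rw [h1]
  unfold zhom
  show Additive.toMul (ZMod.lift n (A := Additive G) _ ((1 : ℤ) : ZMod n)) = g
  rw [ZMod.lift_coe]
  simp

/-- base model -/
theorem mdl_empty (n : ℕ) (hn : n ≠ 0) : Nonempty (Mdl n PEmpty) := by
  have : NeZero n := ⟨hn⟩
  have : Subsingleton (FreeGroup PEmpty) := inferInstance
  refine ⟨{
    K := Multiplicative (ZMod n)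
    j := 1
    z := Multiplicative.ofAdd 1
    r := 1
    zn := ?_
    rj := fun v => Subsingleton.elim _ _
    rt := ?_
    ext := ?_
    up := ?_ }⟩
  · rw [← ofAdd_nsmul]
    simp
  · have h1 : (1 : FreeGroup PEmpty →* Multiplicative (ZMod n)).range = ⊥ := MonoidHom.range_one
    rw [h1]
    exact ⟨Set.univ, ratSet_univ_of_finite _, trivial, transv_bot _⟩
  · intro G _ f g _ hz
    apply MonoidHom.ext
    intro x
    have hx : x = (Multiplicative.ofAdd (1 : ZMod n)) ^
        (ZMod.val (Multiplicative.toAdd x : ZMod n)) := by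
      rw [← ofAdd_nsmul, nsmul_one, ZMod.natCast_zmod_val]
      rfl
    rw [hx, map_pow, map_pow, hz]
  · intro G _ f g hg
    exact ⟨zhom n g hg, fun y => y.elim, zhom_one n g hg⟩

theorem compat_refl {G : Type*} [Group G] (N : Subgroup G) :
    Compat (MulEquiv.refl (⊥ : Subgroup G)) N := by
  apply Compat.mk'
  · intro a ha; exact ha
  · intro b hb; exact hb

theorem subS_empty {Y G : Type} [Group G] (j : FreeGroup Y →* G) : subS j ∅ = ⊥ := by
  unfold subS
  simp

theorem subS_univ {Y G : Type} [Group G] (j : FreeGroup Y →* G) : subS j Set.univ = j.range := by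
  unfold subS
  rw [Set.image_univ, FreeGroup.closure_range_of]
  exact MonoidHom.range_eq_map j |>.symm

theorem mdl_option (n : ℕ) {Y : Type} [Finite Y] (h : Nonempty (Mdl n Y)) :
    Nonempty (Mdl n (Option Y)) := by
  obtain ⟨M⟩ := h
  have hj : Function.Injective M.j := Function.LeftInverse.injective M.rj
  have hbot : RT (⊥ : Subgroup M.K) := by
    rw [← subS_empty M.j]
    exact RT.subS hj _ M.rt
  have hrange : (FreeGroup.lift (fun o : Option Y => (o.elim HNNExtension.t
      (fun y => HNNExtension.of (M.j (FreeGroup.of y))) : FP M.K))).range =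
      hat (MulEquiv.refl (⊥ : Subgroup M.K)) M.j.range := by
    rw [FreeGroup.range_lift_eq_closure]
    apply le_antisymm
    · rw [Subgroup.closure_le]
      rintro _ ⟨o, rfl⟩
      cases o with
      | none => exact t_mem_hat
      | some y => exact of_mem_hat ⟨_, rfl⟩
    · unfold hat
      rw [Subgroup.closure_le]
      rintro _ (⟨_, ⟨v, rfl⟩, rfl⟩ | rfl)
      · induction v using FreeGroup.induction_on with
        | C1 => rw [map_one, map_one]; exact one_mem _
        | of y => exact Subgroup.subset_closure ⟨some y, rfl⟩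
        | inv_of y ih => rw [map_inv, map_inv]; exact inv_mem ih
        | mul u v hu hv => rw [map_mul, map_mul]; exact mul_mem hu hv
      · exact Subgroup.subset_closure ⟨none, rfl⟩
  refine ⟨{
    K := FP M.K
    j := FreeGroup.lift fun o : Option Y => (o.elim HNNExtension.t
      (fun y => HNNExtension.of (M.j (FreeGroup.of y))) : FP M.K)
    z := HNNExtension.of M.z
    r := HNNExtension.lift ((FreeGroup.map some).comp M.r) (FreeGroup.of none) (by
      rintro ⟨x, hx⟩
      rw [Subgroup.mem_bot] at hx
      subst hx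
      simp)
    zn := by rw [← map_pow, M.zn, map_one]
    rj := ?_
    rt := ?_
    ext := ?_
    up := ?_ }⟩
  · intro v
    have h1 : (HNNExtension.lift ((FreeGroup.map some).comp M.r) (FreeGroup.of none) (by
      rintro ⟨x, hx⟩
      rw [Subgroup.mem_bot] at hx
      subst hx
      simp) : FP M.K →* FreeGroup (Option Y)).comp (FreeGroup.lift fun o : Option Y =>
        (o.elim HNNExtension.t (fun y => HNNExtension.of (M.j (FreeGroup.of y))) : FP M.K)) =
        MonoidHom.id _ := by
      apply FreeGroup.ext_hom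
      intro o
      cases o with
      | none => simp
      | some y => simp [M.rj]
    exact DFunLike.congr_fun h1 v
  · rw [hrange]
    refine RT.hnn (compat_refl _) hbot hbot M.rt ?_
    intro u
    have h1 : HNNExtension.toSubgroup (⊥ : Subgroup M.K) ⊥ (-u) = ⊥ := by
      rcases Int.units_eq_one_or u with rfl | rfl <;> rfl
    rw [h1, ← subS_empty M.j, ← subS_univ M.j]
    exact RT.subS_compl hj _ _ M.rt
  · intro G _ f g h1 h2
    apply HNNExtension.hom_ext
    · apply M.ext
      · intro y
        have := h1 (some y)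
        simpa using this
      · exact h2
    · have := h1 none
      simpa using this
  · intro G _ f g hg
    obtain ⟨h₀, h1, h2⟩ := M.up G (fun y => f (some y)) g hg
    refine ⟨HNNExtension.lift h₀ (f none) (by
      rintro ⟨x, hx⟩
      rw [Subgroup.mem_bot] at hx
      subst hx
      simp), ?_, ?_⟩
    · intro o
      cases o with
      | none => simp
      | some y => simp [h1]
    · simp [h2]

theorem mdl_equiv (n : ℕ) {Y Y' : Type} (e : Y ≃ Y') (h : Nonempty (Mdl n Y)) :
    Nonempty (Mdl n Y') := by
  obtain ⟨M⟩ := h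
  refine ⟨{
    K := M.K
    j := M.j.comp (FreeGroup.freeGroupCongr e).symm.toMonoidHom
    z := M.z
    r := (FreeGroup.freeGroupCongr e).toMonoidHom.comp M.r
    zn := M.zn
    rj := ?_
    rt := ?_
    ext := ?_
    up := ?_ }⟩
  · intro v
    simp only [MonoidHom.comp_apply, MulEquiv.coe_toMonoidHom, M.rj, MulEquiv.apply_symm_apply]
  · have h1 : (M.j.comp (FreeGroup.freeGroupCongr e).symm.toMonoidHom).range = M.j.range := by
      ext x
      constructor
      · rintro ⟨v, rfl⟩; exact ⟨_, rfl⟩
      · rintro ⟨v, rfl⟩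
        refine ⟨FreeGroup.freeGroupCongr e v, ?_⟩
        simp only [MonoidHom.comp_apply, MulEquiv.coe_toMonoidHom, MulEquiv.symm_apply_apply]
    rw [h1]
    exact M.rt
  · intro G _ f g h1 h2
    apply M.ext G f g _ h2
    intro y
    have := h1 (e y)
    simpa using this
  · intro G _ f g hg
    obtain ⟨h₀, h1, h2⟩ := M.up G (fun y => f (e y)) g hg
    refine ⟨h₀, ?_, h2⟩
    intro y
    have := h1 (e.symm y)
    simpa using this

theorem mdl_exists (n : ℕ) (hn : n ≠ 0) (Y : Type) [Finite Y] : Nonempty (Mdl n Y) := by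
  induction Y using Finite.induction_empty_option with
  | of_equiv e h => exact mdl_equiv n e h
  | h_empty => exact mdl_empty n hn
  | h_option h => exact mdl_option n h

end Pool.Agent.OneRelCS
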