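import Pool.Agent.OneRelCS.Base

/-!
# The base case, continued
-/

namespace Pool.Agent.OneRelCS

variable {X : Type}

open Classical in
/-- retraction onto the free group on the remaining letters -/
noncomputable def retr (x₀ : X) : FreeGroup X →* FreeGroup {y : X // y ≠ x₀} :=
  FreeGroup.lift fun x => if h : x = x₀ then 1 else FreeGroup.of ⟨x, h⟩

theorem retr_of (x₀ : X) (y : {y : X // y ≠ x₀}) : retr x₀ (FreeGroup.of y.1) = FreeGroup.of y := by
  simp [retr, y.2]

theorem lift_retr {K : Type*} [Group K] (x₀ : X) (f : X → K)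
    (c : List (X × Bool)) (hc : ∀ p ∈ c, p.1 ≠ x₀) :
    FreeGroup.lift (fun y : {y : X // y ≠ x₀} => f y.1) (retr x₀ (FreeGroup.mk c)) =
      FreeGroup.lift f (FreeGroup.mk c) := by
  induction c with
  | nil => rw [← FreeGroup.one_eq_mk, map_one, map_one, map_one]
  | cons p c ih =>
    have h1 : (FreeGroup.mk (p :: c) : FreeGroup X) = FreeGroup.mk [p] * FreeGroup.mk c := by
      simp
    rw [h1, map_mul, map_mul, map_mul, ih fun q hq => hc q (List.mem_cons_of_mem _ hq)]
    congr 1
    have hp := hc p List.mem_cons_self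
    obtain ⟨x, b⟩ := p
    simp only at hp
    cases b
    · have h2 : (FreeGroup.mk [(x, false)] : FreeGroup X) = (FreeGroup.of x)⁻¹ := rfl
      rw [h2, map_inv, map_inv, map_inv, retr_of x₀ ⟨x, hp⟩]
      simp
    · have h2 : (FreeGroup.mk [(x, true)] : FreeGroup X) = FreeGroup.of x := rfl
      rw [h2, retr_of x₀ ⟨x, hp⟩]
      simp

theorem mk_append (u v : List (X × Bool)) :
    (FreeGroup.mk (u ++ v) : FreeGroup X) = FreeGroup.mk u * FreeGroup.mk v := by
  simp

theorem mk_flatten_replicate (n : ℕ) (c : List (X × Bool)) :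
    (FreeGroup.mk (List.replicate n c).flatten : FreeGroup X) = (FreeGroup.mk c) ^ n := by
  induction n with
  | zero => simp [← FreeGroup.one_eq_mk]
  | succ n ih => rw [List.replicate_succ, List.flatten_cons, mk_append, ih, pow_succ']

theorem base_case [Finite X] (n : ℕ) (hn : n ≠ 0) (c₁ c₂ : List (X × Bool)) (x₀ : X) (ε : Bool)
    (h1 : ∀ p ∈ c₁, p.1 ≠ x₀) (h2 : ∀ p ∈ c₂, p.1 ≠ x₀) (w : List (X × Bool))
    (hw : w = (List.replicate n (c₁ ++ (x₀, ε) :: c₂)).flatten) :
    Function.Injective (mg w x₀) ∧ RT (mg w x₀).range := by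
  classical
  obtain ⟨M⟩ := mdl_exists n hn {y : X // y ≠ x₀}
  -- the map to the model
  let q : M.K := (M.j (retr x₀ (FreeGroup.mk c₁)))⁻¹ * M.z * (M.j (retr x₀ (FreeGroup.mk c₂)))⁻¹
  let f : X → M.K := fun x => if h : x = x₀ then cond ε q q⁻¹ else M.j (FreeGroup.of ⟨x, h⟩)
  have hf : ∀ y : {y : X // y ≠ x₀}, f y.1 = M.j (FreeGroup.of y) := by
    intro y; simp [f, y.2]
  have hfc : ∀ e : List (X × Bool), (∀ p ∈ e, p.1 ≠ x₀) →
      FreeGroup.lift f (FreeGroup.mk e) = M.j (retr x₀ (FreeGroup.mk e)) := by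
    intro e he
    rw [← lift_retr x₀ f e he]
    have h3 : FreeGroup.lift (fun y : {y : X // y ≠ x₀} => f y.1) = M.j := by
      apply FreeGroup.ext_hom
      intro y
      rw [FreeGroup.lift_apply_of, hf]
    rw [h3]
  have hfx : FreeGroup.lift f (FreeGroup.mk [(x₀, ε)]) = q := by
    cases ε
    · have h3 : (FreeGroup.mk [(x₀, false)] : FreeGroup X) = (FreeGroup.of x₀)⁻¹ := rfl
      rw [h3, map_inv, FreeGroup.lift_apply_of]
      simp [f]
    · have h3 : (FreeGroup.mk [(x₀, true)] : FreeGroup X) = FreeGroup.of x₀ := rfl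
      rw [h3, FreeGroup.lift_apply_of]
      simp [f]
  have hc : FreeGroup.lift f (FreeGroup.mk (c₁ ++ (x₀, ε) :: c₂)) = M.z := by
    rw [mk_append, show (x₀, ε) :: c₂ = [(x₀, ε)] ++ c₂ from rfl, mk_append, map_mul, map_mul,
      hfx, hfc c₁ h1, hfc c₂ h2]
    simp only [q]
    group
  have hfw : FreeGroup.lift f (FreeGroup.mk w) = 1 := by
    rw [hw, mk_flatten_replicate, map_pow, hc, M.zn]
  let F : OR w →* M.K := PresentedGroup.toGroup (f := f) (by
    intro r hr
    rw [Set.mem_singleton_iff] at hr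
    subst hr
    exact hfw)
  have hF : ∀ x, F (PresentedGroup.of x) = f x := fun x => PresentedGroup.toGroup.of _
  have hFmk : ∀ v, F (PresentedGroup.mk _ v) = FreeGroup.lift f v := by
    intro v
    have h3 : F.comp (PresentedGroup.mk _) = FreeGroup.lift f := by
      apply FreeGroup.ext_hom
      intro x
      rw [MonoidHom.comp_apply, FreeGroup.lift_apply_of]
      exact hF x
    exact DFunLike.congr_fun h3 v
  -- the map back
  obtain ⟨G, hG1, hG2⟩ := M.up (OR w) (fun y => PresentedGroup.of y.1)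
    (PresentedGroup.mk _ (FreeGroup.mk (c₁ ++ (x₀, ε) :: c₂))) (by
      rw [← map_pow, ← mk_flatten_replicate, ← hw]
      exact PresentedGroup.one_of_mem (Set.mem_singleton _))
  have hGj : ∀ v, G (M.j v) = mg w x₀ v := by
    intro v
    have h3 : G.comp M.j = mg w x₀ := by
      apply FreeGroup.ext_hom
      intro y
      simp [hG1, mg]
    exact DFunLike.congr_fun h3 v
  have hmgr : ∀ e : List (X × Bool), (∀ p ∈ e, p.1 ≠ x₀) →
      mg w x₀ (retr x₀ (FreeGroup.mk e)) = PresentedGroup.mk _ (FreeGroup.mk e) := by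
    intro e he
    have h3 := lift_retr x₀ (fun x => (PresentedGroup.of x : OR w)) e he
    have h4 : FreeGroup.lift (fun x => (PresentedGroup.of x : OR w)) =
        PresentedGroup.mk _ := by
      apply FreeGroup.ext_hom
      intro x
      rw [FreeGroup.lift_apply_of]; rfl
    rw [h4] at h3
    exact h3
  have hFG : F.comp G = MonoidHom.id _ := by
    apply M.ext
    · intro y
      simp [hG1, hF, hf]
    · simp only [MonoidHom.comp_apply, MonoidHom.id_apply, hG2, hFmk, hc]
  have hGq : G q = PresentedGroup.mk _ (FreeGroup.mk [(x₀, ε)]) := by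
    simp only [q, map_mul, map_inv, hG2, hGj, hmgr c₁ h1, hmgr c₂ h2]
    rw [mk_append, show (x₀, ε) :: c₂ = [(x₀, ε)] ++ c₂ from rfl, mk_append, map_mul, map_mul]
    group
  have hGF : G.comp F = MonoidHom.id _ := by
    apply PresentedGroup.ext
    intro x
    simp only [MonoidHom.comp_apply, MonoidHom.id_apply, hF]
    by_cases hx : x = x₀
    · subst hx
      simp only [f, dif_pos]
      cases ε
      · simp only [cond_false, map_inv, hGq]
        have h3 : (FreeGroup.mk [(x, false)] : FreeGroup X) = (FreeGroup.of x)⁻¹ := rfl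
        rw [h3, map_inv, inv_inv]; rfl
      · simp only [cond_true, hGq]
        rfl
    · have h3 := hf ⟨x, hx⟩
      simp only at h3
      rw [h3, hG1]
  let e : M.K ≃* OR w := MonoidHom.toMulEquiv G F hFG hGF
  have he : ∀ v, e (M.j v) = mg w x₀ v := hGj
  constructor
  · have hj : Function.Injective M.j := Function.LeftInverse.injective M.rj
    intro u v huv
    rw [← he, ← he] at huv
    exact hj (e.injective huv)
  · have h3 := M.rt.map_equiv e
    have h4 : M.j.range.map e.toMonoidHom = (mg w x₀).range := by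
      ext x
      constructor
      · rintro ⟨_, ⟨v, rfl⟩, rfl⟩; exact ⟨v, (he v).symm⟩
      · rintro ⟨v, rfl⟩; exact ⟨M.j v, ⟨v, rfl⟩, he v⟩
    rw [h4] at h3
    exact h3

end Pool.Agent.OneRelCS
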