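import Pool.Agent.OneRelCS.HNNTrans

/-!
# Descent of rational transversals from `G * ⟨t⟩` to `G`
-/

namespace Pool.Agent.OneRelCS

open HNNExtension HNNExtension.NormalWord Language

variable {G : Type*} [Group G]

/-- `G * ⟨t⟩` as an HNN extension -/
abbrev FP (G : Type*) [Group G] : Type _ :=
  HNNExtension G (⊥ : Subgroup G) (⊥ : Subgroup G) (MulEquiv.refl _)

theorem mem_toSubgroup_bot {u : ℤˣ} {g : G} :
    g ∈ toSubgroup (⊥ : Subgroup G) (⊥ : Subgroup G) u ↔ g = 1 := by
  rcases Int.units_eq_one_or u with rfl | rfl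
  · exact Subgroup.mem_bot
  · exact Subgroup.mem_bot

/-- elements whose inverse is a reduced word with trivial head -/
def ZS (G : Type*) [Group G] : Set (FP G) :=
  {z | ∃ v : ReducedWord G ⊥ ⊥, v.head = 1 ∧ v.prod (MulEquiv.refl _) = z⁻¹}

theorem one_mem_ZS : (1 : FP G) ∈ ZS G := ⟨ReducedWord.empty _ _ _, rfl, by simp [ReducedWord.prod]⟩

theorem of_mul_mem_ZS {z : FP G} (hz : z ∈ ZS G) (hz1 : z ≠ 1) (s : G) : of s * z ∈ ZS G := by
  obtain ⟨⟨h, l, chain⟩, h1, h2⟩ := hz
  simp only at h1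
  subst h1
  rcases List.eq_nil_or_concat l with hl | ⟨l', ⟨u, g⟩, hl⟩
  · subst hl
    exfalso
    apply hz1
    simp only [ReducedWord.prod, map_one, List.map_nil, List.prod_nil, mul_one] at h2
    exact inv_eq_one.1 h2.symm
  · rw [List.concat_eq_append] at hl
    subst hl
    refine ⟨⟨1, l' ++ [(u, g * s⁻¹)], ?_⟩, rfl, ?_⟩
    · rw [List.isChain_append] at chain ⊢
      refine ⟨chain.1, List.isChain_singleton _, ?_⟩
      intro x hx y hy
      simp only [List.head?_cons, Option.mem_def, Option.some.injEq] at hy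
      subst hy
      exact chain.2.2 x hx (u, g) (by simp)
    · simp only [ReducedWord.prod, map_one, one_mul, List.map_append, List.map_cons, List.map_nil,
        List.prod_append, List.prod_cons, List.prod_nil, mul_one] at h2 ⊢
      rw [mul_inv_rev, ← h2, map_mul, map_inv]
      simp only [mul_assoc]

theorem tpow_mul_mem_ZS {z : FP G} (hz : z ∈ ZS G) (u : ℤˣ) : t ^ (u : ℤ) * z ∈ ZS G := by
  obtain ⟨⟨h, l, chain⟩, h1, h2⟩ := hz
  simp only at h1
  subst h1
  rcases List.eq_nil_or_concat l with hl | ⟨l', ⟨u', g⟩, hl⟩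
  · subst hl
    refine ⟨⟨1, [(-u, 1)], List.isChain_singleton _⟩, rfl, ?_⟩
    simp only [ReducedWord.prod, map_one, List.map_nil, List.prod_nil, mul_one] at h2
    have hz : z = 1 := inv_eq_one.1 h2.symm
    subst hz
    simp [ReducedWord.prod]
  · rw [List.concat_eq_append] at hl
    subst hl
    by_cases hc : g = 1 ∧ u' = u
    · obtain ⟨rfl, rfl⟩ := hc
      rw [List.isChain_append] at chain
      refine ⟨⟨1, l', chain.1⟩, rfl, ?_⟩
      simp only [ReducedWord.prod, map_one, one_mul, List.map_append, List.map_cons, List.map_nil,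
        List.prod_append, List.prod_cons, List.prod_nil, mul_one] at h2 ⊢
      rw [mul_inv_rev, ← h2]
      simp
    · refine ⟨⟨1, (l' ++ [(u', g)]) ++ [(-u, 1)], ?_⟩, rfl, ?_⟩
      · rw [List.isChain_append]
        refine ⟨chain, List.isChain_singleton _, ?_⟩
        intro x hx y hy h3
        simp only [List.head?_cons, Option.mem_def, Option.some.injEq] at hy
        subst hy
        simp only [List.getLast?_append, List.getLast?_singleton, Option.mem_def,
          Option.some_or, Option.some.injEq] at hx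
        subst hx
        simp only at h3 ⊢
        rw [mem_toSubgroup_bot] at h3
        by_contra hne
        exact hc ⟨h3, by rw [Int.units_ne_iff_eq_neg.1 hne, neg_neg]⟩
      · simp only [ReducedWord.prod, map_one, one_mul, List.map_append, List.map_cons, List.map_nil,
          List.prod_append, List.prod_cons, List.prod_nil, mul_one] at h2 ⊢
        rw [mul_inv_rev, ← h2]
        simp

theorem ZS_unique {z z' : FP G} (hz : z ∈ ZS G) (hz' : z' ∈ ZS G) {e e' : G}
    (h : z * of e = z' * of e') : z = z' ∧ e = e' := by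
  obtain ⟨v, hv1, hv2⟩ := hz
  obtain ⟨v', hv'1, hv'2⟩ := hz'
  let w : ReducedWord G ⊥ ⊥ := ⟨e⁻¹, v.toList, v.chain⟩
  let w' : ReducedWord G ⊥ ⊥ := ⟨e'⁻¹, v'.toList, v'.chain⟩
  have hw : w.prod (MulEquiv.refl _) = (z * of e)⁻¹ := by
    rw [mul_inv_rev, ← hv2]
    simp [ReducedWord.prod, w, hv1]
  have hw' : w'.prod (MulEquiv.refl _) = (z' * of e')⁻¹ := by
    rw [mul_inv_rev, ← hv'2]
    simp [ReducedWord.prod, w', hv'1]
  have hww : w.prod (MulEquiv.refl _) = w'.prod (MulEquiv.refl _) := by rw [hw, hw', h]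
  obtain ⟨h1, h2⟩ := ReducedWord.map_fst_eq_and_of_prod_eq _ hww
  have he : e = e' := by
    cases hl : v.toList with
    | nil =>
      have hl' : v'.toList = [] := by
        have : v'.toList.map Prod.fst = [] := by
          rw [← (show w'.toList.map Prod.fst = v'.toList.map Prod.fst from rfl), ← h1]
          show v.toList.map Prod.fst = []
          rw [hl]; rfl
        simpa using this
      have h3 : (of e⁻¹ : FP G) = of e'⁻¹ := by
        have e1 : w.prod (MulEquiv.refl _) = (of e⁻¹ : FP G) := by simp [ReducedWord.prod, w, hl]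
        have e2 : w'.prod (MulEquiv.refl _) = (of e'⁻¹ : FP G) := by
          simp [ReducedWord.prod, w', hl']
        rw [← e1, ← e2, hww]
      have h4 := of_injective _ h3
      exact inv_injective h4
    | cons p l =>
      have h3 := h2 p.1 (by simp [w, hl])
      rw [mem_toSubgroup_bot] at h3
      simp only [w, w', inv_inv] at h3
      exact mul_inv_eq_one.1 h3
  subst he
  exact ⟨mul_right_cancel h, rfl⟩

theorem ZS_range {z : FP G} (hz : z ∈ ZS G) {e : G}
    (h : z * of e ∈ (of : G →* FP G).range) : z = 1 := by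
  obtain ⟨g, hg⟩ := h
  exact (ZS_unique hz one_mem_ZS (e := e) (e' := g) (by rw [hg, one_mul])).1

theorem hat_form {M : Subgroup G} {x : FP G} (hx : x ∈ hat (MulEquiv.refl _) M) :
    ∃ z ∈ ZS G, ∃ m ∈ M, x = z * of m := by
  unfold hat at hx
  have hof : ∀ m' ∈ M, ∀ y : FP G, (∃ z ∈ ZS G, ∃ m ∈ M, y = z * of m) →
      ∃ z ∈ ZS G, ∃ m ∈ M, of m' * y = z * of m := by
    rintro m' hm' _ ⟨z, hz, m, hm, rfl⟩
    by_cases hz1 : z = 1
    · subst hz1
      exact ⟨1, one_mem_ZS, m' * m, M.mul_mem hm' hm, by simp⟩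
    · exact ⟨of m' * z, of_mul_mem_ZS hz hz1 m', m, hm, by rw [mul_assoc]⟩
  induction hx using Subgroup.closure_induction_left with
  | one => exact ⟨1, one_mem_ZS, 1, M.one_mem, by simp⟩
  | mul_left x hx y hy ih =>
    rcases hx with ⟨n, hn, rfl⟩ | hx
    · exact hof n hn y ih
    · rw [Set.mem_singleton_iff] at hx
      subst hx
      obtain ⟨z, hz, m, hm, rfl⟩ := ih
      have := tpow_mul_mem_ZS hz 1
      simp only [Units.val_one, zpow_one] at this
      exact ⟨_, this, m, hm, by rw [mul_assoc]⟩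
  | inv_mul_cancel x hx y hy ih =>
    rcases hx with ⟨n, hn, rfl⟩ | hx
    · rw [← map_inv]
      exact hof _ (M.inv_mem hn) y ih
    · rw [Set.mem_singleton_iff] at hx
      subst hx
      obtain ⟨z, hz, m, hm, rfl⟩ := ih
      have := tpow_mul_mem_ZS hz (-1)
      simp only [Units.val_neg, Units.val_one, zpow_neg, zpow_one] at this
      exact ⟨_, this, m, hm, by rw [mul_assoc]⟩

section erase

variable {β : Type} (g : β → G)

/-- letters for `G * ⟨t⟩` -/
def gh : β ⊕ ℤˣ → FP G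
  | Sum.inl b => of (g b)
  | Sum.inr u => t ^ (u : ℤ)

open Classical in
/-- erase the excursions outside `G` (reading from the right) -/
noncomputable def er : List (β ⊕ ℤˣ) → List β
  | [] => []
  | Sum.inl b :: w => if ev (gh g) w ∈ (of : G →* FP G).range then b :: er w else er w
  | Sum.inr _ :: w => er w

theorem er_value (w : List (β ⊕ ℤˣ)) : ∃ z ∈ ZS G, ev (gh g) w = z * of (ev g (er g w)) := by
  induction w with
  | nil => exact ⟨1, one_mem_ZS, by simp [er]⟩
  | cons s w ih =>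
    obtain ⟨z, hz, hzw⟩ := ih
    cases s with
    | inl b =>
      by_cases h : ev (gh g) w ∈ (of : G →* FP G).range
      · have hz1 : z = 1 := ZS_range hz (hzw ▸ h)
        subst hz1
        refine ⟨1, one_mem_ZS, ?_⟩
        rw [ev_cons, hzw]
        simp [er, h, gh]
      · refine ⟨of (g b) * z, of_mul_mem_ZS hz ?_ _, ?_⟩
        · rintro rfl
          apply h
          rw [hzw, one_mul]
          exact ⟨_, rfl⟩
        · rw [ev_cons, hzw]
          simp [er, h, gh, mul_assoc]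
    | inr u =>
      refine ⟨t ^ (u : ℤ) * z, tpow_mul_mem_ZS hz u, ?_⟩
      rw [ev_cons, hzw]
      simp [er, gh, mul_assoc]

theorem er_append {w₁ w₂ : List (β ⊕ ℤˣ)} (h : ev (gh g) w₂ ∈ (of : G →* FP G).range) :
    er g (w₁ ++ w₂) = er g w₁ ++ er g w₂ := by
  induction w₁ with
  | nil => simp [er]
  | cons s w ih =>
    have h1 : ev (gh g) (w ++ w₂) ∈ (of : G →* FP G).range ↔
        ev (gh g) w ∈ (of : G →* FP G).range := by
      rw [ev_append]
      exact Subgroup.mul_mem_cancel_right _ h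
    cases s with
    | inl b =>
      by_cases hw : ev (gh g) w ∈ (of : G →* FP G).range
      · simp only [List.cons_append, er, h1.2 hw, hw, if_true, ih]
      · have hw' : ev (gh g) (w ++ w₂) ∉ (of : G →* FP G).range := fun h => hw (h1.1 h)
        simp only [List.cons_append, er, hw', hw, if_false, ih]
    | inr u => simp only [List.cons_append, er, ih]

theorem er_split {w : List (β ⊕ ℤˣ)} {v₁ v₂ : List β} (h : er g w = v₁ ++ v₂) :
    ∃ w₁ w₂, w = w₁ ++ w₂ ∧ er g w₂ = v₂ ∧ ev (gh g) w₂ ∈ (of : G →* FP G).range ∧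
      er g w₁ = v₁ := by
  induction w generalizing v₁ with
  | nil =>
    simp only [er] at h
    have := List.append_eq_nil_iff.1 h.symm
    exact ⟨[], [], rfl, by simp [er, this.2], ⟨1, by simp⟩, by simp [er, this.1]⟩
  | cons s w ih =>
    have hcase : ∀ w₁ w₂ : List (β ⊕ ℤˣ), w = w₁ ++ w₂ → ev (gh g) w₂ ∈ (of : G →* FP G).range →
        (ev (gh g) w ∈ (of : G →* FP G).range ↔ ev (gh g) w₁ ∈ (of : G →* FP G).range) := by
      rintro w₁ w₂ rfl h2
      rw [ev_append]
      exact Subgroup.mul_mem_cancel_right _ h2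
    cases s with
    | inl b =>
      by_cases hw : ev (gh g) w ∈ (of : G →* FP G).range
      · simp only [er, hw, if_true] at h
        cases v₁ with
        | nil =>
          refine ⟨[], Sum.inl b :: w, rfl, ?_, ?_, rfl⟩
          · simp only [er, hw, if_true, h, List.nil_append]
          · rw [ev_cons]
            exact Subgroup.mul_mem _ ⟨g b, rfl⟩ hw
        | cons c v₁ =>
          simp only [List.cons_append, List.cons.injEq] at h
          obtain ⟨rfl, h⟩ := h
          obtain ⟨w₁, w₂, h1, h2, h3, h4⟩ := ih h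
          refine ⟨Sum.inl b :: w₁, w₂, by rw [h1]; rfl, h2, h3, ?_⟩
          simp only [er, (hcase w₁ w₂ h1 h3).1 hw, if_true, h4]
      · simp only [er, hw, if_false] at h
        obtain ⟨w₁, w₂, h1, h2, h3, h4⟩ := ih h
        refine ⟨Sum.inl b :: w₁, w₂, by rw [h1]; rfl, h2, h3, ?_⟩
        have : ev (gh g) w₁ ∉ (of : G →* FP G).range := fun h => hw ((hcase w₁ w₂ h1 h3).2 h)
        simp only [er, this, if_false, h4]
    | inr u =>
      simp only [er] at h
      obtain ⟨w₁, w₂, h1, h2, h3, h4⟩ := ih h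
      exact ⟨Sum.inr u :: w₁, w₂, by rw [h1]; rfl, h2, h3, by simp only [er, h4]⟩

theorem gh_surj (hg : ∀ x : G, ∃ w : List β, ev g w = x) (x : FP G) :
    ∃ w : List (β ⊕ ℤˣ), ev (gh g) w = x := by
  have hof : ∀ x : G, ∃ w : List (β ⊕ ℤˣ), ev (gh g) w = of x := by
    intro x
    obtain ⟨w, rfl⟩ := hg x
    refine ⟨w.map Sum.inl, ?_⟩
    induction w with
    | nil => simp
    | cons b w ih => simp [ih, gh]
  have hinv : ∀ w : List (β ⊕ ℤˣ), ∃ w' : List (β ⊕ ℤˣ), ev (gh g) w' = (ev (gh g) w)⁻¹ := by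
    intro w
    induction w with
    | nil => exact ⟨[], by simp⟩
    | cons s w ih =>
      obtain ⟨w', hw'⟩ := ih
      cases s with
      | inl b =>
        obtain ⟨v, hv⟩ := hof (g b)⁻¹
        exact ⟨w' ++ v, by rw [ev_append, ev_cons, hw', hv, mul_inv_rev, map_inv]; rfl⟩
      | inr u =>
        refine ⟨w' ++ [Sum.inr (-u)], ?_⟩
        rw [ev_append, hw']
        simp [gh]
  induction x using HNNExtension.induction_on with
  | of x => exact hof x
  | t => exact ⟨[Sum.inr 1], by simp [gh]⟩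
  | mul x y hx hy =>
    obtain ⟨w, rfl⟩ := hx
    obtain ⟨v, rfl⟩ := hy
    exact ⟨w ++ v, by simp⟩
  | inv x hx =>
    obtain ⟨w, rfl⟩ := hx
    exact hinv w

end erase

/-- **Descent**: a rational transversal of `⟨M, t⟩` in `G * ⟨t⟩` gives one of `M` in `G`. -/
theorem RT.descent {β : Type} [Finite β] (g : β → G) (hg : ∀ x : G, ∃ w : List β, ev g w = x)
    {M : Subgroup G} (h : RT (hat (MulEquiv.refl (⊥ : Subgroup G)) M)) : RT M := by
  obtain ⟨T', hT', h1T', hT't⟩ := h
  obtain ⟨L', hL', hinj, rfl⟩ := hT'.exists_over (gh g) (gh_surj g hg)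
  -- good words
  let GW : List (β ⊕ ℤˣ) → Prop := fun w => ∃ m ∈ hat (MulEquiv.refl (⊥ : Subgroup G)) M, ∃ x : G,
    ev (gh g) w = m * of x
  have hgood : ∀ w, GW w → ∀ m ∈ hat (MulEquiv.refl (⊥ : Subgroup G)) M, ∀ x : G,
      ev (gh g) w = m * of x → ev g (er g w) * x⁻¹ ∈ M ∧
        ev (gh g) w * (of (ev g (er g w)))⁻¹ ∈ hat (MulEquiv.refl (⊥ : Subgroup G)) M := by
    intro w _ m hm x hx
    obtain ⟨z, hz, hzw⟩ := er_value g w
    obtain ⟨z', hz', m', hm', rfl⟩ := hat_form hm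
    have h1 : z * of (ev g (er g w)) = z' * of (m' * x) := by
      rw [← hzw, hx, map_mul, mul_assoc]
    obtain ⟨rfl, h2⟩ := ZS_unique hz hz' h1
    refine ⟨by rw [h2]; simpa using hm', ?_⟩
    rw [hzw]
    simp only [mul_inv_cancel_right]
    have := (hat (MulEquiv.refl (⊥ : Subgroup G)) M).mul_mem hm
      (Subgroup.inv_mem _ (of_mem_hat (φ := MulEquiv.refl (⊥ : Subgroup G)) hm'))
    simpa using this
  have huniq : ∀ w₁ ∈ L', ∀ w₂ ∈ L', GW w₁ → GW w₂ →
      ev g (er g w₁) * (ev g (er g w₂))⁻¹ ∈ M → w₁ = w₂ := by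
    intro w₁ hw₁ w₂ hw₂ hg₁ hg₂ hM
    obtain ⟨m₁, hm₁, x₁, hx₁⟩ := hg₁
    obtain ⟨m₂, hm₂, x₂, hx₂⟩ := hg₂
    have h1 := (hgood w₁ ⟨m₁, hm₁, x₁, hx₁⟩ m₁ hm₁ x₁ hx₁).2
    have h2 := (hgood w₂ ⟨m₂, hm₂, x₂, hx₂⟩ m₂ hm₂ x₂ hx₂).2
    apply hinj hw₁ hw₂
    apply hT't.eq_of_mul_mem ⟨w₁, hw₁, rfl⟩ ⟨w₂, hw₂, rfl⟩
    have h3 := of_mem_hat (φ := MulEquiv.refl (⊥ : Subgroup G)) hM
    have h4 := Subgroup.mul_mem _ (Subgroup.mul_mem _ h1 h3) (Subgroup.inv_mem _ h2)
    simpa [mul_assoc] using h4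
  let L : Set (List β) := {v | ∃ w ∈ L', GW w ∧ er g w = v}
  have hLreg : Language.IsRegular L := by
    rw [← isRegular_reverse_iff]
    have hL'r : Language.IsRegular (Language.reverse L') := isRegular_reverse_iff.2 hL'
    have hQ := hL'r.finite_range_leftQuotient
    apply IsRegular.of_finite_range_leftQuotient
    let F : Set (Language (β ⊕ ℤˣ)) → Language β := fun D =>
      {y | ∃ Q ∈ D, ∃ x ∈ Q, GW x.reverse ∧ er g x.reverse = y.reverse}
    let D : List β → Set (Language (β ⊕ ℤˣ)) := fun u =>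
      {Q | ∃ w₂ : List (β ⊕ ℤˣ), er g w₂ = u.reverse ∧ ev (gh g) w₂ ∈ (of : G →* FP G).range ∧
        Q = (Language.reverse L').leftQuotient w₂.reverse}
    have key : ∀ u, (Language.reverse L).leftQuotient u = F (D u) := by
      intro u
      ext y
      show (u ++ y).reverse ∈ L ↔ _
      rw [List.reverse_append]
      constructor
      · rintro ⟨w, hw, ⟨m, hm, x, hx⟩, hwe⟩
        obtain ⟨w₁, w₂, rfl, h2, h3, h4⟩ := er_split g hwe
        refine ⟨_, ⟨w₂, h2, h3, rfl⟩, w₁.reverse, ?_, ?_, ?_⟩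
        · show (w₂.reverse ++ w₁.reverse).reverse ∈ L'
          simpa using hw
        · obtain ⟨y₂, hy₂⟩ := h3
          refine ⟨m, hm, x * y₂⁻¹, ?_⟩
          rw [List.reverse_reverse, map_mul, ← mul_assoc, ← hx, ev_append, ← hy₂]
          simp
        · rw [List.reverse_reverse, h4]
      · rintro ⟨_, ⟨w₂, h2, h3, rfl⟩, x, hx, ⟨m, hm, x', hx'⟩, hxe⟩
        have hx2 : (w₂.reverse ++ x).reverse ∈ L' := hx
        rw [List.reverse_append, List.reverse_reverse] at hx2
        obtain ⟨y₂, hy₂⟩ := h3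
        refine ⟨x.reverse ++ w₂, hx2, ⟨m, hm, x' * y₂, ?_⟩, ?_⟩
        · rw [ev_append, hx', ← hy₂, map_mul, mul_assoc]
        · rw [er_append g ⟨y₂, hy₂⟩, hxe, h2]
    have hsub : Set.range (Language.reverse L).leftQuotient ⊆
        F '' (Set.range (Language.reverse L').leftQuotient).powerset := by
      rintro _ ⟨u, rfl⟩
      refine ⟨D u, ?_, (key u).symm⟩
      rintro Q ⟨w₂, _, _, rfl⟩
      exact ⟨_, rfl⟩
    exact (hQ.powerset.image F).subset hsub
  refine ⟨ev g '' L, ⟨β, inferInstance, g, L, hLreg, ?_, rfl⟩, ?_, fun _ _ => trivial, ?_⟩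
  · rintro _ ⟨w₁, hw₁, hg₁, rfl⟩ _ ⟨w₂, hw₂, hg₂, rfl⟩ h
    rw [huniq w₁ hw₁ w₂ hw₂ hg₁ hg₂ (by rw [h]; simp [M.one_mem])]
  · obtain ⟨w, hw, hw1⟩ := h1T'
    obtain ⟨z, hz, hzw⟩ := er_value g w
    have h1 : z * of (ev g (er g w)) = 1 * of 1 := by rw [← hzw, hw1]; simp
    obtain ⟨-, h2⟩ := ZS_unique hz one_mem_ZS h1
    exact ⟨er g w, ⟨w, hw, ⟨1, Subgroup.one_mem _, 1, by rw [hw1]; simp⟩, rfl⟩, h2⟩
  · intro x _
    obtain ⟨_, ⟨w, hw, rfl⟩, h1, -⟩ := hT't.2 (of x) trivial
    have hwx : ev (gh g) w = (ev (gh g) w * (of x)⁻¹) * of x := by simp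
    have hm : ev (gh g) w * (of x)⁻¹ ∈ hat (MulEquiv.refl (⊥ : Subgroup G)) M := by
      have := Subgroup.inv_mem _ h1
      simpa using this
    have hGW : GW w := ⟨_, hm, x, hwx⟩
    have h2 := (hgood w hGW _ hm x hwx).1
    have h3 : x * (ev g (er g w))⁻¹ ∈ M := by
      have := M.inv_mem h2
      simpa using this
    refine ⟨ev g (er g w), ⟨_, ⟨w, hw, hGW, rfl⟩, rfl⟩, h3, ?_⟩
    rintro _ ⟨_, ⟨w', hw', hGW', rfl⟩, rfl⟩ h4
    have h5 : ev g (er g w') * (ev g (er g w))⁻¹ ∈ M := by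
      have := M.mul_mem (M.inv_mem h4) h3
      simpa [mul_assoc] using this
    rw [huniq w' hw' w hw hGW' hGW h5]

end Pool.Agent.OneRelCS
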