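import Pool.Agent.OneRelCS.Transversal

/-!
# Rational transversals in free groups
-/

namespace Pool.Agent.OneRelCS

open FreeGroup

section words

variable {Y : Type} [DecidableEq Y]

theorem mem_closure_of_iff {S : Set Y} {v : FreeGroup Y} :
    v ∈ Subgroup.closure (FreeGroup.of '' S) ↔ ∀ a ∈ v.toWord, a.1 ∈ S := by
  constructor
  · intro hv
    induction hv using Subgroup.closure_induction with
    | mem x hx => obtain ⟨y, hy, rfl⟩ := hx; simp [hy]
    | one => simp
    | mul x y _ _ hx hy =>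
      intro a ha
      have := (toWord_mul_sublist x y).subset ha
      rcases List.mem_append.1 this with h | h
      · exact hx a h
      · exact hy a h
    | inv x _ hx =>
      intro a ha
      rw [toWord_inv] at ha
      simp only [invRev, List.mem_reverse, List.mem_map] at ha
      obtain ⟨b, hb, rfl⟩ := ha
      exact hx b hb
  · intro h
    rw [← mk_toWord (x := v)]
    generalize v.toWord = w at h
    induction w with
    | nil => exact Subgroup.one_mem _
    | cons a w ih =>
      have : (mk (a :: w) : FreeGroup Y) = mk [a] * mk w := by simp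
      rw [this]
      refine Subgroup.mul_mem _ ?_ (ih fun b hb => h b (List.mem_cons_of_mem _ hb))
      have ha := h a List.mem_cons_self
      obtain ⟨y, b⟩ := a
      cases b
      · have : (mk [(y, false)] : FreeGroup Y) = (FreeGroup.of y)⁻¹ := by simp [FreeGroup.of, invRev]
        rw [this]
        exact Subgroup.inv_mem _ (Subgroup.subset_closure ⟨y, ha, rfl⟩)
      · exact Subgroup.subset_closure ⟨y, ha, rfl⟩

omit [DecidableEq Y] in
theorem mk_mem_closure {S : Set Y} {w : List (Y × Bool)} (h : ∀ a ∈ w, a.1 ∈ S) :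
    (mk w : FreeGroup Y) ∈ Subgroup.closure (FreeGroup.of '' S) := by
  induction w with
  | nil => exact Subgroup.one_mem _
  | cons a w ih =>
    have : (mk (a :: w) : FreeGroup Y) = mk [a] * mk w := by simp
    rw [this]
    refine Subgroup.mul_mem _ ?_ (ih fun b hb => h b (List.mem_cons_of_mem _ hb))
    have ha := h a List.mem_cons_self
    obtain ⟨y, b⟩ := a
    cases b
    · have : (mk [(y, false)] : FreeGroup Y) = (FreeGroup.of y)⁻¹ := by simp [FreeGroup.of, invRev]
      rw [this]
      exact Subgroup.inv_mem _ (Subgroup.subset_closure ⟨y, ha, rfl⟩)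
    · exact Subgroup.subset_closure ⟨y, ha, rfl⟩

/-- reduced words which do not start with a letter from `S` -/
def RW (S : Set Y) : Set (List (Y × Bool)) := {w | IsReduced w ∧ ∀ a ∈ w.head?, a.1 ∉ S}

theorem toWord_mul_of_RW {S : Set Y} {v : FreeGroup Y}
    (hv : v ∈ Subgroup.closure (FreeGroup.of '' S)) {w : List (Y × Bool)} (hw : w ∈ RW S) :
    (v * mk w).toWord = v.toWord ++ w := by
  rw [toWord_mul, toWord_mk, hw.1.reduce_eq]
  apply IsReduced.reduce_eq
  rw [FreeGroup.IsReduced, List.isChain_append]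
  refine ⟨isReduced_toWord, hw.1, ?_⟩
  intro a ha b hb hab
  exfalso
  apply hw.2 b hb
  rw [← hab]
  exact mem_closure_of_iff.1 hv a (List.mem_of_getLast? ha)

theorem exists_RW (S : Set Y) (v : FreeGroup Y) :
    ∃ w ∈ RW S, v * (mk w)⁻¹ ∈ Subgroup.closure (FreeGroup.of '' S) := by
  classical
  have h1 : v.toWord.takeWhile (fun a => decide (a.1 ∈ S)) ++
      v.toWord.dropWhile (fun a => decide (a.1 ∈ S)) = v.toWord := List.takeWhile_append_dropWhile
  refine ⟨v.toWord.dropWhile (fun a => decide (a.1 ∈ S)), ⟨?_, ?_⟩, ?_⟩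
  · have : IsReduced v.toWord := isReduced_toWord
    exact List.IsChain.suffix this (List.dropWhile_suffix _)
  · intro a ha
    have := List.head?_dropWhile_not (fun a : Y × Bool => decide (a.1 ∈ S)) v.toWord
    simp only [Option.mem_def] at ha
    rw [ha] at this
    simpa using this
  · have h2 : v = mk (v.toWord.takeWhile (fun a => decide (a.1 ∈ S))) *
        mk (v.toWord.dropWhile (fun a => decide (a.1 ∈ S))) := by
      rw [mul_mk, h1, mk_toWord]
    have h3 : v * (mk (v.toWord.dropWhile (fun a => decide (a.1 ∈ S))))⁻¹ =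
        mk (v.toWord.takeWhile (fun a => decide (a.1 ∈ S))) := by
      rw [mul_inv_eq_iff_eq_mul]; exact h2
    rw [h3]
    apply mk_mem_closure
    intro a ha
    have := List.mem_takeWhile_imp ha
    simpa using this

theorem RW_unique {S : Set Y} {w w' : List (Y × Bool)} (hw : w ∈ RW S) (hw' : w' ∈ RW S)
    (h : mk w' * (mk w)⁻¹ ∈ Subgroup.closure (FreeGroup.of '' S)) : w' = w := by
  have h1 := toWord_mul_of_RW h hw
  have h2 : (mk w' * (mk w)⁻¹ * mk w : FreeGroup Y) = mk w' := inv_mul_cancel_right _ _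
  rw [h2, toWord_mk, hw'.1.reduce_eq] at h1
  cases hv : (mk w' * (mk w)⁻¹ : FreeGroup Y).toWord with
  | nil => rw [h1, hv]; rfl
  | cons a l =>
    exfalso
    rw [hv] at h1
    apply hw'.2 a (by simp [h1])
    exact mem_closure_of_iff.1 h a (by rw [hv]; exact List.mem_cons_self)

end words

variable {Y : Type} {G : Type*} [Group G]

/-- value of a letter -/
def lv (j : FreeGroup Y →* G) (a : Y × Bool) : G := j (mk [a])

theorem ev_lv (j : FreeGroup Y →* G) (w : List (Y × Bool)) : ev (lv j) w = j (mk w) := by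
  induction w with
  | nil => simp [← FreeGroup.one_eq_mk]
  | cons a w ih =>
    rw [ev_cons, ih, lv, ← _root_.map_mul]
    simp

/-- the subgroup generated by the images of the basis elements in `S` -/
def subS (j : FreeGroup Y →* G) (S : Set Y) : Subgroup G :=
  (Subgroup.closure (FreeGroup.of '' S)).map j

theorem subS_mono (j : FreeGroup Y →* G) {S S' : Set Y} (h : S ⊆ S') : subS j S ≤ subS j S' :=
  Subgroup.map_mono (Subgroup.closure_mono (Set.image_mono h))

theorem subS_le_range (j : FreeGroup Y →* G) (S : Set Y) : subS j S ≤ j.range := by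
  rintro _ ⟨v, _, rfl⟩; exact ⟨v, rfl⟩

open Classical in
/-- transversal of `subS j S` in the range of `j`. -/
def RT' (j : FreeGroup Y →* G) (S : Set Y) : Set G := (fun w => j (mk w)) '' RW S

theorem isRegular_RW [Finite Y] (S : Set Y) : Language.IsRegular (RW S) :=
  isRegular_inter (isRegular_isChain _) (isRegular_head _)

theorem injOn_RW {j : FreeGroup Y →* G} (hj : Function.Injective j) (S : Set Y) :
    Set.InjOn (fun w => j (mk w)) (RW S) := by
  classical
  intro w hw w' hw' h
  have h1 : (mk w : FreeGroup Y) = mk w' := hj h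
  have h2 := congrArg FreeGroup.toWord h1
  rwa [toWord_mk, toWord_mk, hw.1.reduce_eq, hw'.1.reduce_eq] at h2

theorem ratSet_RT' [Finite Y] {j : FreeGroup Y →* G} (hj : Function.Injective j) (S : Set Y) :
    RatSet (RT' j S) := by
  refine ⟨Y × Bool, inferInstance, lv j, RW S, isRegular_RW S, ?_, ?_⟩
  · intro w hw w' hw' h
    rw [ev_lv, ev_lv] at h
    exact injOn_RW hj S hw hw' h
  · ext x
    constructor
    · rintro ⟨w, hw, rfl⟩; exact ⟨w, hw, (ev_lv j w).symm⟩
    · rintro ⟨w, hw, rfl⟩; exact ⟨w, hw, ev_lv j w⟩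

theorem one_mem_RT' (j : FreeGroup Y →* G) (S : Set Y) : 1 ∈ RT' j S :=
  ⟨[], ⟨by simp [FreeGroup.IsReduced], by simp⟩, by simp [← FreeGroup.one_eq_mk]⟩

theorem transv_RT' {j : FreeGroup Y →* G} (hj : Function.Injective j) (S : Set Y) :
    Transv (subS j S) (j.range : Set G) (RT' j S) := by
  classical
  refine ⟨?_, ?_⟩
  · rintro _ ⟨w, _, rfl⟩; exact ⟨mk w, rfl⟩
  · rintro _ ⟨v, rfl⟩
    obtain ⟨w, hw, h1⟩ := exists_RW S v
    refine ⟨j (mk w), ⟨w, hw, rfl⟩, ⟨_, h1, by rw [_root_.map_mul, _root_.map_inv]⟩, ?_⟩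
    rintro _ ⟨w', hw', rfl⟩ ⟨u, hu, hu'⟩
    have h2 : u = v * (mk w')⁻¹ := by apply hj; rw [hu', _root_.map_mul, _root_.map_inv]
    subst h2
    have h3 : mk w' * (mk w)⁻¹ ∈ Subgroup.closure (FreeGroup.of '' S) := by
      have := Subgroup.mul_mem _ (Subgroup.inv_mem _ hu) h1
      simpa [mul_assoc] using this
    simp only
    rw [RW_unique hw hw' h3]

theorem mem_subS_iff {j : FreeGroup Y →* G} (hj : Function.Injective j) {S : Set Y}
    {w : List (Y × Bool)} (hw : IsReduced w) : j (mk w) ∈ subS j S ↔ ∀ a ∈ w, a.1 ∈ S := by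
  classical
  have h0 : (mk w : FreeGroup Y).toWord = w := by rw [toWord_mk, hw.reduce_eq]
  constructor
  · rintro ⟨v, hv, hv'⟩
    have : v = mk w := hj hv'
    subst this
    have := mem_closure_of_iff.1 hv
    rwa [h0] at this
  · intro h
    exact ⟨mk w, mk_mem_closure h, rfl⟩

theorem ratSet_RT'_diff [Finite Y] {j : FreeGroup Y →* G} (hj : Function.Injective j)
    (S S' : Set Y) : RatSet (RT' j S \ (subS j S' : Set G)) := by
  refine ⟨Y × Bool, inferInstance, lv j, {w | w ∈ RW S ∧ w ∈ ({w | ∃ a ∈ w, a.1 ∉ S'} :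
    Set (List (Y × Bool)))}, isRegular_inter (isRegular_RW S) (isRegular_exists _), ?_, ?_⟩
  · intro w hw w' hw' h
    rw [ev_lv, ev_lv] at h
    exact injOn_RW hj S hw.1 hw'.1 h
  · ext x
    constructor
    · rintro ⟨w, ⟨hw, a, ha, haS⟩, rfl⟩
      refine ⟨⟨w, hw, (ev_lv j w).symm⟩, ?_⟩
      rw [ev_lv]
      intro h
      exact haS ((mem_subS_iff hj hw.1).1 h a ha)
    · rintro ⟨⟨w, hw, rfl⟩, h⟩
      refine ⟨w, ⟨hw, ?_⟩, ev_lv j w⟩
      by_contra hcon
      apply h
      apply (mem_subS_iff hj hw.1).2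
      intro a ha
      by_contra ha'
      exact hcon ⟨a, ha, ha'⟩

theorem RT'_meet {j : FreeGroup Y →* G} (hj : Function.Injective j) (S S' : Set Y) :
    ∀ r ∈ RT' j S, ∀ n ∈ subS j S, ∀ b ∈ subS j S', r = n * b → r ∈ subS j S' := by
  classical
  rintro _ ⟨w, hw, rfl⟩ _ ⟨n, hn, rfl⟩ _ ⟨b, hb, rfl⟩ h
  have h1 : mk w = n * b := by apply hj; simpa using h
  have h2 : b = n⁻¹ * mk w := by rw [h1]; simp
  have h3 := toWord_mul_of_RW (Subgroup.inv_mem _ hn) hw
  rw [← h2] at h3
  apply (mem_subS_iff hj hw.1).2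
  intro a ha
  apply mem_closure_of_iff.1 hb
  rw [h3]
  exact List.mem_append_right _ ha

/-- the subgroups generated by parts of a free basis of `C` inherit rational transversals -/
theorem RT.subS [Finite Y] {j : FreeGroup Y →* G} (hj : Function.Injective j) (S : Set Y)
    (hC : RT j.range) : RT (subS j S) :=
  RT.trans (subS_le_range j S) (ratSet_RT' hj S) (one_mem_RT' j S) (transv_RT' hj S) hC

theorem RT.subS_compl [Finite Y] {j : FreeGroup Y →* G} (hj : Function.Injective j) (S S' : Set Y)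
    (hC : RT j.range) : ∃ T : Set G, RatSet T ∧
      Transv (OneRelCS.subS j S) {h | ¬ ∃ n ∈ OneRelCS.subS j S, ∃ b ∈ OneRelCS.subS j S', h = n * b} T :=
  exists_transv_compl (subS_le_range j S) (subS_le_range j S') (ratSet_RT' hj S) (one_mem_RT' j S)
    (transv_RT' hj S) (ratSet_RT'_diff hj S S') (RT'_meet hj S S') hC

end Pool.Agent.OneRelCS
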