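import Pool.Agent.OneRelCS.HNNTrans

/-!
# HNN extensions of subgroups
-/

namespace Pool.Agent.OneRelCS

open HNNExtension HNNExtension.NormalWord

variable {H : Type*} [Group H] {A B : Subgroup H} {φ : A ≃* B}

theorem Compat.apply {N : Subgroup H} (hN : Compat φ N) (a : A) (ha : (a : H) ∈ N) :
    (φ a : H) ∈ N := hN 1 ⟨(a : H), a.2⟩ ha

set_option backward.isDefEq.respectTransparency false in
theorem Compat.apply_symm {N : Subgroup H} (hN : Compat φ N) (b : B) (hb : (b : H) ∈ N) :
    (φ.symm b : H) ∈ N := by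
  have h := hN (-1) ⟨(b : H), by rw [toSubgroup_neg_one]; exact b.2⟩ hb
  exact h

set_option backward.isDefEq.respectTransparency false in
theorem Compat.mk' {N : Subgroup H} (h1 : ∀ a : A, (a : H) ∈ N → (φ a : H) ∈ N)
    (h2 : ∀ b : B, (b : H) ∈ N → (φ.symm b : H) ∈ N) : Compat φ N := by
  intro u a ha
  rcases Int.units_eq_one_or u with rfl | rfl
  · exact h1 a ha
  · exact h2 a ha

/-- the restriction of the associating isomorphism to a compatible subgroup -/
def restrictIso (N : Subgroup H) (hN : Compat φ N) : A.subgroupOf N ≃* B.subgroupOf N where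
  toFun a := ⟨⟨(φ ⟨((a : N) : H), a.2⟩ : H), hN.apply ⟨((a : N) : H), a.2⟩ (a : N).2⟩,
    (φ ⟨((a : N) : H), a.2⟩).2⟩
  invFun b := ⟨⟨(φ.symm ⟨((b : N) : H), b.2⟩ : H), hN.apply_symm ⟨((b : N) : H), b.2⟩ (b : N).2⟩,
    (φ.symm ⟨((b : N) : H), b.2⟩).2⟩
  left_inv a := by
    apply Subtype.ext
    apply Subtype.ext
    simp
  right_inv b := by
    apply Subtype.ext
    apply Subtype.ext
    simp
  map_mul' a b := by
    apply Subtype.ext
    apply Subtype.ext
    have h := congrArg Subtype.val
      (map_mul φ ⟨((a : N) : H), a.2⟩ ⟨((b : N) : H), b.2⟩)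
    exact h

/-- the natural map of HNN extensions -/
def hnnIncl (N : Subgroup H) (hN : Compat φ N) :
    HNNExtension N (A.subgroupOf N) (B.subgroupOf N) (restrictIso N hN) →* HNNExtension H A B φ :=
  HNNExtension.lift (of.comp N.subtype) t (by
    intro a
    simp only [MonoidHom.comp_apply, Subgroup.subtype_apply]
    exact t_mul_of (φ := φ) ⟨(a : N), a.2⟩)

theorem hnnIncl_injective (N : Subgroup H) (hN : Compat φ N) :
    Function.Injective (hnnIncl N hN) := by
  rw [injective_iff_map_eq_one]
  intro x hx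
  obtain ⟨d⟩ := TransversalPair.nonempty N (A.subgroupOf N) (B.subgroupOf N)
  obtain ⟨w, rfl⟩ : ∃ w : NormalWord d, w.prod (restrictIso N hN) = x :=
    ⟨equiv _ d x, (equiv _ d).symm_apply_apply x⟩
  have hsub : ∀ (u : ℤˣ) (n : N), n ∈ toSubgroup (A.subgroupOf N) (B.subgroupOf N) u ↔
      (n : H) ∈ toSubgroup A B u := by
    intro u n
    rcases Int.units_eq_one_or u with rfl | rfl
    · exact Iff.rfl
    · exact Iff.rfl
  let v : ReducedWord H A B :=
    { head := w.head
      toList := w.toList.map fun p => (p.1, (p.2 : H))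
      chain := by
        rw [List.isChain_map]
        exact w.chain.imp fun a b hab h => hab ((hsub _ _).2 h) }
  have hv : v.prod φ = hnnIncl N hN (w.prod (restrictIso N hN)) := by
    have h0 : ∀ l : List (ℤˣ × N), (List.map (fun x : ℤˣ × H => (t : HNNExtension H A B φ) ^ (x.1 : ℤ) * of x.2)
        (List.map (fun p : ℤˣ × N => (p.1, (p.2 : H))) l)).prod =
        hnnIncl N hN ((l.map fun x => t ^ (x.1 : ℤ) * of x.2).prod) := by
      intro l
      induction l with
      | nil => simp
      | cons p l ih =>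
        simp only [List.map_cons, List.prod_cons, map_mul, ih]
        simp [hnnIncl]
    simp only [ReducedWord.prod, v, map_mul]
    rw [h0]
    simp [hnnIncl]
  have h1 : v.toList = [] := ReducedWord.toList_eq_nil_of_mem_of_range φ v
    ⟨1, by rw [hv, hx, map_one]⟩
  have h2 : w.toList = [] := by simpa [v] using h1
  have h3 : (of (w.head : H) : HNNExtension H A B φ) = 1 := by
    rw [← hx, ← hv]
    simp [ReducedWord.prod, v, h2]
  have h4 : (w.head : H) = 1 := by
    apply of_injective φ
    rw [h3, map_one]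
  have h5 : w.head = 1 := Subtype.ext h4
  simp [ReducedWord.prod, h2, h5]

end Pool.Agent.OneRelCS
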