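import Pool.Agent.OneRelCS.Descent
import Pool.Agent.OneRelCS.FreeTrans
import Pool.Agent.OneRelCS.HNNMap

/-!
# Magnus rewriting
-/

namespace Pool.Agent.OneRelCS

/-- the one-relator group of a word -/
abbrev OR {X : Type} (w : List (X × Bool)) : Type :=
  PresentedGroup ({FreeGroup.mk w} : Set (FreeGroup X))

/-- the homomorphism from the free group on the letters different from `x₀` -/
def mg {X : Type} (w : List (X × Bool)) (x₀ : X) : FreeGroup {y : X // y ≠ x₀} →* OR w :=
  FreeGroup.lift fun y => PresentedGroup.of y.1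

section levels

variable {X : Type} (φ : X → ℤ)

/-- the lifted word, starting at level `n` -/
def lvl : ℤ → List (X × Bool) → List ((X × ℤ) × Bool)
  | _, [] => []
  | n, (x, true) :: w => ((x, n), true) :: lvl (n + φ x) w
  | n, (x, false) :: w => ((x, n - φ x), false) :: lvl (n - φ x) w

/-- the total height of a word -/
def tot : List (X × Bool) → ℤ
  | [] => 0
  | (x, true) :: w => φ x + tot w
  | (x, false) :: w => - φ x + tot w

theorem lift_mk_cons {α K : Type*} [Group K] (f : α → K) (a : α × Bool) (L : List (α × Bool)) :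
    FreeGroup.lift f (FreeGroup.mk (a :: L)) =
      (cond a.2 (f a.1) (f a.1)⁻¹) * FreeGroup.lift f (FreeGroup.mk L) := by
  rw [FreeGroup.lift_mk, FreeGroup.lift_mk, List.map_cons, List.prod_cons]

theorem lift_mk_nil {α K : Type*} [Group K] (f : α → K) :
    FreeGroup.lift f (FreeGroup.mk []) = 1 := by
  rw [FreeGroup.lift_mk]; rfl

theorem lift_lvl {K : Type*} [Group K] (T : K) (g : X → K) (n : ℤ) (w : List (X × Bool)) :
    FreeGroup.lift (fun p : X × ℤ => T ^ p.2 * g p.1 * (T ^ (p.2 + φ p.1))⁻¹)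
      (FreeGroup.mk (lvl φ n w)) =
    T ^ n * FreeGroup.lift g (FreeGroup.mk w) * (T ^ (n + tot φ w))⁻¹ := by
  induction w generalizing n with
  | nil => simp [lvl, tot]
  | cons a w ih =>
    obtain ⟨x, b⟩ := a
    cases b
    · simp only [lvl, tot, lift_mk_cons, ih, cond_false]
      rw [show n - φ x + φ x = n by ring, show n + (-φ x + tot φ w) = n - φ x + tot φ w by ring]
      simp only [mul_inv_rev, inv_inv, mul_assoc]
      rw [← mul_assoc (T ^ (n - φ x))⁻¹ (T ^ (n - φ x))]
      simp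
    · simp only [lvl, tot, lift_mk_cons, ih, cond_true]
      rw [show n + (φ x + tot φ w) = n + φ x + tot φ w by ring]
      simp only [mul_assoc]
      rw [← mul_assoc (T ^ (n + φ x))⁻¹ (T ^ (n + φ x))]
      simp

theorem lvl_map_fst (n : ℤ) (w : List (X × Bool)) :
    (lvl φ n w).map (fun p => (p.1.1, p.2)) = w := by
  induction w generalizing n with
  | nil => rfl
  | cons a w ih =>
    obtain ⟨x, b⟩ := a
    cases b <;> simp [lvl, ih]

end levels

/-- the letters in range -/
abbrev LS {X : Type} (a b : X → ℤ) : Type := {p : X × ℤ // a p.1 ≤ p.2 ∧ p.2 ≤ b p.1}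

instance {X : Type} [Finite X] (a b : X → ℤ) : Finite (LS a b) := by
  let f : LS a b → Σ x : X, Set.Icc (a x) (b x) := fun p => ⟨p.1.1, ⟨p.1.2, p.2⟩⟩
  apply Finite.of_injective f
  rintro ⟨⟨x, n⟩, h⟩ ⟨⟨y, m⟩, h'⟩ heq
  simp only [f, Sigma.mk.injEq] at heq
  obtain ⟨rfl, h2⟩ := heq
  simp only [heq_eq_eq, Subtype.mk.injEq] at h2
  subst h2
  rfl

section step

variable {X : Type} {φ : X → ℤ} {a b : X → ℤ} {l : List (LS a b × Bool)}

/-- letters which are not at the top level -/
def PA (a b : X → ℤ) : Set (LS a b) := {s | s.1.2 < b s.1.1}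

/-- letters which are not at the bottom level -/
def PB (a b : X → ℤ) : Set (LS a b) := {s | a s.1.1 < s.1.2}

/-- the shift -/
def sh (a b : X → ℤ) : {s : LS a b // s ∈ PA a b} ≃ {s : LS a b // s ∈ PB a b} where
  toFun s := ⟨⟨(s.1.1.1, s.1.1.2 + 1), by
      have h1 : a s.1.1.1 ≤ s.1.1.2 := s.1.2.1
      have h2 : s.1.1.2 < b s.1.1.1 := s.2
      show a s.1.1.1 ≤ s.1.1.2 + 1 ∧ s.1.1.2 + 1 ≤ b s.1.1.1
      omega⟩, by
      have h1 : a s.1.1.1 ≤ s.1.1.2 := s.1.2.1
      show a s.1.1.1 < s.1.1.2 + 1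
      omega⟩
  invFun s := ⟨⟨(s.1.1.1, s.1.1.2 - 1), by
      have h1 : s.1.1.2 ≤ b s.1.1.1 := s.1.2.2
      have h2 : a s.1.1.1 < s.1.1.2 := s.2
      show a s.1.1.1 ≤ s.1.1.2 - 1 ∧ s.1.1.2 - 1 ≤ b s.1.1.1
      omega⟩, by
      have h1 : s.1.1.2 ≤ b s.1.1.1 := s.1.2.2
      show s.1.1.2 - 1 < b s.1.1.1
      omega⟩
  left_inv s := by
    apply Subtype.ext
    apply Subtype.ext
    simp
  right_inv s := by
    apply Subtype.ext
    apply Subtype.ext
    simp

variable (l)

/-- generators of the base -/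
def gs (s : LS a b) : OR l := PresentedGroup.of s

def fA : FreeGroup {s : LS a b // s ∈ PA a b} →* OR l := FreeGroup.lift fun s => gs l s.1

def fB : FreeGroup {s : LS a b // s ∈ PB a b} →* OR l := FreeGroup.lift fun s => gs l s.1

variable {l}

/-- the associating isomorphism -/
noncomputable def psi (hA : Function.Injective (fA l)) (hB : Function.Injective (fB l)) :
    (fA l).range ≃* (fB l).range :=
  (MonoidHom.ofInjective hA).symm.trans
    ((FreeGroup.freeGroupCongr (sh a b)).trans (MonoidHom.ofInjective hB))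

theorem psi_apply (hA : Function.Injective (fA l)) (hB : Function.Injective (fB l))
    (v : FreeGroup {s : LS a b // s ∈ PA a b}) (h : fA l v ∈ (fA l).range) :
    (psi hA hB ⟨fA l v, h⟩ : OR l) = fB l (FreeGroup.freeGroupCongr (sh a b) v) := by
  have h1 : (MonoidHom.ofInjective hA).symm ⟨fA l v, h⟩ = v := by
    rw [MulEquiv.symm_apply_eq]
    rfl
  simp only [psi, MulEquiv.trans_apply, h1]
  rfl

theorem psi_symm_apply (hA : Function.Injective (fA l)) (hB : Function.Injective (fB l))
    (v : FreeGroup {s : LS a b // s ∈ PB a b}) (h : fB l v ∈ (fB l).range) :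
    ((psi hA hB).symm ⟨fB l v, h⟩ : OR l) = fA l (FreeGroup.freeGroupCongr (sh a b).symm v) := by
  have h1 : (MonoidHom.ofInjective hB).symm ⟨fB l v, h⟩ = v := by
    rw [MulEquiv.symm_apply_eq]
    rfl
  simp only [psi, MulEquiv.symm_trans_apply, h1]
  rfl

/-- the HNN extension -/
abbrev EE (hA : Function.Injective (fA l)) (hB : Function.Injective (fB l)) : Type :=
  HNNExtension (OR l) (fA l).range (fB l).range (psi hA hB)

variable (hA : Function.Injective (fA l)) (hB : Function.Injective (fB l))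

theorem t_gs (x : X) (n : ℤ) (h1 : a x ≤ n) (h2 : n < b x) :
    (HNNExtension.t * HNNExtension.of (gs l ⟨(x, n), h1, h2.le⟩) * HNNExtension.t⁻¹ : EE hA hB) =
      HNNExtension.of (gs l ⟨(x, n + 1), by show a x ≤ n + 1; omega, by show n + 1 ≤ b x; omega⟩) := by
  let s : {s : LS a b // s ∈ PA a b} := ⟨⟨(x, n), h1, h2.le⟩, h2⟩
  have e1 : fA l (FreeGroup.of s) = gs l ⟨(x, n), h1, h2.le⟩ := by simp [fA, s]
  have e2 := HNNExtension.equiv_eq_conj (φ := psi hA hB) ⟨fA l (FreeGroup.of s), ⟨_, rfl⟩⟩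
  rw [psi_apply] at e2
  simp only [e1] at e2
  rw [← e2]
  simp [fB, s, sh]

theorem of_gs (x : X) (k : ℕ) (h2 : a x + k ≤ b x) :
    (HNNExtension.of (gs l ⟨(x, a x + k), by show a x ≤ a x + k; omega, h2⟩) : EE hA hB) =
      HNNExtension.t ^ (k : ℤ) * HNNExtension.of (gs l ⟨(x, a x), le_rfl, by show a x ≤ b x; omega⟩) *
        (HNNExtension.t ^ (k : ℤ))⁻¹ := by
  induction k with
  | zero => simp
  | succ k ih =>
    have h3 := ih (by push_cast at h2; omega)
    have h4 := t_gs hA hB x (a x + k) (by omega) (by push_cast at h2; omega)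
    rw [h3] at h4
    have h5 : (⟨(x, a x + k + 1), by show a x ≤ a x + k + 1; omega,
        by show a x + k + 1 ≤ b x; push_cast at h2; omega⟩ : LS a b) =
        ⟨(x, a x + (k + 1 : ℕ)), by show a x ≤ a x + (k + 1 : ℕ); omega, h2⟩ := by
      apply Subtype.ext
      simp only [Prod.mk.injEq, true_and]
      push_cast
      ring
    rw [h5] at h4
    rw [← h4]
    push_cast
    rw [zpow_add_one, (Commute.self_zpow HNNExtension.t (k : ℤ)).eq.symm]
    simp only [mul_assoc, mul_inv_rev]

end step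

end Pool.Agent.OneRelCS
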