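import Pool.Agent.OneRelCS.Dichotomy
import Pool.Agent.OneRelCS.Rewrite

/-!
# The dichotomy for lists
-/

namespace Pool.Agent.OneRelCS

variable {X : Type}

theorem tot_append (φ : X → ℤ) (u v : List (X × Bool)) : tot φ (u ++ v) = tot φ u + tot φ v := by
  induction u with
  | nil => simp [tot]
  | cons a u ih =>
    obtain ⟨x, b⟩ := a
    cases b <;> simp [tot, ih, add_assoc]

theorem tot_singleton (φ : X → ℤ) (p : X × Bool) : tot φ [p] = sg φ p := by
  obtain ⟨x, b⟩ := p
  cases b <;> simp [tot, sg]

theorem mem_lvl (φ : X → ℤ) (w : List (X × Bool)) (n : ℤ) (i : ℕ) (hi : i < w.length) :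
    (((w[i]).1, n + cond (w[i]).2 (tot φ (w.take i)) (tot φ (w.take (i + 1)))), (w[i]).2) ∈
      lvl φ n w := by
  induction w generalizing n i with
  | nil => simp at hi
  | cons a w ih =>
    obtain ⟨x, b⟩ := a
    cases i with
    | zero => cases b <;> simp [lvl, tot, sub_eq_add_neg]
    | succ i =>
      have hi' : i < w.length := by simpa using hi
      cases b
      · have h1 := ih (n - φ x) i hi'
        simp only [lvl, List.mem_cons]
        right
        simp only [List.getElem_cons_succ, List.take_succ_cons, tot]
        convert h1 using 3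
        cases (w[i]).2 <;> simp only [cond_true, cond_false] <;> ring
      · have h1 := ih (n + φ x) i hi'
        simp only [lvl, List.mem_cons]
        right
        simp only [List.getElem_cons_succ, List.take_succ_cons, tot]
        convert h1 using 3
        cases (w[i]).2 <;> simp only [cond_true, cond_false] <;> ring

theorem eq_flatten_replicate {α : Type*} (e : List α) (n : ℕ) (w : List α)
    (hlen : w.length = n * e.length)
    (h : ∀ i, i < w.length → w[i]? = e[i % e.length]?) : w = (List.replicate n e).flatten := by
  induction n generalizing w with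
  | zero =>
    have : w = [] := by
      apply List.eq_nil_of_length_eq_zero
      simpa using hlen
    simp [this]
  | succ n ih =>
    have h1 : w.take e.length = e := by
      apply List.ext_getElem?
      intro i
      by_cases hi : i < e.length
      · rw [List.getElem?_take_of_lt hi, h i (by rw [hlen]; nlinarith), Nat.mod_eq_of_lt hi]
      · rw [List.getElem?_eq_none (by simp; omega), List.getElem?_eq_none (by omega)]
    have h2 : w.drop e.length = (List.replicate n e).flatten := by
      apply ih
      · rw [List.length_drop, hlen]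
        rw [Nat.succ_mul]
        omega
      · intro i hi
        rw [List.length_drop] at hi
        rw [List.getElem?_drop, h (e.length + i) (by omega), Nat.add_mod_left]
    rw [List.replicate_succ, List.flatten_cons, ← h2]
    have h3 := List.take_append_drop e.length w
    rw [h1] at h3
    exact h3.symm

/-- The dichotomy. -/
theorem dichotomy (w : List (X × Bool)) (hne : w ≠ []) (hred : FreeGroup.IsCyclicallyReduced w) :
    (∃ φ : X → ℤ, tot φ w = 0 ∧ ∃ x n m s s', n ≠ m ∧ ((x, n), s) ∈ lvl φ 0 w ∧
      ((x, m), s') ∈ lvl φ 0 w) ∨
    ∃ c n, w = (List.replicate n c).flatten ∧ (c.map Prod.fst).Nodup := by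
  by_contra hcon
  push Not at hcon
  obtain ⟨hcon1, hcon2⟩ := hcon
  have hpos : 0 < w.length := List.length_pos_of_ne_nil hne
  let s : ℕ → X × Bool := fun i => w[i % w.length]'(Nat.mod_lt _ hpos)
  have hs : ∀ i (hi : i < w.length), s i = w[i] := by
    intro i hi
    simp only [s, Nat.mod_eq_of_lt hi]
  have hper : ∀ i, s (i + w.length) = s i := by
    intro i
    simp only [s, Nat.add_mod_right]
  have hHt : ∀ φ i, i ≤ w.length → Ht s φ i = tot φ (w.take i) := by
    intro φ i
    induction i with
    | zero => intro _; simp [Ht, tot]
    | succ i ih =>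
      intro hi
      rw [Ht_succ, ih (by omega), hs i (by omega), List.take_succ_eq_append_getElem (by omega),
        tot_append, tot_singleton]
  have hHtℓ : ∀ φ, Ht s φ w.length = tot φ w := by
    intro φ
    rw [hHt φ _ le_rfl, List.take_length]
  have hHper : ∀ φ, tot φ w = 0 → ∀ i, Ht s φ (i + w.length) = Ht s φ i := by
    intro φ hφ i
    induction i with
    | zero => rw [zero_add, hHtℓ, hφ]; rfl
    | succ i ih =>
      rw [show i + 1 + w.length = (i + w.length) + 1 by ring, Ht_succ, Ht_succ, ih, hper]
  have hHmul : ∀ φ, tot φ w = 0 → ∀ k i, Ht s φ (i + w.length * k) = Ht s φ i := by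
    intro φ hφ k
    induction k with
    | zero => intro i; rfl
    | succ k ih => intro i; rw [Nat.mul_succ, ← add_assoc, hHper φ hφ, ih]
  have hEmod : ∀ φ, tot φ w = 0 → ∀ i, EH s φ i = EH s φ (i % w.length) := by
    intro φ hφ i
    have h1 : s (i % w.length) = s i := by simp only [s, Nat.mod_mod]
    have h2 := hHmul φ hφ (i / w.length) (i % w.length)
    have h3 := hHmul φ hφ (i / w.length) (i % w.length + 1)
    rw [Nat.mod_add_div] at h2
    rw [add_right_comm, Nat.mod_add_div] at h3
    unfold EH
    rw [h1, h2, h3]
  have hEmem : ∀ φ i, i < w.length → (((s i).1, EH s φ i), (s i).2) ∈ lvl φ 0 w := by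
    intro φ i hi
    have h1 := mem_lvl φ w 0 i hi
    rw [hs i hi]
    unfold EH
    rw [hs i hi, hHt φ i hi.le, hHt φ (i + 1) hi]
    rw [zero_add] at h1
    exact h1
  have hPW : PW s w.length := by
    refine ⟨hpos, hper, ?_, ?_⟩
    · intro i hx
      by_cases hi : i % w.length + 1 < w.length
      · have h1 : (i + 1) % w.length = i % w.length + 1 := by
          rw [Nat.add_mod, Nat.mod_eq_of_lt (a := 1) (by omega), Nat.mod_eq_of_lt hi]
        have h2 := List.isChain_iff_getElem.1 hred.1 (i % w.length) hi
        simp only [s, h1] at hx ⊢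
        exact h2 hx
      · have h0 := Nat.mod_lt i hpos
        have h1 : i % w.length = w.length - 1 := by omega
        have h2 : (i + 1) % w.length = 0 := by
          rw [Nat.add_mod, h1]
          rcases Nat.lt_or_ge 1 w.length with h3 | h3
          · rw [Nat.mod_eq_of_lt (a := 1) h3, show w.length - 1 + 1 = w.length by omega,
              Nat.mod_self]
          · have h4 : w.length = 1 := by omega
            rw [h4]
        have h3 := hred.2 (s i) (by
          rw [Option.mem_def, List.getLast?_eq_getElem?]
          simp only [s, h1]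
          exact List.getElem?_eq_getElem _) (s (i + 1)) (by
          rw [Option.mem_def, List.head?_eq_getElem?]
          simp only [s, h2]
          exact List.getElem?_eq_getElem _)
        exact h3 hx
    · intro φ hφ i j hx
      rw [hHtℓ] at hφ
      rw [hEmod φ hφ i, hEmod φ hφ j]
      by_contra hne'
      have h1 : ∀ i, s (i % w.length) = s i := fun i => by simp only [s, Nat.mod_mod]
      have h2 := hEmem φ (i % w.length) (Nat.mod_lt _ hpos)
      have h3 := hEmem φ (j % w.length) (Nat.mod_lt _ hpos)
      rw [h1] at h2 h3
      rw [hx] at h2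
      exact hcon1 φ hφ _ _ _ _ _ hne' h2 h3
  obtain ⟨p, hp0, ⟨n, hn⟩, hp1, hp2⟩ := dichotomy_aux hPW
  have hn0 : 0 < n := by
    rcases Nat.eq_zero_or_pos n with h | h
    · rw [h, mul_zero] at hn; omega
    · exact h
  have hple : p ≤ w.length := by rw [hn]; nlinarith
  have hlen : (w.take p).length = p := by rw [List.length_take]; omega
  have hpm : ∀ k i, s (i + p * k) = s i := by
    intro k
    induction k with
    | zero => intro i; rfl
    | succ k ih => intro i; rw [Nat.mul_succ, ← add_assoc, hp1, ih]
  refine hcon2 (w.take p) n ?_ ?_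
  · apply eq_flatten_replicate
    · rw [hlen, hn, mul_comm]
    · intro i hi
      rw [hlen, List.getElem?_take_of_lt (Nat.mod_lt _ hp0)]
      have h1 : i % p < w.length := lt_of_lt_of_le (Nat.mod_lt _ hp0) hple
      rw [List.getElem?_eq_getElem hi, List.getElem?_eq_getElem h1, ← hs i hi, ← hs _ h1]
      have h2 := hpm (i / p) (i % p)
      rw [Nat.mod_add_div] at h2
      rw [h2]
  · rw [List.nodup_iff_injective_getElem]
    rintro ⟨i, hi⟩ ⟨j, hj⟩ hij
    simp only [List.length_map, hlen] at hi hj
    simp only [List.getElem_map, List.getElem_take] at hij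
    rw [← hs i (by omega), ← hs j (by omega)] at hij
    have := hp2 i j hi hj hij
    subst this
    rfl

end Pool.Agent.OneRelCS
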