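import Mathlib

/-!
# The combinatorial dichotomy

A cyclically reduced word either admits a height function for which some letter occurs at two
different levels, or it is a power of a word with distinct letters.
-/

namespace Pool.Agent.OneRelCS

variable {X : Type*}

/-- signed value of a letter -/
def sg (φ : X → ℤ) (p : X × Bool) : ℤ := cond p.2 (φ p.1) (-φ p.1)

/-- height -/
def Ht (s : ℕ → X × Bool) (φ : X → ℤ) (i : ℕ) : ℤ := ∑ j ∈ Finset.range i, sg φ (s j)

/-- level of an edge -/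
def EH (s : ℕ → X × Bool) (φ : X → ℤ) (i : ℕ) : ℤ := cond (s i).2 (Ht s φ i) (Ht s φ (i + 1))

theorem Ht_succ (s : ℕ → X × Bool) (φ : X → ℤ) (i : ℕ) : Ht s φ (i + 1) = Ht s φ i + sg φ (s i) :=
  Finset.sum_range_succ _ _

/-- data of a periodic word all of whose admissible heights are trivial -/
structure PW (s : ℕ → X × Bool) (ℓ : ℕ) : Prop where
  pos : 0 < ℓ
  per : ∀ i, s (i + ℓ) = s i
  red : ∀ i, (s i).1 = (s (i + 1)).1 → (s i).2 = (s (i + 1)).2
  lev : ∀ φ : X → ℤ, Ht s φ ℓ = 0 → ∀ i j, (s i).1 = (s j).1 → EH s φ i = EH s φ j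

/-- closed intervals -/
def Cl (s : ℕ → X × Bool) (ℓ i j : ℕ) : Prop := ∀ φ : X → ℤ, Ht s φ ℓ = 0 → Ht s φ i = Ht s φ j

/-- intervals with distinct letters -/
def Dst (s : ℕ → X × Bool) (i j : ℕ) : Prop := ∀ a b, i ≤ a → a < b → b < j → (s a).1 ≠ (s b).1

section

variable {s : ℕ → X × Bool} {ℓ : ℕ}

theorem cl_same (h : PW s ℓ) {i j : ℕ} (hx : (s i).1 = (s j).1) (he : (s i).2 = (s j).2) :
    Cl s ℓ i j := by
  intro φ hφ
  have h1 := h.lev φ hφ i j hx
  have h2 := Ht_succ s φ i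
  have h3 := Ht_succ s φ j
  unfold EH at h1
  unfold sg at h2 h3
  rw [← he, ← hx] at h3
  rw [← he] at h1
  cases hb : (s i).2 <;> simp only [hb, cond_true, cond_false] at h1 h2 h3 <;> omega

theorem cl_diff (h : PW s ℓ) {i j : ℕ} (hx : (s i).1 = (s j).1) (he : (s i).2 ≠ (s j).2) :
    Cl s ℓ (i + 1) j := by
  intro φ hφ
  have h1 := h.lev φ hφ i j hx
  have h2 := Ht_succ s φ i
  have h3 := Ht_succ s φ j
  unfold EH at h1
  unfold sg at h2 h3
  rw [← hx] at h3
  cases hb : (s i).2 <;> cases hb' : (s j).2 <;> simp only [hb, hb', cond_true, cond_false] at h1 h2 h3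
  · exact absurd (hb.trans hb'.symm) he
  · omega
  · omega
  · exact absurd (hb.trans hb'.symm) he

/-- Claim A -/
theorem exists_dst (h : PW s ℓ) : ∀ n i j : ℕ, j - i = n → i < j → Cl s ℓ i j →
    ∃ i' j', i ≤ i' ∧ i' < j' ∧ j' ≤ j ∧ Cl s ℓ i' j' ∧ Dst s i' j' := by
  intro n
  induction n using Nat.strong_induction_on with
  | _ n ih =>
    intro i j hn hij hc
    by_cases hd : Dst s i j
    · exact ⟨i, j, le_rfl, hij, le_rfl, hc, hd⟩
    · unfold Dst at hd
      push Not at hd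
      obtain ⟨p, q, hip, hpq, hqj, hx⟩ := hd
      by_cases he : (s p).2 = (s q).2
      · obtain ⟨i', j', h1, h2, h3, h4, h5⟩ := ih (q - p) (by omega) p q rfl hpq (cl_same h hx he)
        exact ⟨i', j', by omega, h2, by omega, h4, h5⟩
      · have hne : p + 1 ≠ q := by
          rintro rfl
          exact he (h.red p hx)
        obtain ⟨i', j', h1, h2, h3, h4, h5⟩ := ih (q - (p + 1)) (by omega) (p + 1) q rfl
          (by omega) (cl_diff h hx he)
        exact ⟨i', j', by omega, h2, by omega, h4, h5⟩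

open Classical in
/-- indicator -/
noncomputable def dl (x : X) : X → ℤ := fun y => if y = x then 1 else 0

theorem sg_dl_ne {x : X} {p : X × Bool} (h : p.1 ≠ x) : sg (dl x) p = 0 := by
  unfold sg dl
  cases p.2 <;> simp [h]

theorem sg_dl_eq {x : X} {p : X × Bool} (h : p.1 = x) : sg (dl x) p = 1 ∨ sg (dl x) p = -1 := by
  unfold sg dl
  cases p.2 <;> simp [h]

theorem Ht_const {x : X} {i j : ℕ} (hij : i ≤ j) (hno : ∀ a, i ≤ a → a < j → (s a).1 ≠ x) :
    Ht s (dl x) j = Ht s (dl x) i := by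
  induction j, hij using Nat.le_induction with
  | base => rfl
  | succ j hij ih =>
    rw [Ht_succ, sg_dl_ne (hno j hij (by omega)), ih (fun a h1 h2 => hno a h1 (by omega))]
    ring

theorem Ht_comb (c d : ℤ) (x y : X) (i : ℕ) :
    Ht s (fun z => c * dl x z - d * dl y z) i = c * Ht s (dl x) i - d * Ht s (dl y) i := by
  unfold Ht
  rw [Finset.mul_sum, Finset.mul_sum, ← Finset.sum_sub_distrib]
  apply Finset.sum_congr rfl
  intro j _
  unfold sg
  cases (s j).2 <;> simp only [cond_true, cond_false] <;> ring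

theorem dst_ne {i j a : ℕ} (hd : Dst s i j) (hia : i ≤ a) (haj : a < j) :
    Ht s (dl (s a).1) j ≠ Ht s (dl (s a).1) i := by
  have h1 : Ht s (dl (s a).1) a = Ht s (dl (s a).1) i :=
    Ht_const hia fun b h1 h2 => hd b a h1 h2 haj
  have h2 : Ht s (dl (s a).1) j = Ht s (dl (s a).1) (a + 1) :=
    Ht_const (by omega) fun b h1 h2 => (hd a b hia (by omega) h2).symm
  rw [h2, ← h1, Ht_succ]
  rcases sg_dl_eq (x := (s a).1) (p := s a) rfl with h | h <;> omega

/-- Claim B -/
theorem dst_letters {i j : ℕ} (hij : i < j) (hc : Cl s ℓ i j) (hd : Dst s i j) (x : X) :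
    (∃ a, i ≤ a ∧ a < j ∧ (s a).1 = x) ↔ Ht s (dl x) ℓ ≠ 0 := by
  constructor
  · rintro ⟨a, h1, h2, rfl⟩ h3
    exact dst_ne hd h1 h2 (hc _ h3).symm
  · intro hx
    by_contra hno
    push Not at hno
    have h1 : Ht s (dl x) j = Ht s (dl x) i := Ht_const hij.le fun a h1 h2 => hno a h1 h2
    have h2 := dst_ne hd le_rfl hij
    have h3 := hc (fun z => Ht s (dl x) ℓ * dl (s i).1 z - Ht s (dl (s i).1) ℓ * dl x z)
      (by rw [Ht_comb]; ring)
    rw [Ht_comb, Ht_comb, h1] at h3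
    have h4 : Ht s (dl x) ℓ * Ht s (dl (s i).1) i = Ht s (dl x) ℓ * Ht s (dl (s i).1) j := by
      linarith
    exact h2 (mul_left_cancel₀ hx h4).symm

theorem exists_in_gap (h : PW s ℓ) {z : X} {p q : ℕ} (hpq : p < q) (hp : (s p).1 = z)
    (hq : (s q).1 = z) (hno : ∀ a, p < a → a < q → (s a).1 ≠ z) (hz : Ht s (dl z) ℓ = 0) :
    ∃ i' j', p < i' ∧ i' < j' ∧ j' ≤ q ∧ Cl s ℓ i' j' ∧ Dst s i' j' := by
  by_cases he : (s p).2 = (s q).2
  · exfalso
    have h1 := cl_same h (hp.trans hq.symm) he _ hz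
    have h2 : Ht s (dl z) q = Ht s (dl z) (p + 1) :=
      Ht_const (by omega) fun b h1 h2 => hno b (by omega) h2
    rw [Ht_succ] at h2
    rcases sg_dl_eq hp with h | h <;> omega
  · have hne : p + 1 ≠ q := by
      rintro rfl
      exact he (h.red p (hp.trans hq.symm))
    obtain ⟨i', j', h1, h2, h3, h4, h5⟩ := exists_dst h _ (p + 1) q rfl (by omega)
      (cl_diff h (hp.trans hq.symm) he)
    exact ⟨i', j', by omega, h2, h3, h4, h5⟩

/-- Claim C -/
theorem letter_ne_zero (h : PW s ℓ) (q : ℕ) : Ht s (dl (s q).1) ℓ ≠ 0 := by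
  classical
  intro hz
  have hpos := h.pos
  obtain ⟨z, hzq⟩ : ∃ z, z = (s q).1 := ⟨_, rfl⟩
  rw [← hzq] at hz
  obtain ⟨m, hm⟩ : ∃ m, m = q + ℓ := ⟨_, rfl⟩
  have hmz : (s m).1 = z := by rw [hm, h.per, hzq]
  -- next occurrence
  have hex : ∃ r, m < r ∧ (s r).1 = z := ⟨m + ℓ, by omega, by rw [h.per, hmz]⟩
  have hr := Nat.find_spec hex
  have hr' : ∀ a, m < a → a < Nat.find hex → (s a).1 ≠ z := fun a h1 h2 h3 =>
    Nat.find_min hex h2 ⟨h1, h3⟩
  -- previous occurrence
  have hex' : ∃ k, 0 < k ∧ k ≤ m ∧ (s (m - k)).1 = z :=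
    ⟨ℓ, hpos, by omega, by rw [hm, Nat.add_sub_cancel, hzq]⟩
  have hp := Nat.find_spec hex'
  have hp' : ∀ a, m - Nat.find hex' < a → a < m → (s a).1 ≠ z := by
    intro a h1 h2 h3
    refine Nat.find_min hex' (m := m - a) (by omega) ⟨by omega, by omega, ?_⟩
    rw [show m - (m - a) = a by omega]
    exact h3
  obtain ⟨i, j, a1, a2, a3, a4, a5⟩ := exists_in_gap h (z := z) (p := m - Nat.find hex') (q := m)
    (by omega) hp.2.2 hmz hp' hz
  obtain ⟨i', j', b1, b2, b3, b4, b5⟩ := exists_in_gap h (z := z) (p := m) (q := Nat.find hex)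
    hr.1 hmz hr.2 hr' hz
  have hy : Ht s (dl (s i).1) ℓ ≠ 0 := (dst_letters a2 a4 a5 _).1 ⟨i, le_rfl, a2, rfl⟩
  obtain ⟨k, c1, c2, c3⟩ := (dst_letters b2 b4 b5 _).2 hy
  have hlev := h.lev (dl z) hz i k c3.symm
  have hiz : (s i).1 ≠ z := hp' i (by omega) (by omega)
  have hkz : (s k).1 ≠ z := hr' k (by omega) (by omega)
  have e1 : EH s (dl z) i = Ht s (dl z) m := by
    have e2 : Ht s (dl z) m = Ht s (dl z) i := Ht_const (by omega) fun a h1 h2 =>
      hp' a (by omega) h2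
    have e3 : Ht s (dl z) (i + 1) = Ht s (dl z) i := by
      rw [Ht_succ, sg_dl_ne hiz]; ring
    unfold EH
    cases (s i).2 <;> simp only [cond_true, cond_false] <;> omega
  have e2 : EH s (dl z) k = Ht s (dl z) (m + 1) := by
    have e2 : Ht s (dl z) k = Ht s (dl z) (m + 1) := Ht_const (by omega) fun a h1 h2 =>
      hr' a (by omega) (by omega)
    have e3 : Ht s (dl z) (k + 1) = Ht s (dl z) k := by
      rw [Ht_succ, sg_dl_ne hkz]; ring
    unfold EH
    cases (s k).2 <;> simp only [cond_true, cond_false] <;> omega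
  rw [e1, e2, Ht_succ] at hlev
  rcases sg_dl_eq hmz with h | h <;> omega

theorem dst_ncard {i j : ℕ} (hij : i < j) (hc : Cl s ℓ i j) (hd : Dst s i j) :
    {x | Ht s (dl x) ℓ ≠ 0}.ncard = j - i := by
  have h1 : {x | Ht s (dl x) ℓ ≠ 0} = (fun a => (s a).1) '' Set.Ico i j := by
    ext x
    rw [Set.mem_ofPred_eq, ← dst_letters hij hc hd x]
    constructor
    · rintro ⟨a, h1, h2, h3⟩; exact ⟨a, ⟨h1, h2⟩, h3⟩
    · rintro ⟨a, ⟨h1, h2⟩, h3⟩; exact ⟨a, h1, h2, h3⟩
  rw [h1, Set.ncard_image_of_injOn]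
  · rw [Set.ncard_eq_toFinset_card']
    simp
  · intro a ha b hb hab
    rcases lt_trichotomy a b with hlt | heq | hgt
    · exact absurd hab (hd a b ha.1 hlt hb.2)
    · exact heq
    · exact absurd hab.symm (hd b a hb.1 hgt ha.2)

theorem cl_len (h : PW s ℓ) {i j : ℕ} (hij : i < j) (hc : Cl s ℓ i j) :
    {x | Ht s (dl x) ℓ ≠ 0}.ncard ≤ j - i := by
  obtain ⟨i', j', h1, h2, h3, h4, h5⟩ := exists_dst h _ i j rfl hij hc
  rw [dst_ncard h2 h4 h5]
  omega

theorem dichotomy_aux (h : PW s ℓ) : ∃ p, 0 < p ∧ p ∣ ℓ ∧ (∀ i, s (i + p) = s i) ∧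
    ∀ i j, i < p → j < p → (s i).1 = (s j).1 → i = j := by
  obtain ⟨p, hp⟩ : ∃ p, p = {x | Ht s (dl x) ℓ ≠ 0}.ncard := ⟨_, rfl⟩
  have hcl : Cl s ℓ 0 ℓ := by
    intro φ hφ
    rw [hφ]; rfl
  obtain ⟨i₀, j₀, h1, h2, h3, h4, h5⟩ := exists_dst h _ 0 ℓ rfl h.pos hcl
  have hfin : {x | Ht s (dl x) ℓ ≠ 0}.Finite := by
    apply Set.finite_of_ncard_pos
    rw [dst_ncard h2 h4 h5]
    omega
  have hp0 : 0 < p := by
    rw [hp, dst_ncard h2 h4 h5]
    omega
  -- two equal letters are far apart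
  have hD : ∀ i j, i < j → (s i).1 = (s j).1 → p ≤ j - i := by
    intro i j hij hx
    by_cases he : (s i).2 = (s j).2
    · rw [hp]; exact cl_len h hij (cl_same h hx he)
    · have hne : i + 1 ≠ j := by
        rintro rfl
        exact he (h.red i hx)
      have := cl_len h (i := i + 1) (j := j) (by omega) (cl_diff h hx he)
      rw [← hp] at this
      omega
  have hD' : ∀ i j, i < j → (s i).1 = (s j).1 → (s i).2 ≠ (s j).2 → p ≤ j - (i + 1) := by
    intro i j hij hx he
    have hne : i + 1 ≠ j := by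
      rintro rfl
      exact he (h.red i hx)
    have := cl_len h (i := i + 1) (j := j) (by omega) (cl_diff h hx he)
    rw [← hp] at this
    omega
  have hper : ∀ i, s (i + p) = s i := by
    intro i
    have himg : (fun a => (s a).1) '' Set.Ico i (i + p) = {x | Ht s (dl x) ℓ ≠ 0} := by
      apply Set.eq_of_subset_of_ncard_le _ _ hfin
      · rintro _ ⟨a, _, rfl⟩
        exact letter_ne_zero h a
      · rw [Set.ncard_image_of_injOn, ← hp]
        · rw [Set.ncard_eq_toFinset_card']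
          simp
        · intro a ha b hb hab
          obtain ⟨ha1, ha2⟩ := ha
          obtain ⟨hb1, hb2⟩ := hb
          rcases lt_trichotomy a b with hlt | heq | hgt
          · have := hD a b hlt hab
            omega
          · exact heq
          · have := hD b a hgt hab.symm
            omega
    have hmem : (s (i + p)).1 ∈ (fun a => (s a).1) '' Set.Ico i (i + p) := by
      rw [himg]; exact letter_ne_zero h (i + p)
    obtain ⟨a, ⟨ha1, ha2⟩, ha3⟩ := hmem
    have h6 := hD a (i + p) ha2 ha3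
    have h7 : a = i := by omega
    subst h7
    have ha4 : (s a).1 = (s (a + p)).1 := ha3
    by_cases he : (s a).2 = (s (a + p)).2
    · exact (Prod.ext ha4 he).symm
    · have := hD' a (a + p) ha2 ha4 he
      omega
  have hper' : ∀ n i, s (i + p * n) = s i := by
    intro n
    induction n with
    | zero => intro i; rfl
    | succ n ih => intro i; rw [Nat.mul_succ, ← add_assoc, hper, ih]
  refine ⟨p, hp0, ?_, hper, ?_⟩
  · have e1 : s (ℓ % p) = s 0 := by
      have e2 := hper' (ℓ / p) (ℓ % p)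
      rw [Nat.mod_add_div] at e2
      rw [← e2]
      have e3 := h.per 0
      rwa [zero_add] at e3
    rw [Nat.dvd_iff_mod_eq_zero]
    by_contra hne
    have e4 := hD 0 (ℓ % p) (Nat.pos_of_ne_zero hne) (by rw [e1])
    have e5 := Nat.mod_lt ℓ hp0
    omega
  · intro i j hi hj hx
    rcases lt_trichotomy i j with hlt | heq | hgt
    · have := hD i j hlt hx
      omega
    · exact heq
    · have := hD j i hgt hx.symm
      omega

end

end Pool.Agent.OneRelCS
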