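import Pool.Agent.OneRelCS.Main

/-!
# Every one-relator group has a rational cross-section
-/

namespace Pool.Agent.OneRelCS

theorem ratSet_univ_of_mg {Y G : Type} [Finite Y] [Group G] (j : FreeGroup Y →* G)
    (hj : Function.Injective j) (h : RT j.range) : RatSet (Set.univ : Set G) := by
  have h1 : RT (⊥ : Subgroup G) := by
    rw [← subS_empty j]
    exact RT.subS hj _ h
  obtain ⟨T, hT, _, hTt⟩ := h1
  have h2 : T = Set.univ := by
    ext g
    constructor
    · intro _; trivial
    · intro _
      obtain ⟨t, ht, h3, _⟩ := hTt.2 g trivial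
      rw [Subgroup.mem_bot] at h3
      rw [mul_inv_eq_one.1 h3]
      exact ht
  rw [← h2]
  exact hT

theorem RT_top (G : Type) [Group G] : RT (⊤ : Subgroup G) := by
  refine ⟨{1}, RatSet.singleton 1, rfl, fun _ _ => trivial, ?_⟩
  intro g _
  exact ⟨1, rfl, trivial, fun t ht _ => ht⟩

theorem ratSet_univ_OR {X : Type} [Finite X] (w : List (X × Bool))
    (hw : FreeGroup.IsCyclicallyReduced w) : RatSet (Set.univ : Set (OR w)) := by
  rcases w with _ | ⟨⟨x₀, s⟩, w⟩
  · -- free group
    let j : FreeGroup X →* OR ([] : List (X × Bool)) := PresentedGroup.mk _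
    have hj : Function.Injective j := by
      have h1 : ∀ r ∈ ({FreeGroup.mk []} : Set (FreeGroup X)), FreeGroup.lift FreeGroup.of r = 1 := by
        intro r hr
        rw [Set.mem_singleton_iff] at hr
        subst hr
        rw [← FreeGroup.one_eq_mk, map_one]
      let k : OR ([] : List (X × Bool)) →* FreeGroup X := PresentedGroup.toGroup h1
      have h2 : k.comp j = MonoidHom.id _ := by
        apply FreeGroup.ext_hom
        intro x
        exact PresentedGroup.toGroup.of h1
      exact Function.LeftInverse.injective (g := k) fun v => DFunLike.congr_fun h2 v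
    have hjr : j.range = ⊤ := MonoidHom.range_eq_top.2 (PresentedGroup.mk_surjective _)
    exact ratSet_univ_of_mg j hj (by rw [hjr]; exact RT_top _)
  · obtain ⟨h1, h2⟩ := main_induction _ X ((x₀, s) :: w) x₀ hw ⟨s, List.mem_cons_self⟩ rfl
    exact ratSet_univ_of_mg _ h1 h2

theorem normalClosure_conj {G : Type*} [Group G] (u v : G) :
    Subgroup.normalClosure ({u * v * u⁻¹} : Set G) = Subgroup.normalClosure {v} := by
  apply le_antisymm
  · apply Subgroup.normalClosure_le_normal
    intro x hx
    rw [Set.mem_singleton_iff] at hx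
    subst hx
    exact (Subgroup.normalClosure_normal (s := ({v} : Set G))).conj_mem v
      (Subgroup.subset_normalClosure rfl) u
  · apply Subgroup.normalClosure_le_normal
    intro x hx
    rw [Set.mem_singleton_iff] at hx
    subst hx
    have h1 := (Subgroup.normalClosure_normal (s := ({u * x * u⁻¹} : Set G))).conj_mem
      (u * x * u⁻¹) (Subgroup.subset_normalClosure rfl) u⁻¹
    have h2 : u⁻¹ * (u * x * u⁻¹) * u⁻¹⁻¹ = x := by group
    rw [h2] at h1
    exact h1

theorem final {X : Type} [Finite X] (r : FreeGroup X) :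
    ∃ (σ : Type) (_ : Fintype σ) (M : DFA (X × Bool) σ),
      Function.Bijective (fun w : {w : List (X × Bool) // w ∈ M.accepts} =>
        PresentedGroup.mk ({r} : Set (FreeGroup X)) (FreeGroup.mk w.1)) := by
  classical
  obtain ⟨w, hw⟩ : ∃ w, w = FreeGroup.reduceCyclically r.toWord := ⟨_, rfl⟩
  have hred : FreeGroup.IsCyclicallyReduced w := by
    rw [hw]
    exact FreeGroup.reduceCyclically.isCyclicallyReduced FreeGroup.isReduced_toWord
  have hr : r = FreeGroup.mk (FreeGroup.reduceCyclically.conjugator r.toWord) * FreeGroup.mk w *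
      (FreeGroup.mk (FreeGroup.reduceCyclically.conjugator r.toWord))⁻¹ := by
    have h1 := FreeGroup.reduceCyclically.conj_conjugator_reduceCyclically r.toWord
    rw [FreeGroup.inv_mk, FreeGroup.mul_mk, FreeGroup.mul_mk, hw, h1, FreeGroup.mk_toWord]
  have hker : ∀ u v : FreeGroup X, PresentedGroup.mk ({r} : Set (FreeGroup X)) u =
      PresentedGroup.mk ({r} : Set (FreeGroup X)) v ↔
      (PresentedGroup.mk ({FreeGroup.mk w} : Set (FreeGroup X)) u) =
        PresentedGroup.mk ({FreeGroup.mk w} : Set (FreeGroup X)) v := by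
    intro u v
    have h2 : Subgroup.normalClosure ({r} : Set (FreeGroup X)) =
        Subgroup.normalClosure {FreeGroup.mk w} := by
      conv_lhs => rw [hr]
      exact normalClosure_conj _ _
    have h3 : ∀ (R : Set (FreeGroup X)), PresentedGroup.mk R u = PresentedGroup.mk R v ↔
        u⁻¹ * v ∈ Subgroup.normalClosure R := fun R => QuotientGroup.eq
    rw [h3, h3, h2]
  obtain ⟨L, ⟨σ, hσ, M, hM⟩, hinj, himg⟩ :=
    (ratSet_univ_OR w hred).exists_over (gw w) (gw_surj w)
  refine ⟨σ, hσ, M, ?_, ?_⟩
  · rintro ⟨u, hu⟩ ⟨v, hv⟩ huv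
    rw [hM] at hu hv
    apply Subtype.ext
    apply hinj hu hv
    rw [ev_gw, ev_gw]
    exact (hker _ _).1 huv
  · intro x
    obtain ⟨v, rfl⟩ := PresentedGroup.mk_surjective _ x
    have h4 : (PresentedGroup.mk ({FreeGroup.mk w} : Set (FreeGroup X)) v) ∈ ev (gw w) '' L := by
      rw [himg]; trivial
    obtain ⟨u, hu, hu'⟩ := h4
    rw [ev_gw] at hu'
    exact ⟨⟨u, by rw [hM]; exact hu⟩, (hker _ _).2 hu'⟩

end Pool.Agent.OneRelCS
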