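import Pool.Agent.OneRelCS.Transversal

/-!
# Rational transversals in HNN extensions
-/

namespace Pool.Agent.OneRelCS

open HNNExtension HNNExtension.NormalWord

variable {H : Type*} [Group H] {A B : Subgroup H} {φ : A ≃* B}

set_option backward.isDefEq.respectTransparency false in
/-- `t^u a = φ_u(a) t^u`. -/
theorem tpow_mul_of (u : ℤˣ) (a : toSubgroup A B u) :
    (t ^ (u : ℤ) * of (a : H) : HNNExtension H A B φ) =
      of (toSubgroupEquiv φ u a : H) * t ^ (u : ℤ) := by
  rcases Int.units_eq_one_or u with rfl | rfl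
  · have := t_mul_of (φ := φ) a
    rw [Units.val_one, zpow_one]
    exact this
  · have := inv_t_mul_of (φ := φ) a
    rw [Units.val_neg, Units.val_one, zpow_neg, zpow_one]
    exact this

/-- the subgroup of the HNN extension generated by `N ≤ H` and the stable letter -/
def hat (φ : A ≃* B) (N : Subgroup H) : Subgroup (HNNExtension H A B φ) :=
  Subgroup.closure (of '' (N : Set H) ∪ {t})

theorem of_mem_hat {N : Subgroup H} {n : H} (hn : n ∈ N) : of n ∈ hat φ N :=
  Subgroup.subset_closure (Or.inl ⟨n, hn, rfl⟩)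

theorem t_mem_hat {N : Subgroup H} : t ∈ hat φ N :=
  Subgroup.subset_closure (Or.inr rfl)

/-- compatibility of `N` with the HNN extension -/
def Compat (φ : A ≃* B) (N : Subgroup H) : Prop :=
  ∀ (u : ℤˣ) (a : toSubgroup A B u), (a : H) ∈ N → (toSubgroupEquiv φ u a : H) ∈ N

theorem tpow_mul_reduced {N : Subgroup H} (hN : Compat φ N) (u : ℤˣ) (w : ReducedWord H A B)
    (hw : w.head ∈ N) (hw' : ∀ p ∈ w.toList, p.2 ∈ N) :
    ∃ w' : ReducedWord H A B, w'.head ∈ N ∧ (∀ p ∈ w'.toList, p.2 ∈ N) ∧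
      w'.prod φ = t ^ (u : ℤ) * w.prod φ := by
  by_cases hc : w.head ∈ toSubgroup A B u ∧ w.toList.head?.map Prod.fst = some (-u)
  · obtain ⟨h1, h2⟩ := hc
    rcases w with ⟨h, l, chain⟩
    cases l with
    | nil => simp at h2
    | cons p l =>
      simp only [List.head?_cons, Option.map_some, Option.some.injEq] at h2
      refine ⟨⟨(toSubgroupEquiv φ u ⟨h, h1⟩ : H) * p.2, l, (List.isChain_cons.1 chain).2⟩, ?_, ?_, ?_⟩
      · exact N.mul_mem (hN u ⟨h, h1⟩ hw) (hw' p List.mem_cons_self)
      · exact fun q hq => hw' q (List.mem_cons_of_mem _ hq)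
      · simp only [ReducedWord.prod, List.map_cons, List.prod_cons, map_mul, h2]
        have := tpow_mul_of (φ := φ) u ⟨h, h1⟩
        simp only at this
        rw [← mul_assoc (t ^ (u : ℤ)) (of h), this]
        simp [mul_assoc]
  · refine ⟨⟨1, (u, w.head) :: w.toList, ?_⟩, N.one_mem, ?_, ?_⟩
    · rw [List.isChain_cons]
      refine ⟨?_, w.chain⟩
      intro p hp h1
      by_contra hne
      apply hc
      refine ⟨h1, ?_⟩
      simp only [Option.mem_def] at hp
      simp only [hp, Option.map_some, Option.some.injEq]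
      exact (Int.units_ne_iff_eq_neg.1 (fun h => hne h.symm))
    · intro p hp
      rcases List.mem_cons.1 hp with rfl | hp
      · exact hw
      · exact hw' p hp
    · simp [ReducedWord.prod, mul_assoc]

theorem of_mul_reduced {N : Subgroup H} {n : H} (hn : n ∈ N) (w : ReducedWord H A B)
    (hw : w.head ∈ N) (hw' : ∀ p ∈ w.toList, p.2 ∈ N) :
    ∃ w' : ReducedWord H A B, w'.head ∈ N ∧ (∀ p ∈ w'.toList, p.2 ∈ N) ∧
      w'.prod φ = of n * w.prod φ :=
  ⟨⟨n * w.head, w.toList, w.chain⟩, N.mul_mem hn hw, hw', by simp [ReducedWord.prod, mul_assoc]⟩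

theorem exists_reduced_of_mem_hat {N : Subgroup H} (hN : Compat φ N) {x : HNNExtension H A B φ}
    (hx : x ∈ hat φ N) : ∃ w : ReducedWord H A B, w.head ∈ N ∧ (∀ p ∈ w.toList, p.2 ∈ N) ∧
      w.prod φ = x := by
  unfold hat at hx
  induction hx using Subgroup.closure_induction_left with
  | one => exact ⟨ReducedWord.empty H A B, N.one_mem, by simp, by simp [ReducedWord.prod]⟩
  | mul_left x hx y hy ih =>
    obtain ⟨w, h1, h2, rfl⟩ := ih
    rcases hx with ⟨n, hn, rfl⟩ | hx
    · exact of_mul_reduced hn w h1 h2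
    · rw [Set.mem_singleton_iff] at hx
      subst hx
      simpa using tpow_mul_reduced hN 1 w h1 h2
  | inv_mul_cancel x hx y hy ih =>
    obtain ⟨w, h1, h2, rfl⟩ := ih
    rcases hx with ⟨n, hn, rfl⟩ | hx
    · rw [← map_inv]
      exact of_mul_reduced (N.inv_mem hn) w h1 h2
    · rw [Set.mem_singleton_iff] at hx
      subst hx
      simpa using tpow_mul_reduced hN (-1) w h1 h2

variable {d : TransversalPair H A B}

/-- the head of the word is not absorbed by its first stable letter -/
def Good (N : Subgroup H) (w : ReducedWord H A B) : Prop :=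
  ∀ u ∈ w.toList.head?.map Prod.fst, ¬ ∃ n ∈ N, ∃ b ∈ toSubgroup A B (-u), w.head = n * b

theorem exists_good {N : Subgroup H} (l : List (ℤˣ × H)) (w : NormalWord d) (hw : w.toList = l) :
    ∃ m ∈ hat φ N, ∃ w' : NormalWord d, Good N w'.toReducedWord ∧ w.prod φ = m * w'.prod φ := by
  induction l generalizing w with
  | nil =>
    refine ⟨1, one_mem _, w, ?_, by simp⟩
    intro u hu
    simp [hw] at hu
  | cons p l ih =>
    by_cases hg : Good N w.toReducedWord
    · exact ⟨1, one_mem _, w, hg, by simp⟩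
    · unfold Good at hg
      push Not at hg
      obtain ⟨u, hu, n, hn, b, hb, hnb⟩ := hg
      rw [hw] at hu
      simp only [List.head?_cons, Option.map_some, Option.mem_def, Option.some.injEq] at hu
      subst hu
      have hchain := w.chain
      rw [hw] at hchain
      let w' : NormalWord d :=
        { head := (toSubgroupEquiv φ (-p.1) ⟨b, hb⟩ : H) * p.2
          toList := l
          chain := (List.isChain_cons.1 hchain).2
          mem_set := fun u g hug => w.mem_set u g (by rw [hw]; exact List.mem_cons_of_mem _ hug) }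
      obtain ⟨m, hm, w'', hw'', hprod⟩ := ih w' rfl
      refine ⟨of n * t ^ (p.1 : ℤ) * m, ?_, w'', hw'', ?_⟩
      · exact mul_mem (mul_mem (of_mem_hat hn) (Subgroup.zpow_mem _ t_mem_hat _)) hm
      · have h1 : w.prod φ = of (n * b) * (t ^ (p.1 : ℤ) * of p.2 *
            (l.map (fun x => t ^ (x.1 : ℤ) * of x.2)).prod) := by
          simp only [ReducedWord.prod, hw, List.map_cons, List.prod_cons, hnb]
        have h2 : w'.prod φ = of ((toSubgroupEquiv φ (-p.1) ⟨b, hb⟩ : H)) * (of p.2 *
            (l.map (fun x => t ^ (x.1 : ℤ) * of x.2)).prod) := by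
          simp only [ReducedWord.prod, w', map_mul, mul_assoc]
        have h3 : (of b : HNNExtension H A B φ) * t ^ (p.1 : ℤ) =
            t ^ (p.1 : ℤ) * of ((toSubgroupEquiv φ (-p.1) ⟨b, hb⟩ : H)) := by
          have := tpow_mul_of (φ := φ) (-p.1) ⟨b, hb⟩
          simp only [Units.val_neg, zpow_neg] at this
          rw [inv_mul_eq_iff_eq_mul] at this
          rw [this]
          simp [mul_assoc]
        rw [mul_assoc, ← hprod, h1, h2, map_mul]
        simp only [mul_assoc]
        rw [← mul_assoc (of b) (t ^ (p.1 : ℤ)), h3]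
        simp only [mul_assoc]

/-- multiplying a good word by an element of `hat N` not in `N` increases the `t`-length -/
theorem length_of_mul {N : Subgroup H} (w m : ReducedWord H A B) (hw : Good N w)
    (hm : m.toList ≠ []) (hmN : ∀ p ∈ m.toList, p.2 ∈ N) :
    ∃ w' : ReducedWord H A B, w'.prod φ = m.prod φ * w.prod φ ∧
      w'.toList.length = m.toList.length + w.toList.length := by
  obtain ⟨l, p, hl⟩ : ∃ l p, m.toList = l ++ [p] := by
    rcases List.eq_nil_or_concat m.toList with h | ⟨l, p, h⟩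
    · exact absurd h hm
    · exact ⟨l, p, by rw [h, List.concat_eq_append]⟩
  have hpN : p.2 ∈ N := hmN p (by simp [hl])
  have hchain := m.chain
  rw [hl, List.isChain_append] at hchain
  refine ⟨⟨m.head, l ++ (p.1, p.2 * w.head) :: w.toList, ?_⟩, ?_, ?_⟩
  · rw [List.isChain_append, List.isChain_cons]
    refine ⟨hchain.1, ⟨?_, w.chain⟩, ?_⟩
    · intro q hq h1
      simp only at h1 ⊢
      by_contra hne
      have hu : q.1 = -p.1 := Int.units_ne_iff_eq_neg.1 (fun h => hne h.symm)
      refine hw q.1 ?_ ⟨p.2⁻¹, N.inv_mem hpN, p.2 * w.head, ?_, by simp⟩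
      · simp only [Option.mem_def] at hq ⊢
        simp [hq]
      · rw [hu, neg_neg]; exact h1
    · intro x hx y hy h1
      simp only [List.head?_cons, Option.mem_def, Option.some.injEq] at hy
      subst hy
      simp only
      exact hchain.2.2 x hx p (by simp) h1
  · simp only [ReducedWord.prod, hl, List.map_append, List.map_cons, List.map_nil,
      List.prod_append, List.prod_cons, List.prod_nil, map_mul, mul_assoc, one_mul]
  · simp [hl]
    omega

theorem head_rel_of_good {N : Subgroup H} (hN : Compat φ N) {w w' : NormalWord d}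
    (hw : Good N w.toReducedWord) (hw' : Good N w'.toReducedWord)
    (h : w'.prod φ * (w.prod φ)⁻¹ ∈ hat φ N) :
    w'.toList = w.toList ∧ w'.head * w.head⁻¹ ∈ N := by
  obtain ⟨m, hm1, hm2, hm3⟩ := exists_reduced_of_mem_hat hN h
  by_cases hmn : m.toList = []
  · have hm4 : w'.prod φ = (m.head • w).prod φ := by
      have : w'.prod φ = m.prod φ * w.prod φ := by rw [hm3]; simp
      rw [this, prod_group_smul]
      simp [ReducedWord.prod, hmn]
    have hm5 : w' = m.head • w := prod_injective φ d hm4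
    rw [hm5]
    simp [hm1]
  · exfalso
    have h1 : w'.prod φ = m.prod φ * w.prod φ := by rw [hm3]; simp
    obtain ⟨v, hv1, hv2⟩ := length_of_mul w.toReducedWord m hw hmn hm2
    rw [← h1] at hv1
    have h2 := congrArg List.length (ReducedWord.map_fst_eq_and_of_prod_eq φ hv1).1
    simp only [List.length_map] at h2
    -- the other direction
    have h' : w.prod φ * (w'.prod φ)⁻¹ ∈ hat φ N := by
      have := (hat φ N).inv_mem h
      simpa using this
    obtain ⟨m', hm'1, hm'2, hm'3⟩ := exists_reduced_of_mem_hat hN h'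
    by_cases hmn' : m'.toList = []
    · have hm4 : w.prod φ = (m'.head • w').prod φ := by
        have : w.prod φ = m'.prod φ * w'.prod φ := by rw [hm'3]; simp
        rw [this, prod_group_smul]
        simp [ReducedWord.prod, hmn']
      have hm5 : w = m'.head • w' := prod_injective φ d hm4
      have hm6 : w.toList.length = w'.toList.length := by rw [hm5]; rfl
      have hpos : 0 < m.toList.length := List.length_pos_iff.2 hmn
      omega
    · have h3 : w.prod φ = m'.prod φ * w'.prod φ := by rw [hm'3]; simp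
      obtain ⟨v', hv'1, hv'2⟩ := length_of_mul w'.toReducedWord m' hw' hmn' hm'2
      rw [← h3] at hv'1
      have h4 := congrArg List.length (ReducedWord.map_fst_eq_and_of_prod_eq φ hv'1).1
      simp only [List.length_map] at h4
      have hpos : 0 < m.toList.length := List.length_pos_iff.2 hmn
      omega

/-- products of suffixes in normal form beginning with `t^u` -/
def suffixes (φ : A ≃* B) (d : TransversalPair H A B) (u : ℤˣ) : Set (HNNExtension H A B φ) :=
  (fun l : List (ℤˣ × H) => (l.map fun x => t ^ (x.1 : ℤ) * of x.2).prod) ''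
    {l | List.IsChain (fun a b => a.2 ∈ toSubgroup A B a.1 → a.1 = b.1) l ∧
      (∀ p ∈ l, p.2 ∈ d.set p.1) ∧ l.head?.map Prod.fst = some u}

theorem ratSet_suffixes (hd : ∀ u, RatSet (d.set u)) (hd1 : ∀ u, (1 : H) ∈ d.set u) (u : ℤˣ) :
    RatSet (suffixes φ d u) := by
  classical
  let L : Set (List (ℤˣ × Bool)) := {cs | (List.IsChain (fun a b => a.2 = true → a.1 = b.1) cs ∧
    (∀ a ∈ cs.head?, a.1 = u)) ∧ ∃ a ∈ cs, True}
  have hL : Language.IsRegular L :=
    isRegular_inter (isRegular_inter (isRegular_isChain _) (isRegular_head _)) (isRegular_exists _)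
  let cls : ℤˣ × H → ℤˣ × Bool := fun p => (p.1, decide (p.2 = 1))
  let val : ℤˣ × H → HNNExtension H A B φ := fun p => t ^ (p.1 : ℤ) * of p.2
  let S : Set (ℤˣ × H) := {p | p.2 ∈ d.set p.1}
  have hone : ∀ p ∈ S, p.2 ∈ toSubgroup A B p.1 ↔ p.2 = 1 := by
    intro p hp
    constructor
    · intro h
      have := (Subgroup.isComplement_iff_existsUnique.1 (d.compl p.1)) p.2
      obtain ⟨q, hq1, hq2⟩ := this
      have e1 := hq2 (⟨p.2, h⟩, ⟨1, hd1 _⟩) (by simp)
      have e2 := hq2 (⟨1, one_mem _⟩, ⟨p.2, hp⟩) (by simp)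
      have := e1.trans e2.symm
      simp only [Prod.mk.injEq, Subtype.mk.injEq] at this
      exact this.1
    · intro h; rw [h]; exact one_mem _
  have hset : {l : List (ℤˣ × H) | l.map cls ∈ L ∧ ∀ i ∈ l, i ∈ S} =
      {l | List.IsChain (fun a b => a.2 ∈ toSubgroup A B a.1 → a.1 = b.1) l ∧
      (∀ p ∈ l, p.2 ∈ d.set p.1) ∧ l.head?.map Prod.fst = some u} := by
    ext l
    simp only [Set.mem_ofPred_eq, L, cls, S]
    have hchain : (∀ i ∈ l, i.2 ∈ d.set i.1) →
        (List.IsChain (fun a b => a.2 = true → a.1 = b.1) (l.map fun p => (p.1, decide (p.2 = 1))) ↔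
        List.IsChain (fun a b => a.2 ∈ toSubgroup A B a.1 → a.1 = b.1) l) := by
      intro hl
      rw [List.isChain_map]
      apply List.IsChain.iff_of_mem_imp
      intro a b ha hb
      simp only [decide_eq_true_eq]
      rw [hone a (hl a ha)]
    constructor
    · rintro ⟨⟨⟨h1, h2⟩, h3⟩, h4⟩
      refine ⟨(hchain h4).1 h1, h4, ?_⟩
      cases l with
      | nil => simp at h3
      | cons p l => simpa using h2
    · rintro ⟨h1, h2, h3⟩
      refine ⟨⟨⟨(hchain h2).2 h1, ?_⟩, ?_⟩, h2⟩
      · cases l with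
        | nil => simp
        | cons p l => simpa using h3
      · cases l with
        | nil => simp at h3
        | cons p l => simp
  have hinj : Set.InjOn (fun l : List (ℤˣ × H) => (l.map val).prod)
      {l | l.map cls ∈ L ∧ ∀ i ∈ l, i ∈ S} := by
    rw [hset]
    rintro l ⟨h1, h2, h3⟩ l' ⟨h1', h2', h3'⟩ h
    let w : NormalWord d := { head := 1, toList := l, chain := h1, mem_set := fun u g hug => h2 _ hug }
    let w' : NormalWord d := { head := 1, toList := l', chain := h1', mem_set := fun u g hug => h2' _ hug }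
    have : w.prod φ = w'.prod φ := by
      simp only [ReducedWord.prod, w, w', map_one, one_mul]
      exact h
    have h5 : w = w' := prod_injective φ d this
    exact congrArg (fun w : NormalWord d => w.toList) h5
  have := RatSet.subst hL cls val S ?_ hinj
  · rw [hset] at this
    exact this
  · rintro ⟨v, b⟩
    cases b
    · have h1 : RatSet (d.set v \ {1}) := (hd v).diff_singleton 1
      have h2 : RatSet ((of : H →* HNNExtension H A B φ) '' (d.set v \ {1})) :=
        h1.map of (of_injective φ).injOn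
      have h3 : RatSet ({t ^ (v : ℤ)} : Set (HNNExtension H A B φ)) := RatSet.singleton _
      have h4 := h3.mul h2 (by
        rintro ⟨x, y⟩ ⟨hx, hy⟩ ⟨x', y'⟩ ⟨hx', hy'⟩ h
        simp only [Set.mem_singleton_iff] at hx hx'
        subst hx hx'
        simpa using h)
      convert h4 using 1
      ext x
      constructor
      · rintro ⟨⟨v', g⟩, ⟨hg1, hg2⟩, rfl⟩
        simp only [cls, Prod.mk.injEq, decide_eq_false_iff_not] at hg2
        obtain ⟨rfl, hg2⟩ := hg2
        exact ⟨(t ^ (v' : ℤ), of g), ⟨rfl, g, ⟨hg1, hg2⟩, rfl⟩, rfl⟩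
      · rintro ⟨⟨x, y⟩, ⟨hx, g, ⟨hg, hg1⟩, hy⟩, rfl⟩
        simp only [Set.mem_singleton_iff] at hx
        simp only at hy
        subst hx hy
        refine ⟨(v, g), ⟨hg, ?_⟩, rfl⟩
        simp only [cls, Prod.mk.injEq, true_and, decide_eq_false_iff_not]
        exact hg1
    · have h3 : RatSet ({t ^ (v : ℤ)} : Set (HNNExtension H A B φ)) := RatSet.singleton _
      convert h3 using 1
      ext x
      constructor
      · rintro ⟨⟨v', g⟩, ⟨hg1, hg2⟩, rfl⟩
        simp only [cls, Prod.mk.injEq, decide_eq_true_eq] at hg2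
        obtain ⟨rfl, rfl⟩ := hg2
        simp [val]
      · intro hx
        rw [Set.mem_singleton_iff] at hx
        subst hx
        exact ⟨(v, 1), ⟨hd1 v, by simp [cls]⟩, by simp [val]⟩


theorem exists_transversalPair (hA : RT A) (hB : RT B) :
    ∃ d : TransversalPair H A B, (∀ u, RatSet (d.set u)) ∧ ∀ u, (1 : H) ∈ d.set u := by
  obtain ⟨TA, hA1, hA2, hA3⟩ := hA
  obtain ⟨TB, hB1, hB2, hB3⟩ := hB
  refine ⟨{ set := fun u => if u = 1 then TA else TB, compl := ?_ }, ?_, ?_⟩
  · intro u
    rcases Int.units_eq_one_or u with rfl | rfl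
    · exact hA3.isComplement
    · exact hB3.isComplement
  · intro u
    rcases Int.units_eq_one_or u with rfl | rfl
    · exact hA1
    · exact hB1
  · intro u
    rcases Int.units_eq_one_or u with rfl | rfl
    · exact hA2
    · exact hB2

/-- **HNN lemma**: rational transversals for `hat N` in an HNN extension. -/
theorem RT.hnn {N : Subgroup H} (hN : Compat φ N) (hA : RT A) (hB : RT B) (hRN : RT N)
    (hT' : ∀ u : ℤˣ, ∃ T' : Set H, RatSet T' ∧
      Transv N {h | ¬ ∃ n ∈ N, ∃ b ∈ toSubgroup A B (-u), h = n * b} T') :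
    RT (hat φ N) := by
  obtain ⟨d, hd, hd1⟩ := exists_transversalPair hA hB
  obtain ⟨T₀, hT₀, hT₀1, hT₀t⟩ := hRN
  choose T' hT'r hT't using hT'
  have hofinj : Function.Injective (of : H → HNNExtension H A B φ) := of_injective φ
  -- the pieces
  let P : ℤˣ → Set (HNNExtension H A B φ) := fun u =>
    (fun p : HNNExtension H A B φ × HNNExtension H A B φ => p.1 * p.2) ''
      ((of '' (T' u)) ×ˢ suffixes φ d u)
  have hword : ∀ u, ∀ x ∈ suffixes φ d u, ∀ h : H, ∃ w : NormalWord d, w.prod φ = of h * x ∧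
      w.head = h ∧ w.toList.head?.map Prod.fst = some u ∧
      (w.toList.map fun x => t ^ (x.1 : ℤ) * of x.2).prod = x := by
    rintro u _ ⟨l, ⟨h1, h2, h3⟩, rfl⟩ h
    exact ⟨{ head := h, toList := l, chain := h1, mem_set := fun u g hug => h2 _ hug }, rfl, rfl,
      h3, rfl⟩
  have hPinj : ∀ u, Set.InjOn (fun p : HNNExtension H A B φ × HNNExtension H A B φ => p.1 * p.2)
      ((of '' (T' u)) ×ˢ suffixes φ d u) := by
    rintro u ⟨_, x⟩ ⟨⟨h, hh, rfl⟩, hx⟩ ⟨_, x'⟩ ⟨⟨h', hh', rfl⟩, hx'⟩ heq
    simp only at heq hx hx'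
    obtain ⟨w, hw1, hw2, hw3, hw4⟩ := hword u x hx h
    obtain ⟨w', hw'1, hw'2, hw'3, hw'4⟩ := hword u x' hx' h'
    have h1 : w.prod φ = w'.prod φ := by rw [hw1, hw'1, heq]
    have h2 : w = w' := prod_injective φ d h1
    subst h2
    rw [← hw2, ← hw'2, ← hw4, ← hw'4]
  have hPrat : ∀ u, RatSet (P u) := fun u =>
    ((hT'r u).map of hofinj.injOn).mul (ratSet_suffixes hd hd1 u) (hPinj u)
  have hPword : ∀ u, ∀ x ∈ P u, ∃ w : NormalWord d, w.prod φ = x ∧ w.head ∈ T' u ∧
      w.toList.head?.map Prod.fst = some u := by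
    rintro u _ ⟨⟨_, x⟩, ⟨⟨h, hh, rfl⟩, hx⟩, rfl⟩
    obtain ⟨w, hw1, hw2, hw3, hw4⟩ := hword u x hx h
    exact ⟨w, hw1, by rw [hw2]; exact hh, hw3⟩
  have hd1' : Disjoint (P 1) (P (-1)) := by
    rw [Set.disjoint_left]
    intro x hx hx'
    obtain ⟨w, hw1, -, hw3⟩ := hPword _ x hx
    obtain ⟨w', hw'1, -, hw'3⟩ := hPword _ x hx'
    have h2 : w = w' := prod_injective φ d (by dsimp only; rw [hw1, hw'1])
    subst h2
    rw [hw3] at hw'3
    exact absurd hw'3 (by decide)
  have h01 : RatSet ((of : H → HNNExtension H A B φ) '' T₀) := hT₀.map of hofinj.injOn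
  have hd2 : Disjoint ((of : H → HNNExtension H A B φ) '' T₀) (P 1 ∪ P (-1)) := by
    rw [Set.disjoint_left]
    rintro _ ⟨h, hh, rfl⟩ hx'
    have hw0 : ((ofGroup h : NormalWord d).prod φ) = (of h : HNNExtension H A B φ) := by
      simp [ReducedWord.prod]
    have : ∃ u, ∃ w : NormalWord d, w.prod φ = (of h : HNNExtension H A B φ) ∧
        w.toList.head?.map Prod.fst = some u := by
      rcases hx' with hx' | hx'
      · obtain ⟨w', hw'1, -, hw'3⟩ := hPword _ _ hx'
        exact ⟨_, w', hw'1, hw'3⟩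
      · obtain ⟨w', hw'1, -, hw'3⟩ := hPword _ _ hx'
        exact ⟨_, w', hw'1, hw'3⟩
    obtain ⟨u, w', hw'1, hw'3⟩ := this
    have h2 : (ofGroup h : NormalWord d) = w' := prod_injective φ d (by dsimp only; rw [hw0, hw'1])
    subst h2
    simp at hw'3
  refine ⟨_, h01.union ((hPrat 1).union (hPrat (-1)) hd1') hd2, Or.inl ⟨1, hT₀1, map_one _⟩, ?_⟩
  -- characterisation of the transversal
  have hchar : ∀ x, x ∈ (of : H → HNNExtension H A B φ) '' T₀ ∪ (P 1 ∪ P (-1)) ↔
      ∃ w : NormalWord d, w.prod φ = x ∧ (w.toList = [] → w.head ∈ T₀) ∧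
        ∀ u ∈ w.toList.head?.map Prod.fst, w.head ∈ T' u := by
    intro x
    constructor
    · rintro (⟨h, hh, rfl⟩ | hx)
      · exact ⟨ofGroup h, by simp [ReducedWord.prod], fun _ => hh, by simp⟩
      · have : ∃ u, x ∈ P u := by
          rcases hx with hx | hx
          · exact ⟨_, hx⟩
          · exact ⟨_, hx⟩
        obtain ⟨u, hx⟩ := this
        obtain ⟨w, hw1, hw2, hw3⟩ := hPword _ _ hx
        refine ⟨w, hw1, ?_, ?_⟩
        · intro h; rw [h] at hw3; simp at hw3
        · intro v hv
          rw [hw3] at hv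
          simp only [Option.mem_def, Option.some.injEq] at hv
          subst hv
          exact hw2
    · rintro ⟨w, rfl, h1, h2⟩
      by_cases hl : w.toList = []
      · left
        exact ⟨w.head, h1 hl, by simp [ReducedWord.prod, hl]⟩
      · right
        obtain ⟨p, l, hpl⟩ := List.exists_cons_of_ne_nil hl
        have h3 : w.head ∈ T' p.1 := h2 p.1 (by simp [hpl])
        have h4 : w.prod φ ∈ P p.1 := by
          refine ⟨(of w.head, (w.toList.map fun x => t ^ (x.1 : ℤ) * of x.2).prod),
            ⟨⟨_, h3, rfl⟩, ⟨w.toList, ⟨w.chain, fun p hp => w.mem_set p.1 p.2 hp, by simp [hpl]⟩,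
              rfl⟩⟩, rfl⟩
        rcases Int.units_eq_one_or p.1 with h5 | h5
        · left; rw [← h5]; exact h4
        · right; rw [← h5]; exact h4
  have hgood : ∀ w : NormalWord d, (∀ u ∈ w.toList.head?.map Prod.fst, w.head ∈ T' u) →
      Good N w.toReducedWord := fun w hw u hu => (hT't u).1 (hw u hu)
  refine ⟨fun _ _ => trivial, ?_⟩
  intro g _
  -- existence
  obtain ⟨m, hm, w, hw, hprod⟩ := exists_good (N := N) (φ := φ) _
    ((equiv φ d) g) rfl
  have hg : ((equiv φ d) g).prod φ = g := (equiv φ d).symm_apply_apply g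
  rw [hg] at hprod
  obtain ⟨n, hn, hw1, hw2⟩ : ∃ n ∈ N, (w.toList = [] → n * w.head ∈ T₀) ∧
      ∀ u ∈ w.toList.head?.map Prod.fst, n * w.head ∈ T' u := by
    by_cases hl : w.toList = []
    · obtain ⟨t₀, ht₀, h1, -⟩ := hT₀t.2 w.head trivial
      refine ⟨t₀ * w.head⁻¹, ?_, fun _ => by simpa using ht₀, by simp [hl]⟩
      have := N.inv_mem h1
      simpa using this
    · obtain ⟨p, l, hpl⟩ := List.exists_cons_of_ne_nil hl
      have hw' : w.head ∈ {h | ¬ ∃ n ∈ N, ∃ b ∈ toSubgroup A B (-p.1), h = n * b} :=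
        hw p.1 (by simp [hpl])
      obtain ⟨t₀, ht₀, h1, -⟩ := (hT't p.1).2 w.head hw'
      refine ⟨t₀ * w.head⁻¹, ?_, fun h => absurd h hl, ?_⟩
      · have := N.inv_mem h1
        simpa using this
      · intro u hu
        simp only [hpl, List.head?_cons, Option.map_some, Option.mem_def, Option.some.injEq] at hu
        subst hu
        simpa using ht₀
  have hmem : (n • w).prod φ ∈ (of : H → HNNExtension H A B φ) '' T₀ ∪ (P 1 ∪ P (-1)) :=
    (hchar _).2 ⟨n • w, rfl, hw1, hw2⟩
  have hgm : g * ((n • w).prod φ)⁻¹ ∈ hat φ N := by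
    rw [prod_group_smul, hprod]
    have := (hat φ N).mul_mem hm ((hat φ N).inv_mem (of_mem_hat (φ := φ) hn))
    simpa [mul_assoc] using this
  refine ⟨_, hmem, hgm, ?_⟩
  intro x hx hgx
  obtain ⟨v, rfl, hv1, hv2⟩ := (hchar x).1 hx
  have h1 : v.prod φ * ((n • w).prod φ)⁻¹ ∈ hat φ N := by
    have := (hat φ N).mul_mem ((hat φ N).inv_mem hgx) hgm
    simpa [mul_assoc] using this
  obtain ⟨h2, h3⟩ := head_rel_of_good hN (hgood (n • w) hw2) (hgood v hv2) h1
  have h4 : v.head = (n • w).head := by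
    by_cases hl : w.toList = []
    · have hl' : (n • w).toList = [] := hl
      exact hT₀t.eq_of_mul_mem (hv1 (by rw [h2, hl'])) (hw1 hl) h3
    · obtain ⟨p, l, hpl⟩ := List.exists_cons_of_ne_nil hl
      have hl' : (n • w).toList = p :: l := hpl
      exact (hT't p.1).eq_of_mul_mem (hv2 p.1 (by simp [h2, hl'])) (hw2 p.1 (by simp [hpl])) h3
  have h5 : v = n • w := NormalWord.ext h4 h2
  rw [h5]

end Pool.Agent.OneRelCS
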