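import Pool.Agent.OneRelCS.Rewrite

/-!
# The isomorphism between `OR w * ⟨t⟩` and the HNN extension
-/

namespace Pool.Agent.OneRelCS

theorem lift_map_mk {X K : Type*} [Group K] {P : X → Prop} (G : X → K)
    (l : List ({x // P x} × Bool)) :
    FreeGroup.lift G (FreeGroup.mk (l.map fun p => (p.1.1, p.2))) =
      FreeGroup.lift (fun s : {x // P x} => G s.1) (FreeGroup.mk l) := by
  induction l with
  | nil => rw [List.map_nil, lift_mk_nil, lift_mk_nil]
  | cons p l ih => rw [List.map_cons, lift_mk_cons, lift_mk_cons, ih]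

theorem lift_of_relator {X : Type} {K : Type*} [Group K] (w : List (X × Bool)) (f : OR w →* K) :
    FreeGroup.lift (fun x => f (PresentedGroup.of x)) (FreeGroup.mk w) = 1 := by
  have h1 : FreeGroup.lift (fun x => f (PresentedGroup.of x)) =
      f.comp (PresentedGroup.mk ({FreeGroup.mk w} : Set (FreeGroup X))) := by
    apply FreeGroup.ext_hom
    intro x
    simp [PresentedGroup.of]
  rw [h1, MonoidHom.comp_apply, PresentedGroup.one_of_mem (Set.mem_singleton _), map_one]

variable {X : Type} {φ : X → ℤ} {a b : X → ℤ} {l : List (LS a b × Bool)} {w : List (X × Bool)}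
variable (hA : Function.Injective (fA l)) (hB : Function.Injective (fB l))
variable (hab : ∀ x, a x ≤ b x)

/-- the image of the letter `x` in the HNN extension -/
noncomputable def gx (φ : X → ℤ) (x : X) : EE hA hB :=
  HNNExtension.t ^ (- a x) * HNNExtension.of (gs l ⟨(x, a x), le_rfl, hab x⟩) *
    HNNExtension.t ^ (a x + φ x)

theorem of_gs' (φ : X → ℤ) (s : LS a b) : (HNNExtension.of (gs l s) : EE hA hB) =
    HNNExtension.t ^ s.1.2 * gx hA hB hab φ s.1.1 * (HNNExtension.t ^ (s.1.2 + φ s.1.1))⁻¹ := by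
  obtain ⟨⟨x, n⟩, h1, h2⟩ := s
  simp only at h1 h2
  obtain ⟨k, hk⟩ := Int.eq_ofNat_of_zero_le (sub_nonneg.2 h1)
  have hn : n = a x + k := by omega
  subst hn
  rw [of_gs hA hB x k h2]
  simp only [gx]
  group

theorem lift_gx (hl : l.map (fun p => (p.1.1, p.2)) = lvl φ 0 w) (htot : tot φ w = 0) :
    FreeGroup.lift (gx hA hB hab φ) (FreeGroup.mk w) = 1 := by
  have h1 := lift_lvl φ (HNNExtension.t : EE hA hB) (gx hA hB hab φ) 0 w
  rw [← hl, lift_map_mk, htot] at h1
  simp only [zpow_zero, one_mul, add_zero, inv_one, mul_one] at h1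
  rw [← h1]
  have h2 : (fun s : LS a b => (HNNExtension.t : EE hA hB) ^ s.1.2 * gx hA hB hab φ s.1.1 *
      (HNNExtension.t ^ (s.1.2 + φ s.1.1))⁻¹) = fun s => HNNExtension.of (PresentedGroup.of s) := by
    funext s
    rw [← of_gs' hA hB hab φ s]
    rfl
  rw [h2]
  exact lift_of_relator l (HNNExtension.of : OR l →* EE hA hB)

/-- the map from the one-relator group to the HNN extension -/
noncomputable def Phi (hl : l.map (fun p => (p.1.1, p.2)) = lvl φ 0 w) (htot : tot φ w = 0) :
    OR w →* EE hA hB :=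
  PresentedGroup.toGroup (f := gx hA hB hab φ) (by
    intro r hr
    rw [Set.mem_singleton_iff] at hr
    subst hr
    exact lift_gx hA hB hab hl htot)

theorem Phi_of (hl : l.map (fun p => (p.1.1, p.2)) = lvl φ 0 w) (htot : tot φ w = 0) (x : X) :
    Phi hA hB hab hl htot (PresentedGroup.of x) = gx hA hB hab φ x :=
  PresentedGroup.toGroup.of _

/-- the value of the letters in `OR w * ⟨t⟩` -/
noncomputable def ys (φ : X → ℤ) (w : List (X × Bool)) (s : LS a b) : FP (OR w) :=
  HNNExtension.t ^ s.1.2 * HNNExtension.of (PresentedGroup.of s.1.1) *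
    (HNNExtension.t ^ (s.1.2 + φ s.1.1))⁻¹

theorem lift_ys (hl : l.map (fun p => (p.1.1, p.2)) = lvl φ 0 w) (htot : tot φ w = 0) :
    FreeGroup.lift (ys (a := a) (b := b) φ w) (FreeGroup.mk l) = 1 := by
  have h1 := lift_lvl φ (HNNExtension.t : FP (OR w))
    (fun x => HNNExtension.of (PresentedGroup.of x)) 0 w
  rw [← hl, lift_map_mk, htot] at h1
  simp only [zpow_zero, one_mul, add_zero, inv_one, mul_one] at h1
  rw [lift_of_relator w (HNNExtension.of : OR w →* FP (OR w))] at h1
  exact h1

/-- the base group maps to `OR w * ⟨t⟩` -/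
noncomputable def Psi₀ (hl : l.map (fun p => (p.1.1, p.2)) = lvl φ 0 w) (htot : tot φ w = 0) :
    OR l →* FP (OR w) :=
  PresentedGroup.toGroup (f := ys (a := a) (b := b) φ w) (by
    intro r hr
    rw [Set.mem_singleton_iff] at hr
    subst hr
    exact lift_ys hl htot)

theorem Psi₀_gs (hl : l.map (fun p => (p.1.1, p.2)) = lvl φ 0 w) (htot : tot φ w = 0)
    (s : LS a b) : Psi₀ hl htot (gs l s) = ys φ w s :=
  PresentedGroup.toGroup.of _

/-- the HNN extension maps to `OR w * ⟨t⟩` -/
noncomputable def Psi (hl : l.map (fun p => (p.1.1, p.2)) = lvl φ 0 w) (htot : tot φ w = 0) :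
    EE hA hB →* FP (OR w) :=
  HNNExtension.lift (Psi₀ hl htot) HNNExtension.t (by
    rintro ⟨_, v, rfl⟩
    rw [psi_apply]
    have h1 : (MulAut.conj (HNNExtension.t : FP (OR w))).toMonoidHom.comp
        ((Psi₀ hl htot).comp (fA l)) =
        (Psi₀ hl htot).comp ((fB l).comp (FreeGroup.freeGroupCongr (sh a b)).toMonoidHom) := by
      apply FreeGroup.ext_hom
      intro s
      simp only [MonoidHom.comp_apply, MulEquiv.coe_toMonoidHom, MulAut.conj_apply, fA, fB,
        FreeGroup.lift_apply_of, Psi₀_gs, FreeGroup.freeGroupCongr_apply, FreeGroup.map.of]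
      simp only [ys, sh, Equiv.coe_fn_mk]
      group
    have h2 := DFunLike.congr_fun h1 v
    simp only [MonoidHom.comp_apply, MulEquiv.coe_toMonoidHom, MulAut.conj_apply] at h2
    rw [← h2]
    simp)

theorem Psi_of (hl : l.map (fun p => (p.1.1, p.2)) = lvl φ 0 w) (htot : tot φ w = 0)
    (g : OR l) : Psi hA hB hl htot (HNNExtension.of g) = Psi₀ hl htot g :=
  HNNExtension.lift_of _ _ _ _

theorem Psi_t (hl : l.map (fun p => (p.1.1, p.2)) = lvl φ 0 w) (htot : tot φ w = 0) :
    Psi hA hB hl htot HNNExtension.t = HNNExtension.t :=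
  HNNExtension.lift_t _ _ _

/-- the inverse map -/
noncomputable def Phi' (hl : l.map (fun p => (p.1.1, p.2)) = lvl φ 0 w) (htot : tot φ w = 0) :
    FP (OR w) →* EE hA hB :=
  HNNExtension.lift (Phi hA hB hab hl htot) HNNExtension.t (by
    rintro ⟨x, hx⟩
    rw [Subgroup.mem_bot] at hx
    subst hx
    simp)

theorem Phi'_of (hl : l.map (fun p => (p.1.1, p.2)) = lvl φ 0 w) (htot : tot φ w = 0)
    (g : OR w) : Phi' hA hB hab hl htot (HNNExtension.of g) = Phi hA hB hab hl htot g :=
  HNNExtension.lift_of _ _ _ _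

theorem Phi'_t (hl : l.map (fun p => (p.1.1, p.2)) = lvl φ 0 w) (htot : tot φ w = 0) :
    Phi' hA hB hab hl htot HNNExtension.t = HNNExtension.t :=
  HNNExtension.lift_t _ _ _

/-- the isomorphism -/
noncomputable def isoE (hl : l.map (fun p => (p.1.1, p.2)) = lvl φ 0 w) (htot : tot φ w = 0) :
    EE hA hB ≃* FP (OR w) :=
  MonoidHom.toMulEquiv (Psi hA hB hl htot) (Phi' hA hB hab hl htot)
    (by
      apply HNNExtension.hom_ext
      · apply PresentedGroup.ext
        intro s
        simp only [MonoidHom.comp_apply, MonoidHom.id_apply]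
        have h1 : (PresentedGroup.of s : OR l) = gs l s := rfl
        rw [h1, Psi_of, Psi₀_gs, of_gs' hA hB hab φ s]
        simp only [ys, map_mul, map_zpow, map_inv, Phi'_of, Phi'_t, Phi_of]
      · simp only [MonoidHom.comp_apply, MonoidHom.id_apply, Psi_t, Phi'_t])
    (by
      apply HNNExtension.hom_ext
      · apply PresentedGroup.ext
        intro x
        simp only [MonoidHom.comp_apply, MonoidHom.id_apply]
        rw [Phi'_of, Phi_of]
        simp only [gx, map_mul, map_zpow, Psi_of, Psi_t, Psi₀_gs, ys]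
        simp [zpow_neg, mul_assoc]
      · simp only [MonoidHom.comp_apply, MonoidHom.id_apply, Psi_t, Phi'_t])

end Pool.Agent.OneRelCS
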