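import Pool.Agent.OneRelCS.Base2
import Pool.Agent.OneRelCS.DichList

/-!
# The main induction
-/

namespace Pool.Agent.OneRelCS

open Classical in
/-- the number of letters of a word -/
noncomputable def nl {X : Type} (w : List (X × Bool)) : ℕ := (w.map Prod.fst).toFinset.card

theorem nl_le {X : Type} (w : List (X × Bool)) : nl w ≤ w.length := by
  classical
  unfold nl
  have := List.toFinset_card_le (w.map Prod.fst)
  simpa using this

theorem nl_lt {X Y : Type} (g : Y → X) (l : List (Y × Bool)) (q₁ q₂ : Y)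
    (h1 : ∃ s, (q₁, s) ∈ l) (h2 : ∃ s, (q₂, s) ∈ l) (hne : q₁ ≠ q₂) (hg : g q₁ = g q₂) :
    nl (l.map fun p => (g p.1, p.2)) < nl l := by
  classical
  unfold nl
  have himg : ((l.map fun p => (g p.1, p.2)).map Prod.fst).toFinset =
      (l.map Prod.fst).toFinset.image g := by
    ext y
    simp only [List.mem_toFinset, List.mem_map, Finset.mem_image]
    constructor
    · rintro ⟨_, ⟨q, hq, rfl⟩, rfl⟩
      exact ⟨q.1, ⟨q, hq, rfl⟩, rfl⟩
    · rintro ⟨_, ⟨p, hp, rfl⟩, rfl⟩
      exact ⟨_, ⟨p, hp, rfl⟩, rfl⟩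
  rw [himg]
  refine lt_of_le_of_ne Finset.card_image_le ?_
  intro hcard
  rw [Finset.card_image_iff] at hcard
  obtain ⟨s, hs⟩ := h1
  obtain ⟨s', hs'⟩ := h2
  apply hne
  refine hcard (x₁ := q₁) ?_ (x₂ := q₂) ?_ hg
  · simp only [Finset.mem_coe, List.mem_toFinset, List.mem_map]
    exact ⟨_, hs, rfl⟩
  · simp only [Finset.mem_coe, List.mem_toFinset, List.mem_map]
    exact ⟨_, hs', rfl⟩

theorem red_of_map {α β : Type} (g : α → β) (L : List (α × Bool))
    (h : FreeGroup.IsCyclicallyReduced (L.map fun p => (g p.1, p.2))) :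
    FreeGroup.IsCyclicallyReduced L := by
  obtain ⟨h1, h2⟩ := h
  constructor
  · unfold FreeGroup.IsReduced at h1 ⊢
    rw [List.isChain_map] at h1
    exact h1.imp fun a b hab he => hab (congrArg g he)
  · intro a ha b hb he
    refine h2 (g a.1, a.2) ?_ (g b.1, b.2) ?_ (congrArg g he)
    · rw [List.getLast?_map]
      rw [Option.mem_def] at ha ⊢
      rw [ha]; rfl
    · rw [List.head?_map]
      rw [Option.mem_def] at hb ⊢
      rw [hb]; rfl

/-- ranges of levels -/
theorem exists_range {X : Type} (φ : X → ℤ) (w : List (X × Bool)) : ∃ a b : X → ℤ,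
    (∀ x, a x ≤ b x) ∧ (∀ p ∈ lvl φ 0 w, a p.1.1 ≤ p.1.2 ∧ p.1.2 ≤ b p.1.1) ∧
    ∀ x, (∃ s, (x, s) ∈ w) → (∃ s, ((x, a x), s) ∈ lvl φ 0 w) ∧ ∃ s, ((x, b x), s) ∈ lvl φ 0 w := by
  classical
  have key : ∀ x : X, ∃ a b : ℤ, a ≤ b ∧ (∀ p ∈ lvl φ 0 w, p.1.1 = x → a ≤ p.1.2 ∧ p.1.2 ≤ b) ∧
      ((∃ s, (x, s) ∈ w) → (∃ s, ((x, a), s) ∈ lvl φ 0 w) ∧ ∃ s, ((x, b), s) ∈ lvl φ 0 w) := by
    intro x
    let F : Finset ℤ := ((lvl φ 0 w).filter (fun p => decide (p.1.1 = x))).toFinset.image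
      (fun p => p.1.2)
    have hF : ∀ n, n ∈ F ↔ ∃ s, ((x, n), s) ∈ lvl φ 0 w := by
      intro n
      simp only [F, Finset.mem_image, List.mem_toFinset, List.mem_filter, decide_eq_true_eq]
      constructor
      · rintro ⟨⟨⟨y, m⟩, s⟩, ⟨h1, h2⟩, h3⟩
        simp only at h2 h3
        subst h2 h3
        exact ⟨s, h1⟩
      · rintro ⟨s, h⟩
        exact ⟨((x, n), s), ⟨h, rfl⟩, rfl⟩
    by_cases hne : F.Nonempty
    · refine ⟨F.min' hne, F.max' hne, F.min'_le_max' hne, ?_, ?_⟩
      · rintro ⟨⟨y, m⟩, s⟩ hp hy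
        simp only at hy
        subst hy
        have : m ∈ F := (hF m).2 ⟨s, hp⟩
        exact ⟨F.min'_le _ this, F.le_max' _ this⟩
      · intro _
        exact ⟨(hF _).1 (F.min'_mem hne), (hF _).1 (F.max'_mem hne)⟩
    · refine ⟨0, 0, le_rfl, ?_, ?_⟩
      · rintro ⟨⟨y, m⟩, s⟩ hp hy
        simp only at hy
        subst hy
        exact absurd ⟨m, (hF m).2 ⟨s, hp⟩⟩ hne
      · rintro ⟨s, hs⟩
        exfalso
        rw [← lvl_map_fst φ 0 w, List.mem_map] at hs
        obtain ⟨⟨⟨y, m⟩, s'⟩, h1, h2⟩ := hs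
        simp only [Prod.mk.injEq] at h2
        obtain ⟨rfl, rfl⟩ := h2
        exact hne ⟨m, (hF m).2 ⟨_, h1⟩⟩
  choose a b h1 h2 h3 using key
  exact ⟨a, b, h1, fun p hp => h2 p.1.1 p hp rfl, h3⟩

theorem main_induction (N : ℕ) : ∀ (X : Type) [Finite X] (w : List (X × Bool)) (x₀ : X),
    FreeGroup.IsCyclicallyReduced w → (∃ s, (x₀, s) ∈ w) → w.length - nl w = N →
    Function.Injective (mg w x₀) ∧ RT (mg w x₀).range := by
  classical
  induction N using Nat.strong_induction_on with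
  | _ N ih =>
    intro X _ w x₀ hred hx₀ hN
    have hne : w ≠ [] := by
      rintro rfl
      obtain ⟨s, hs⟩ := hx₀
      simp at hs
    rcases dichotomy w hne hred with ⟨φ, htot, x, n, m, s, s', hnm, hs, hs'⟩ | ⟨c, n, hw, hnd⟩
    · obtain ⟨a, b, hab, hr, hends⟩ := exists_range φ w
      let l : List (LS a b × Bool) := (lvl φ 0 w).attach.map fun p => (⟨p.1.1, hr p.1 p.2⟩, p.1.2)
      have hl : l.map (fun p => (p.1.1, p.2)) = lvl φ 0 w := by
        simp only [l, List.map_map]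
        have : ((fun p : LS a b × Bool => (p.1.1, p.2)) ∘
            fun p : {p // p ∈ lvl φ 0 w} => ((⟨p.1.1, hr p.1 p.2⟩ : LS a b), p.1.2)) =
            Subtype.val := by
          funext p; rfl
        rw [this, List.attach_map_subtype_val]
      have hlw : l.map (fun p => (p.1.1.1, p.2)) = w := by
        conv_rhs => rw [← lvl_map_fst φ 0 w, ← hl, List.map_map]
        rfl
      have hlred : FreeGroup.IsCyclicallyReduced l := by
        apply red_of_map (fun s : LS a b => s.1.1)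
        rw [hlw]
        exact hred
      have hmem : ∀ (q : LS a b) (e : Bool), (q.1, e) ∈ lvl φ 0 w → (q, e) ∈ l := by
        intro q e hq
        rw [← hl, List.mem_map] at hq
        obtain ⟨⟨q', e'⟩, h1, h2⟩ := hq
        simp only [Prod.mk.injEq] at h2
        obtain ⟨h3, rfl⟩ := h2
        have : q' = q := Subtype.ext h3
        subst this
        exact h1
      have hlen : l.length = w.length := by
        have h1 := congrArg List.length hlw
        rw [List.length_map] at h1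
        exact h1
      have hnl : nl w < nl l := by
        have h1 := nl_lt (fun s : LS a b => s.1.1) l ⟨(x, n), hr _ hs⟩ ⟨(x, m), hr _ hs'⟩
          ⟨s, hmem _ _ hs⟩ ⟨s', hmem _ _ hs'⟩ (by
            intro h3
            exact hnm (congrArg (fun s : LS a b => s.1.2) h3)) rfl
        rw [hlw] at h1
        exact h1
      have hlt : l.length - nl l < N := by
        have h1 := nl_le l
        have h2 := nl_le w
        omega
      obtain ⟨⟨sa, hsa⟩, ⟨sb, hsb⟩⟩ := hends x₀ hx₀
      obtain ⟨hT, hTR⟩ := ih _ hlt (LS a b) l (top' hab x₀) hlred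
        ⟨sb, hmem (top' hab x₀) sb hsb⟩ rfl
      obtain ⟨hB, hBR⟩ := ih _ hlt (LS a b) l (bot' hab x₀) hlred
        ⟨sa, hmem (bot' hab x₀) sa hsa⟩ rfl
      exact ⟨step_inj hab x₀ hT hB hl htot, step_RT hab x₀ hT hB hl htot hTR hBR⟩
    · obtain ⟨ε, hε⟩ := hx₀
      have hn : n ≠ 0 := by
        rintro rfl
        apply hne
        rw [hw]; rfl
      have hc : (x₀, ε) ∈ c := by
        rw [hw, List.mem_flatten] at hε
        obtain ⟨c', h1, h2⟩ := hε
        rw [(List.mem_replicate.1 h1).2] at h2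
        exact h2
      obtain ⟨c₁, c₂, rfl⟩ := List.append_of_mem hc
      rw [List.map_append, List.map_cons, List.nodup_append] at hnd
      obtain ⟨h1, h2, h3⟩ := hnd
      rw [List.nodup_cons] at h2
      refine base_case n hn c₁ c₂ x₀ ε ?_ ?_ w hw
      · intro p hp he
        exact h3 p.1 (List.mem_map.2 ⟨p, hp, rfl⟩) x₀ (List.mem_cons_self) he
      · intro p hp he
        apply h2.1
        rw [List.mem_map]
        exact ⟨p, hp, he⟩

end Pool.Agent.OneRelCS
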