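import Pool.Agent.OneRelCS.RegLang

/-!
# Unambiguously rational subsets of groups
-/

namespace Pool.Agent.OneRelCS

open Language

variable {α β : Type} {G : Type*} [Group G]

/-- value in `G` of a word over the alphabet `α`, where the letter `a` stands for `f a` -/
def ev (f : α → G) (w : List α) : G := (w.map f).prod

@[simp] theorem ev_nil (f : α → G) : ev f [] = 1 := rfl

@[simp] theorem ev_cons (f : α → G) (a : α) (w : List α) : ev f (a :: w) = f a * ev f w := by
  simp [ev]

@[simp] theorem ev_append (f : α → G) (v w : List α) : ev f (v ++ w) = ev f v * ev f w := by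
  simp [ev]

theorem ev_flatten (f : α → G) (ws : List (List α)) : ev f ws.flatten = (ws.map (ev f)).prod := by
  induction ws with
  | nil => simp
  | cons w ws ih => simp [ih]

theorem ev_flatMap (f : α → G) (s : β → List α) (w : List β) :
    ev f (w.flatMap s) = ev (fun b => ev f (s b)) w := by
  induction w with
  | nil => simp
  | cons w ws ih => simp [ih]

theorem map_ev {H : Type*} [Group H] (φ : G →* H) (f : α → G) (w : List α) :
    φ (ev f w) = ev (fun a => φ (f a)) w := by
  induction w with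
  | nil => simp
  | cons w ws ih => simp [ih]

/-- `R` is unambiguously rational: it is the bijective image of a regular language. -/
def RatSet (R : Set G) : Prop :=
  ∃ (α : Type) (_ : Finite α) (f : α → G) (L : Set (List α)), Language.IsRegular L ∧
    Set.InjOn (ev f) L ∧ ev f '' L = R

/-- the generic closure property: regular families of unambiguous products -/
theorem RatSet.subst {A : Type} [Finite A] {L : Set (List A)} (hL : Language.IsRegular L)
    {I : Type*} (cls : I → A) (val : I → G) (S : Set I)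
    (hrat : ∀ a, RatSet (val '' {i | i ∈ S ∧ cls i = a}))
    (hinj : Set.InjOn (fun l : List I => (l.map val).prod) {l | l.map cls ∈ L ∧ ∀ i ∈ l, i ∈ S}) :
    RatSet ((fun l : List I => (l.map val).prod) '' {l | l.map cls ∈ L ∧ ∀ i ∈ l, i ∈ S}) := by
  choose α hα f M hM hMinj hMim using hrat
  let F : (Σ a, α a) → G := fun x => f x.1 x.2
  let s : A → Language (Σ a, α a) := fun a => (fun w => w.flatMap fun x => [⟨a, x⟩]) '' (M a)
  have hs : ∀ a, (s a).IsRegular := fun a => isRegular_flatMap (hM a) _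
  have hsv : ∀ a, ∀ w : List (α a), ev F (w.flatMap fun x => [⟨a, x⟩]) = ev (f a) w := by
    intro a w
    rw [ev_flatMap]
    congr 1
    funext x
    simp [F]
  -- lists of pieces
  have hpiece : ∀ a, ∀ v ∈ s a, ∃ i ∈ S, cls i = a ∧ val i = ev F v := by
    rintro a _ ⟨w, hw, rfl⟩
    have : ev (f a) w ∈ val '' {i | i ∈ S ∧ cls i = a} := by
      rw [← hMim a]; exact ⟨w, hw, rfl⟩
    obtain ⟨i, ⟨hi1, hi2⟩, hi3⟩ := this
    exact ⟨i, hi1, hi2, by simp only [hsv]; exact hi3⟩
  have hsinj : ∀ a, Set.InjOn (ev F) (s a : Set (List (Σ a, α a))) := by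
    rintro a _ ⟨w, hw, rfl⟩ _ ⟨w', hw', rfl⟩ h
    simp only [hsv] at h
    have := hMinj a hw hw' h
    rw [this]
  have hlist : ∀ ps : List (A × List (Σ a, α a)), (∀ p ∈ ps, p.2 ∈ s p.1) →
      ∃ l : List I, (∀ i ∈ l, i ∈ S) ∧ l.map cls = ps.map Prod.fst ∧
        l.map val = ps.map (fun p => ev F p.2) := by
    intro ps
    induction ps with
    | nil => intro _; exact ⟨[], by simp, rfl, rfl⟩
    | cons p ps ih =>
      intro h
      obtain ⟨l, h1, h2, h3⟩ := ih fun p hp => h p (List.mem_cons_of_mem _ hp)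
      obtain ⟨i, hi1, hi2, hi3⟩ := hpiece p.1 p.2 (h p List.mem_cons_self)
      refine ⟨i :: l, ?_, by simp [hi2, h2], by simp [hi3, h3]⟩
      intro j hj
      rcases List.mem_cons.1 hj with rfl | hj
      · exact hi1
      · exact h1 j hj
  have hlist2 : ∀ l : List I, (∀ i ∈ l, i ∈ S) → ∃ ps : List (A × List (Σ a, α a)),
      (∀ p ∈ ps, p.2 ∈ s p.1) ∧ l.map cls = ps.map Prod.fst ∧
        l.map val = ps.map (fun p => ev F p.2) := by
    intro l
    induction l with
    | nil => intro _; exact ⟨[], by simp, rfl, rfl⟩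
    | cons i l ih =>
      intro h
      obtain ⟨ps, h1, h2, h3⟩ := ih fun j hj => h j (List.mem_cons_of_mem _ hj)
      have hi : val i ∈ val '' {j | j ∈ S ∧ cls j = cls i} :=
        ⟨i, ⟨h i List.mem_cons_self, rfl⟩, rfl⟩
      rw [← hMim] at hi
      obtain ⟨w, hw, hwi⟩ := hi
      refine ⟨(cls i, w.flatMap fun x => [⟨cls i, x⟩]) :: ps, ?_, by simp [h2], ?_⟩
      · intro p hp
        rcases List.mem_cons.1 hp with rfl | hp
        · exact ⟨w, hw, rfl⟩
        · exact h1 p hp
      · simp only [List.map_cons, hsv, hwi, h3]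
  have hval : ∀ ps : List (A × List (Σ a, α a)),
      ev F (ps.map Prod.snd).flatten = (ps.map (fun p => ev F p.2)).prod := by
    intro ps
    rw [ev_flatten, List.map_map]
    rfl
  refine ⟨Σ a, α a, inferInstance, F, OneRelCS.subst L s, isRegular_subst hL hs, ?_, ?_⟩
  · rintro _ ⟨ps, hps, hps', rfl⟩ _ ⟨qs, hqs, hqs', rfl⟩ h
    obtain ⟨l, hl1, hl2, hl3⟩ := hlist ps hps'
    obtain ⟨l', hl'1, hl'2, hl'3⟩ := hlist qs hqs'
    rw [hval, hval, ← hl3, ← hl'3] at h
    have hll : l = l' := hinj (x₁ := l) (x₂ := l') ⟨by rw [hl2]; exact hps, hl1⟩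
      ⟨by rw [hl'2]; exact hqs, hl'1⟩ h
    subst hll
    have e1 : ps.map Prod.fst = qs.map Prod.fst := hl2.symm.trans hl'2
    have e2 : ps.map (fun p => ev F p.2) = qs.map (fun p => ev F p.2) := hl3.symm.trans hl'3
    have : ps = qs := by
      clear hl1 hl2 hl3 hl'1 hl'2 hl'3 h hps hqs
      induction ps generalizing qs with
      | nil => cases qs with
        | nil => rfl
        | cons q qs => simp at e1
      | cons p ps ih => cases qs with
        | nil => simp at e1
        | cons q qs =>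
          simp only [List.map_cons, List.cons.injEq] at e1 e2
          have h1 := hps' p List.mem_cons_self
          have h2 := hqs' q List.mem_cons_self
          have h3 : p = q := by
            obtain ⟨p1, p2⟩ := p
            obtain ⟨q1, q2⟩ := q
            obtain ⟨rfl, -⟩ := e1
            have h4 : p2 = q2 := hsinj p1 h1 h2 e2.1
            rw [h4]
          rw [h3, ih (fun p hp => hps' p (List.mem_cons_of_mem _ hp)) qs
            (fun q hq => hqs' q (List.mem_cons_of_mem _ hq)) e1.2 e2.2]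
    rw [this]
  · ext g
    constructor
    · rintro ⟨_, ⟨ps, hps, hps', rfl⟩, rfl⟩
      obtain ⟨l, hl1, hl2, hl3⟩ := hlist ps hps'
      refine ⟨l, ⟨by rw [hl2]; exact hps, hl1⟩, ?_⟩
      show (l.map val).prod = _
      rw [hval, hl3]
    · rintro ⟨l, ⟨hl1, hl2⟩, rfl⟩
      obtain ⟨ps, h1, h2, h3⟩ := hlist2 l hl2
      refine ⟨(ps.map Prod.snd).flatten, ⟨ps, by rw [← h2]; exact hl1, h1, rfl⟩, ?_⟩
      show _ = (l.map val).prod
      rw [hval, h3]

theorem RatSet.singleton (g : G) : RatSet ({g} : Set G) := by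
  refine ⟨Unit, inferInstance, fun _ => g, {[()]}, isRegular_singleton _, ?_, ?_⟩
  · rintro _ rfl _ rfl _
    rfl
  · ext x
    constructor
    · rintro ⟨_, rfl, rfl⟩; simp
    · rintro rfl; exact ⟨[()], rfl, by simp⟩

theorem RatSet.empty : RatSet (∅ : Set G) := by
  refine ⟨Unit, inferInstance, fun _ => 1, ∅, isRegular_empty, by simp, by simp⟩

theorem RatSet.map {H : Type*} [Group H] {R : Set G} (hR : RatSet R) (φ : G →* H)
    (hφ : Set.InjOn φ R) : RatSet (φ '' R) := by
  obtain ⟨α, hα, f, L, hL, hinj, rfl⟩ := hR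
  refine ⟨α, hα, fun a => φ (f a), L, hL, ?_, ?_⟩
  · intro v hv w hw h
    rw [← map_ev, ← map_ev] at h
    exact hinj hv hw (hφ ⟨v, hv, rfl⟩ ⟨w, hw, rfl⟩ h)
  · rw [Set.image_image]
    simp only [map_ev]

theorem RatSet.union {R S : Set G} (hR : RatSet R) (hS : RatSet S) (hd : Disjoint R S) :
    RatSet (R ∪ S) := by
  have := RatSet.subst (A := Bool) (L := ({[false], [true]} : Set (List Bool)))
    (isRegular_finite (by simp : Set.Finite ({[false], [true]} : Set (List Bool))))
    (I := Bool × G) Prod.fst Prod.snd {i | (i.1 = false ∧ i.2 ∈ R) ∨ (i.1 = true ∧ i.2 ∈ S)}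
    (by
      intro a
      cases a
      · convert hR using 1
        ext g
        simp
      · convert hS using 1
        ext g
        simp)
    (by
      rintro l ⟨hl1, hl2⟩ l' ⟨hl'1, hl'2⟩ h
      have hl1' : l.map Prod.fst = [false] ∨ l.map Prod.fst = [true] := hl1
      have hl'1' : l'.map Prod.fst = [false] ∨ l'.map Prod.fst = [true] := hl'1
      have hlen : ∃ p, l = [p] := by
        have : l.length = 1 := by
          rw [← List.length_map (f := Prod.fst)]
          rcases hl1' with h | h <;> rw [h] <;> rfl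
        exact List.length_eq_one_iff.1 this
      have hlen' : ∃ p, l' = [p] := by
        have : l'.length = 1 := by
          rw [← List.length_map (f := Prod.fst)]
          rcases hl'1' with h | h <;> rw [h] <;> rfl
        exact List.length_eq_one_iff.1 this
      obtain ⟨⟨a, g⟩, rfl⟩ := hlen
      obtain ⟨⟨a', g'⟩, rfl⟩ := hlen'
      have h1 := hl2 (a, g) (by simp)
      have h2 := hl'2 (a', g') (by simp)
      simp only [List.map_cons, List.map_nil, List.prod_cons, List.prod_nil, mul_one] at h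
      subst h
      simp only [Set.mem_ofPred_eq] at h1 h2
      rcases h1 with ⟨rfl, h1⟩ | ⟨rfl, h1⟩ <;> rcases h2 with ⟨rfl, h2⟩ | ⟨rfl, h2⟩
      · rfl
      · exact absurd h2 (Set.disjoint_left.1 hd h1)
      · exact absurd h1 (Set.disjoint_left.1 hd h2)
      · rfl)
  convert this using 1
  ext g
  constructor
  · rintro (hg | hg)
    · exact ⟨[(false, g)], ⟨by left; rfl, by simp [hg]⟩, by simp⟩
    · exact ⟨[(true, g)], ⟨by right; rfl, by simp [hg]⟩, by simp⟩
  · rintro ⟨l, ⟨hl1, hl2⟩, rfl⟩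
    have hl1' : l.map Prod.fst = [false] ∨ l.map Prod.fst = [true] := hl1
    have hlen : ∃ p, l = [p] := by
      have : l.length = 1 := by
        rw [← List.length_map (f := Prod.fst)]
        rcases hl1' with h | h <;> rw [h] <;> rfl
      exact List.length_eq_one_iff.1 this
    obtain ⟨⟨a, g⟩, rfl⟩ := hlen
    have h1 := hl2 (a, g) (by simp)
    simp only [Set.mem_ofPred_eq] at h1
    rcases h1 with ⟨rfl, h1⟩ | ⟨rfl, h1⟩
    · left; simpa using h1
    · right; simpa using h1

theorem RatSet.mul {R S : Set G} (hR : RatSet R) (hS : RatSet S)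
    (hinj : Set.InjOn (fun p : G × G => p.1 * p.2) (R ×ˢ S)) :
    RatSet ((fun p : G × G => p.1 * p.2) '' (R ×ˢ S)) := by
  have hform : ∀ l : List (Bool × G), l.map Prod.fst = [false, true] →
      ∃ g h, l = [(false, g), (true, h)] := by
    intro l hl
    match l, hl with
    | [(a, g), (b, h)], h' =>
      simp only [List.map_cons, List.map_nil, List.cons.injEq, and_true] at h'
      obtain ⟨rfl, rfl⟩ := h'
      exact ⟨g, h, rfl⟩
  have := RatSet.subst (A := Bool) (L := ({[false, true]} : Set (List Bool)))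
    (isRegular_singleton _)
    (I := Bool × G) Prod.fst Prod.snd {i | (i.1 = false ∧ i.2 ∈ R) ∨ (i.1 = true ∧ i.2 ∈ S)}
    (by
      intro a
      cases a
      · convert hR using 1
        ext g
        simp
      · convert hS using 1
        ext g
        simp)
    (by
      rintro l ⟨hl1, hl2⟩ l' ⟨hl'1, hl'2⟩ h
      obtain ⟨g₁, h₁, rfl⟩ := hform l hl1
      obtain ⟨g₂, h₂, rfl⟩ := hform l' hl'1
      have a1 := hl2 (false, g₁) (by simp)
      have a2 := hl2 (true, h₁) (by simp)
      have b1 := hl'2 (false, g₂) (by simp)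
      have b2 := hl'2 (true, h₂) (by simp)
      simp only [Set.mem_ofPred_eq, true_and, Bool.false_eq_true, false_and, or_false,
        Bool.true_eq_false, false_or] at a1 a2 b1 b2
      simp only [List.map_cons, List.map_nil, List.prod_cons, List.prod_nil, mul_one] at h
      have := hinj (x₁ := (g₁, h₁)) (x₂ := (g₂, h₂)) ⟨a1, a2⟩ ⟨b1, b2⟩ h
      simp only [Prod.mk.injEq] at this
      rw [this.1, this.2])
  convert this using 1
  ext g
  constructor
  · rintro ⟨⟨a, b⟩, ⟨ha, hb⟩, rfl⟩
    exact ⟨[(false, a), (true, b)], ⟨rfl, by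
      intro i hi
      simp only [List.mem_cons, List.not_mem_nil, or_false] at hi
      rcases hi with rfl | rfl
      · left; exact ⟨rfl, ha⟩
      · right; exact ⟨rfl, hb⟩⟩, by simp⟩
  · rintro ⟨l, ⟨hl1, hl2⟩, rfl⟩
    obtain ⟨g₁, h₁, rfl⟩ := hform l hl1
    have a1 := hl2 (false, g₁) (by simp)
    have a2 := hl2 (true, h₁) (by simp)
    simp only [Set.mem_ofPred_eq, true_and, Bool.false_eq_true, false_and, or_false,
        Bool.true_eq_false, false_or] at a1 a2
    exact ⟨(g₁, h₁), ⟨a1, a2⟩, by simp⟩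

theorem RatSet.diff_singleton {R : Set G} (hR : RatSet R) (g : G) : RatSet (R \ {g}) := by
  obtain ⟨α, hα, f, L, hL, hinj, rfl⟩ := hR
  by_cases hg : ∃ w ∈ L, ev f w = g
  · obtain ⟨w, hw, rfl⟩ := hg
    refine ⟨α, hα, f, {v | v ∈ L ∧ v ∉ ({w} : Set (List α))}, ?_, ?_, ?_⟩
    · exact isRegular_inter hL (isRegular_compl (isRegular_singleton w))
    · exact fun v hv v' hv' h => hinj hv.1 hv'.1 h
    · ext x
      constructor
      · rintro ⟨v, ⟨hv, hvw⟩, rfl⟩
        exact ⟨⟨v, hv, rfl⟩, fun h => hvw (hinj hv hw h)⟩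
      · rintro ⟨⟨v, hv, rfl⟩, h⟩
        exact ⟨v, ⟨hv, fun h' => h (by rw [Set.mem_singleton_iff.1 h']; rfl)⟩, rfl⟩
  · refine ⟨α, hα, f, L, hL, hinj, ?_⟩
    ext x
    constructor
    · rintro ⟨v, hv, rfl⟩
      exact ⟨⟨v, hv, rfl⟩, fun h => hg ⟨v, hv, h⟩⟩
    · rintro ⟨h, -⟩; exact h

/-- change of alphabet -/
theorem RatSet.exists_over {R : Set G} (hR : RatSet R) (g : β → G) [Finite β]
    (hg : ∀ x : G, ∃ w : List β, ev g w = x) :
    ∃ L : Set (List β), Language.IsRegular L ∧ Set.InjOn (ev g) L ∧ ev g '' L = R := by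
  obtain ⟨α, hα, f, L, hL, hinj, rfl⟩ := hR
  choose s hs using fun a => hg (f a)
  have hev : ∀ w : List α, ev g (w.flatMap s) = ev f w := by
    intro w
    rw [ev_flatMap]
    simp only [hs]
  refine ⟨(fun w => w.flatMap s) '' L, isRegular_flatMap hL s, ?_, ?_⟩
  · rintro _ ⟨v, hv, rfl⟩ _ ⟨w, hw, rfl⟩ h
    simp only [hev] at h
    rw [hinj hv hw h]
  · rw [Set.image_image]
    simp only [hev]

end Pool.Agent.OneRelCS
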