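import Mathlib

/-!
# Closure properties of regular languages, via the Myhill-Nerode theorem
-/

namespace Pool.Agent.OneRelCS

open Language

variable {α β : Type}

/-- the language obtained from `L` by substituting for each letter `b` a word of `s b`. -/
def subst (L : Language β) (s : β → Language α) : Language α :=
  {w | ∃ ps : List (β × List α), ps.map Prod.fst ∈ L ∧ (∀ p ∈ ps, p.2 ∈ s p.1) ∧
    w = (ps.map Prod.snd).flatten}

theorem mem_subst {L : Language β} {s : β → Language α} {w : List α} :
    w ∈ subst L s ↔ ∃ ps : List (β × List α), ps.map Prod.fst ∈ L ∧ (∀ p ∈ ps, p.2 ∈ s p.1) ∧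
      w = (ps.map Prod.snd).flatten := Iff.rfl

theorem isRegular_of_factor {L : Language α} {Q : Type*} [Finite Q] (st : List α → Q)
    (h : ∀ x y, st x = st y → L.leftQuotient x = L.leftQuotient y) : L.IsRegular := by
  apply IsRegular.of_finite_range_leftQuotient
  classical
  have : Set.range L.leftQuotient ⊆ Set.range (fun q : Q =>
      if hq : ∃ x, st x = q then L.leftQuotient hq.choose else L) := by
    rintro _ ⟨x, rfl⟩
    refine ⟨st x, ?_⟩
    have hq : ∃ y, st y = st x := ⟨x, rfl⟩
    simp only [hq, dif_pos]
    exact h _ _ hq.choose_spec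
  exact (Set.finite_range _).subset this

theorem split_flatten {ps : List (β × List α)} {x y : List α}
    (h : x ++ y = (ps.map Prod.snd).flatten) :
    (∃ as bs, ps = as ++ bs ∧ x = (as.map Prod.snd).flatten ∧ y = (bs.map Prod.snd).flatten) ∨
    ∃ (as : List (β × List α)) (b : β) (z z' : List α) (bs : List (β × List α)),
      ps = as ++ (b, z ++ z') :: bs ∧ x = (as.map Prod.snd).flatten ++ z ∧
        y = z' ++ (bs.map Prod.snd).flatten := by
  induction ps generalizing x with
  | nil =>
    left
    simp only [List.map_nil, List.flatten_nil, List.append_eq_nil_iff] at h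
    exact ⟨[], [], rfl, by simp [h.1], by simp [h.2]⟩
  | cons p ps ih =>
    simp only [List.map_cons, List.flatten_cons] at h
    rw [List.append_eq_append_iff] at h
    rcases h with ⟨z', hz, hy⟩ | ⟨x', hx, hy⟩
    · right
      exact ⟨[], p.1, x, z', ps, by simp [← hz], by simp, hy⟩
    · rcases ih hy.symm with ⟨as, bs, h1, h2, h3⟩ | ⟨as, b, z, z', bs, h1, h2, h3⟩
      · left
        exact ⟨p :: as, bs, by simp [h1], by simp [hx, h2], h3⟩
      · right
        exact ⟨p :: as, b, z, z', bs, by simp [h1], by simp [hx, h2], h3⟩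

theorem isRegular_subst [Finite β] {L : Language β} {s : β → Language α} (hL : L.IsRegular)
    (hs : ∀ b, (s b).IsRegular) : (subst L s).IsRegular := by
  apply IsRegular.of_finite_range_leftQuotient
  have hQL := hL.finite_range_leftQuotient
  have hQs : (⋃ b, Set.range (s b).leftQuotient).Finite :=
    Set.finite_iUnion fun b => (hs b).finite_range_leftQuotient
  let F : Set (Language β) × Set (Language α × Language β) → Language α := fun D =>
    {y | (∃ Q ∈ D.1, y ∈ subst Q s) ∨ (∃ KQ ∈ D.2, y ∈ KQ.1 * subst KQ.2 s)}
  let D₁ : List α → Set (Language β) := fun x =>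
    {Q | ∃ ps : List (β × List α), (∀ p ∈ ps, p.2 ∈ s p.1) ∧ x = (ps.map Prod.snd).flatten ∧
      Q = L.leftQuotient (ps.map Prod.fst)}
  let D₂ : List α → Set (Language α × Language β) := fun x =>
    {KQ | ∃ (ps : List (β × List α)) (b : β) (z : List α), (∀ p ∈ ps, p.2 ∈ s p.1) ∧
      x = (ps.map Prod.snd).flatten ++ z ∧
      KQ = ((s b).leftQuotient z, L.leftQuotient (ps.map Prod.fst ++ [b]))}
  have key : ∀ x, (subst L s).leftQuotient x = F (D₁ x, D₂ x) := by
    intro x
    ext y
    show x ++ y ∈ subst L s ↔ _
    rw [mem_subst]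
    constructor
    · rintro ⟨ps, hps, hs', hxy⟩
      rcases split_flatten hxy with ⟨as, bs, h1, h2, h3⟩ | ⟨as, b, z, z', bs, h1, h2, h3⟩
      · left
        subst h1
        refine ⟨_, ⟨as, fun p hp => hs' p (List.mem_append_left _ hp), h2, rfl⟩, ?_⟩
        refine ⟨bs, ?_, fun p hp => hs' p (List.mem_append_right _ hp), h3⟩
        rw [mem_leftQuotient, ← List.map_append]
        exact hps
      · right
        subst h1
        refine ⟨_, ⟨as, b, z, fun p hp => hs' p (List.mem_append_left _ hp), h2, rfl⟩, ?_⟩
        rw [Language.mem_mul]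
        refine ⟨z', ?_, (bs.map Prod.snd).flatten, ⟨bs, ?_, fun p hp => hs' p (by simp [hp]), rfl⟩, h3.symm⟩
        · show z ++ z' ∈ s b
          exact hs' (b, z ++ z') (by simp)
        · show _ ++ _ ∈ L
          simpa using hps
    · rintro (⟨Q, ⟨as, has, h2, rfl⟩, ⟨bs, hbs, hbs', h3⟩⟩ | ⟨KQ, ⟨as, b, z, has, h2, rfl⟩, hy⟩)
      · refine ⟨as ++ bs, ?_, ?_, ?_⟩
        · rw [mem_leftQuotient] at hbs
          rw [List.map_append]; exact hbs
        · intro p hp
          rcases List.mem_append.1 hp with h | h
          · exact has p h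
          · exact hbs' p h
        · rw [List.map_append, List.flatten_append, ← h2, ← h3]
      · rw [Language.mem_mul] at hy
        obtain ⟨z', hz', y', ⟨bs, hbs, hbs', h3⟩, hy⟩ := hy
        refine ⟨as ++ (b, z ++ z') :: bs, ?_, ?_, ?_⟩
        · have : (as.map Prod.fst ++ [b]) ++ bs.map Prod.fst ∈ L := hbs
          simpa using this
        · intro p hp
          rcases List.mem_append.1 hp with h | h
          · exact has p h
          · rcases List.mem_cons.1 h with h | h
            · subst h; exact hz'
            · exact hbs' p h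
        · rw [← hy, h2, h3]
          simp
  have hsub : Set.range (subst L s).leftQuotient ⊆
      F '' ((Set.range L.leftQuotient).powerset ×ˢ
        ((⋃ b, Set.range (s b).leftQuotient) ×ˢ Set.range L.leftQuotient).powerset) := by
    rintro _ ⟨x, rfl⟩
    refine ⟨(D₁ x, D₂ x), ⟨?_, ?_⟩, (key x).symm⟩
    · rintro Q ⟨ps, _, _, rfl⟩
      exact ⟨_, rfl⟩
    · rintro KQ ⟨ps, b, z, _, _, rfl⟩
      exact ⟨Set.mem_iUnion.2 ⟨b, z, rfl⟩, ⟨_, rfl⟩⟩
  exact ((hQL.powerset.prod (hQs.prod hQL).powerset).image F).subset hsub

/-- singletons are regular -/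
theorem isRegular_singleton (w : List α) : ({w} : Language α).IsRegular := by
  apply IsRegular.of_finite_range_leftQuotient
  have : Set.range ({w} : Language α).leftQuotient ⊆
      insert (∅ : Set (List α)) ((fun i : ℕ => ({w.drop i} : Set (List α))) '' Set.Iic w.length) := by
    rintro _ ⟨x, rfl⟩
    by_cases h : x <+: w
    · right
      obtain ⟨y, rfl⟩ := h
      refine ⟨x.length, by simp, ?_⟩
      ext z
      show z ∈ ({List.drop x.length (x ++ y)} : Set (List α)) ↔ x ++ z = x ++ y
      simp
    · left
      ext z
      show x ++ z = w ↔ z ∈ (∅ : Set (List α))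
      simp only [Set.mem_empty_iff_false, iff_false]
      rintro rfl
      exact h (List.prefix_append _ _)
  exact (((Set.finite_Iic w.length).image _).insert _).subset this

theorem isRegular_empty : Language.IsRegular (∅ : Set (List α)) := by
  apply isRegular_of_factor (Q := Unit) (fun _ => ())
  intro x y _
  ext z
  exact Iff.rfl

theorem isRegular_univ : Language.IsRegular (Set.univ : Set (List α)) := by
  apply isRegular_of_factor (Q := Unit) (fun _ => ())
  intro x y _
  ext z
  exact Iff.rfl

/-- finite languages are regular -/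
theorem isRegular_finite {L : Language α} (h : Set.Finite (L : Set (List α))) : L.IsRegular := by
  refine Set.Finite.induction_on (motive := fun s _ => Language.IsRegular (s : Language α))
    (L : Set (List α)) h isRegular_empty ?_
  intro a s _ _ hs
  exact (isRegular_singleton a).add hs

theorem isRegular_mul {L M : Language α} (hL : L.IsRegular) (hM : M.IsRegular) :
    (L * M).IsRegular := by
  have := isRegular_subst (β := Bool) (L := {[false, true]}) (s := fun b => if b then M else L)
    (isRegular_singleton _) (by intro b; cases b <;> simpa)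
  convert this using 1
  ext w
  rw [Language.mem_mul, mem_subst]
  constructor
  · rintro ⟨x, hx, y, hy, rfl⟩
    exact ⟨[(false, x), (true, y)], rfl, by simp [hx, hy], by simp⟩
  · rintro ⟨ps, hps, h, rfl⟩
    have hps' : ps.map Prod.fst = [false, true] := hps
    match ps, hps' with
    | [(a, x), (b, y)], h' =>
      simp only [List.map_cons, List.map_nil, List.cons.injEq, and_true] at h'
      obtain ⟨rfl, rfl⟩ := h'
      refine ⟨x, ?_, y, ?_, by simp⟩
      · have := h (false, x) (by simp); simpa using this
      · have := h (true, y) (by simp); simpa using this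

/-- homomorphic images of regular languages are regular -/
theorem isRegular_flatMap [Finite β] {L : Language β} (hL : L.IsRegular) (f : β → List α) :
    Language.IsRegular ((fun w => w.flatMap f) '' (L : Set (List β)) : Language α) := by
  have := isRegular_subst hL (s := fun b => ({f b} : Language α)) (fun b => isRegular_singleton _)
  have e : ((fun w => w.flatMap f) '' (L : Set (List β)) : Set (List α)) =
      (subst L (fun b => ({f b} : Language α)) : Set (List α)) := ?_
  · rw [e]; exact this
  ext w
  show _ ↔ w ∈ subst L (fun b => ({f b} : Language α))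
  rw [mem_subst]
  constructor
  · rintro ⟨v, hv, rfl⟩
    refine ⟨v.map fun b => (b, f b), ?_, ?_, ?_⟩
    · have : (v.map fun b => (b, f b)).map Prod.fst = v := by simp [Function.comp_def]
      rw [this]
      exact hv
    · intro p hp
      obtain ⟨b, _, rfl⟩ := List.mem_map.1 hp
      rfl
    · simp [List.flatMap, Function.comp_def]
  · rintro ⟨ps, hps, h, rfl⟩
    refine ⟨ps.map Prod.fst, hps, ?_⟩
    simp only [List.flatMap, List.map_map]
    congr 1
    apply List.map_congr_left
    intro p hp
    have : p.2 = f p.1 := h p hp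
    simp [this]

theorem isRegular_inter {L M : Language α} (hL : L.IsRegular) (hM : M.IsRegular) :
    Language.IsRegular ({w | w ∈ L ∧ w ∈ M} : Set (List α)) := by
  exact hL.inf hM

theorem isRegular_union {L M : Language α} (hL : L.IsRegular) (hM : M.IsRegular) :
    Language.IsRegular ({w | w ∈ L ∨ w ∈ M} : Set (List α)) := by
  exact hL.add hM

theorem isRegular_compl {L : Language α} (hL : L.IsRegular) :
    Language.IsRegular ({w | w ∉ L} : Set (List α)) := by
  exact hL.compl

/-- words whose consecutive letters are related by `r` -/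
theorem isRegular_isChain [Finite α] (r : α → α → Prop) :
    Language.IsRegular ({w | List.IsChain r w} : Set (List α)) := by
  apply isRegular_of_factor (Q := Option α × Prop) (fun w => (w.getLast?, List.IsChain r w))
  intro x y hxy
  rw [Prod.mk.injEq] at hxy
  obtain ⟨h1, h2⟩ := hxy
  ext z
  show List.IsChain r (x ++ z) ↔ List.IsChain r (y ++ z)
  rw [List.isChain_append, List.isChain_append, h1]
  constructor
  · rintro ⟨a, b, c⟩; exact ⟨h2 ▸ a, b, c⟩
  · rintro ⟨a, b, c⟩; exact ⟨h2 ▸ a, b, c⟩

/-- words whose first letter (if any) satisfies `p` -/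
theorem isRegular_head [Finite α] (p : α → Prop) :
    Language.IsRegular ({w | ∀ a ∈ w.head?, p a} : Set (List α)) := by
  apply isRegular_of_factor (Q := Option α) (fun w => w.head?)
  intro x y hxy
  ext z
  show (∀ a ∈ (x ++ z).head?, p a) ↔ (∀ a ∈ (y ++ z).head?, p a)
  cases x with
  | nil => cases y with
    | nil => rfl
    | cons b y => simp at hxy
  | cons a x => cases y with
    | nil => simp at hxy
    | cons b y => simp at hxy; simp [hxy]

/-- words with a letter satisfying `p` -/
theorem isRegular_exists (p : α → Prop) :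
    Language.IsRegular ({w | ∃ a ∈ w, p a} : Set (List α)) := by
  apply isRegular_of_factor (Q := Prop) (fun w => ∃ a ∈ w, p a)
  intro x y hxy
  ext z
  show (∃ a ∈ x ++ z, p a) ↔ (∃ a ∈ y ++ z, p a)
  have hxy' : (∃ a ∈ x, p a) ↔ (∃ a ∈ y, p a) := by rw [hxy]
  simp only [List.mem_append]
  constructor
  · rintro ⟨a, ha | ha, hp⟩
    · obtain ⟨b, hb, hpb⟩ := hxy'.1 ⟨a, ha, hp⟩
      exact ⟨b, Or.inl hb, hpb⟩
    · exact ⟨a, Or.inr ha, hp⟩
  · rintro ⟨a, ha | ha, hp⟩
    · obtain ⟨b, hb, hpb⟩ := hxy'.2 ⟨a, ha, hp⟩
      exact ⟨b, Or.inl hb, hpb⟩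
    · exact ⟨a, Or.inr ha, hp⟩

end Pool.Agent.OneRelCS
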