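import Pool.Agent.OneRelCS.Iso

/-!
# The inductive step
-/

namespace Pool.Agent.OneRelCS

/-- intersections of subgroups generated by parts of a basis -/
theorem subS_inf {Y : Type} {G : Type*} [Group G] {j : FreeGroup Y →* G}
    (hj : Function.Injective j) {S S' : Set Y} {x : G} (h1 : x ∈ subS j S) (h2 : x ∈ subS j S') :
    x ∈ subS j (S ∩ S') := by
  classical
  obtain ⟨v, hv, rfl⟩ := h1
  obtain ⟨v', hv', h3⟩ := h2
  have h4 : v' = v := hj h3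
  subst h4
  refine ⟨v', ?_, rfl⟩
  have e1 := mem_closure_of_iff.1 hv
  have e2 := mem_closure_of_iff.1 hv'
  exact mem_closure_of_iff.2 fun a ha => ⟨e1 a ha, e2 a ha⟩

section

variable {X : Type} {a b : X → ℤ} (l : List (LS a b × Bool))

theorem subS_mg (s₀ : LS a b) (Q : Set (LS a b)) (hQ : s₀ ∉ Q) :
    subS (mg l s₀) {s | s.1 ∈ Q} = Subgroup.closure (gs l '' Q) := by
  unfold subS
  rw [MonoidHom.map_closure]
  congr 1
  ext x
  constructor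
  · rintro ⟨_, ⟨s, hs, rfl⟩, rfl⟩
    exact ⟨s.1, hs, by simp [mg, gs]⟩
  · rintro ⟨s, hs, rfl⟩
    have hne : s ≠ s₀ := fun h => hQ (h ▸ hs)
    exact ⟨FreeGroup.of ⟨s, hne⟩, ⟨⟨s, hne⟩, hs, rfl⟩, by simp [mg, gs]⟩

/-- the homomorphism from the free group on a set of letters -/
def fQ (Q : Set (LS a b)) : FreeGroup {s : LS a b // s ∈ Q} →* OR l :=
  FreeGroup.lift fun s => gs l s.1

theorem fQ_range (Q : Set (LS a b)) : (fQ l Q).range = Subgroup.closure (gs l '' Q) := by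
  unfold fQ
  rw [FreeGroup.range_lift_eq_closure]
  congr 1
  ext x
  constructor
  · rintro ⟨s, rfl⟩; exact ⟨s.1, s.2, rfl⟩
  · rintro ⟨s, hs, rfl⟩; exact ⟨⟨s, hs⟩, rfl⟩

theorem fQ_injective {s₀ : LS a b} (hj : Function.Injective (mg l s₀)) {Q : Set (LS a b)}
    (hQ : s₀ ∉ Q) : Function.Injective (fQ l Q) := by
  let i : {s : LS a b // s ∈ Q} → {s : LS a b // s ≠ s₀} := fun s => ⟨s.1, fun h => hQ (h ▸ s.2)⟩
  have hi : Function.Injective i := by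
    intro s s' h
    simp only [i, Subtype.mk.injEq] at h
    exact Subtype.ext h
  have h1 : fQ l Q = (mg l s₀).comp (FreeGroup.map i) := by
    apply FreeGroup.ext_hom
    intro s
    simp [fQ, mg, i, gs]
  rw [h1]
  exact hj.comp (FreeGroup.map_injective hi)

end

section

variable {X : Type} {φ : X → ℤ} {a b : X → ℤ} {l : List (LS a b × Bool)} {w : List (X × Bool)}
variable (hab : ∀ x, a x ≤ b x) (x₀ : X)

/-- top letter -/
def top' : LS a b := ⟨(x₀, b x₀), hab x₀, le_rfl⟩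

/-- bottom letter -/
def bot' : LS a b := ⟨(x₀, a x₀), le_rfl, hab x₀⟩

/-- letters over `Y = X \ {x₀}` -/
def PN (a b : X → ℤ) (x₀ : X) : Set (LS a b) := {s | s.1.1 ≠ x₀}

theorem top_not_PA : top' hab x₀ ∉ PA a b := fun h => lt_irrefl (b x₀) h

theorem bot_not_PB : bot' hab x₀ ∉ PB a b := fun h => lt_irrefl (a x₀) h

theorem top_not_PN : top' hab x₀ ∉ PN a b x₀ := fun h => h rfl

theorem bot_not_PN : bot' hab x₀ ∉ PN a b x₀ := fun h => h rfl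

variable (hT : Function.Injective (mg l (top' hab x₀)))
variable (hB' : Function.Injective (mg l (bot' hab x₀)))

include hT in
theorem hA_of : Function.Injective (fA l) := fQ_injective l hT (top_not_PA hab x₀)

include hB' in
theorem hB_of : Function.Injective (fB l) := fQ_injective l hB' (bot_not_PB hab x₀)

include hT in
theorem mem_PA_PN {x : OR l} (h1 : x ∈ (fA l).range) (h2 : x ∈ (fQ l (PN a b x₀)).range) :
    x ∈ Subgroup.closure (gs l '' (PA a b ∩ PN a b x₀)) := by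
  have e1 : (fA l).range = subS (mg l (top' hab x₀)) {s | s.1 ∈ PA a b} := by
    rw [subS_mg l _ _ (top_not_PA hab x₀)]; exact fQ_range l _
  have e2 : (fQ l (PN a b x₀)).range = subS (mg l (top' hab x₀)) {s | s.1 ∈ PN a b x₀} := by
    rw [subS_mg l _ _ (top_not_PN hab x₀)]; exact fQ_range l _
  rw [e1] at h1
  rw [e2] at h2
  have h3 := subS_inf hT h1 h2
  rw [← subS_mg l (top' hab x₀) _ (fun h => top_not_PA hab x₀ h.1)]
  exact h3

include hB' in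
theorem mem_PB_PN {x : OR l} (h1 : x ∈ (fB l).range) (h2 : x ∈ (fQ l (PN a b x₀)).range) :
    x ∈ Subgroup.closure (gs l '' (PB a b ∩ PN a b x₀)) := by
  have e1 : (fB l).range = subS (mg l (bot' hab x₀)) {s | s.1 ∈ PB a b} := by
    rw [subS_mg l _ _ (bot_not_PB hab x₀)]; exact fQ_range l _
  have e2 : (fQ l (PN a b x₀)).range = subS (mg l (bot' hab x₀)) {s | s.1 ∈ PN a b x₀} := by
    rw [subS_mg l _ _ (bot_not_PN hab x₀)]; exact fQ_range l _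
  rw [e1] at h1
  rw [e2] at h2
  have h3 := subS_inf hB' h1 h2
  rw [← subS_mg l (bot' hab x₀) _ (fun h => bot_not_PB hab x₀ h.1)]
  exact h3

/-- the projection of `N` to the free group on `Y` -/
noncomputable def rho₀ (hN : Function.Injective (fQ l (PN a b x₀))) :
    (fQ l (PN a b x₀)).range →* FreeGroup {y : X // y ≠ x₀} :=
  (FreeGroup.map fun s : {s : LS a b // s ∈ PN a b x₀} => (⟨s.1.1.1, s.2⟩ : {y : X // y ≠ x₀})).comp
    (MonoidHom.ofInjective hN).symm.toMonoidHom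

theorem gs_mem_N {s : LS a b} (hs : s ∈ PN a b x₀) : gs l s ∈ (fQ l (PN a b x₀)).range :=
  ⟨FreeGroup.of ⟨s, hs⟩, by simp [fQ]⟩

theorem gs_mem_A {s : LS a b} (hs : s ∈ PA a b) : gs l s ∈ (fA l).range :=
  ⟨FreeGroup.of ⟨s, hs⟩, by simp [fA]⟩

theorem gs_mem_B {s : LS a b} (hs : s ∈ PB a b) : gs l s ∈ (fB l).range :=
  ⟨FreeGroup.of ⟨s, hs⟩, by simp [fB]⟩

theorem rho₀_gs (hN : Function.Injective (fQ l (PN a b x₀))) {s : LS a b} (hs : s ∈ PN a b x₀) :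
    rho₀ x₀ hN ⟨gs l s, gs_mem_N x₀ hs⟩ = FreeGroup.of ⟨s.1.1, hs⟩ := by
  have h1 : (MonoidHom.ofInjective hN).symm ⟨gs l s, gs_mem_N x₀ hs⟩ = FreeGroup.of ⟨s, hs⟩ := by
    rw [MulEquiv.symm_apply_eq]
    apply Subtype.ext
    show gs l s = fQ l _ (FreeGroup.of ⟨s, hs⟩)
    simp [fQ]
  simp only [rho₀, MonoidHom.comp_apply, MulEquiv.coe_toMonoidHom, h1, FreeGroup.map.of]

theorem psi_gs (hA : Function.Injective (fA l)) (hB : Function.Injective (fB l)) {s : LS a b}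
    (hs : s ∈ PA a b) (h : gs l s ∈ (fA l).range) :
    (psi hA hB ⟨gs l s, h⟩ : OR l) = gs l (sh a b ⟨s, hs⟩).1 := by
  have h1 : gs l s = fA l (FreeGroup.of ⟨s, hs⟩) := by simp [fA]
  have h2 := psi_apply hA hB (FreeGroup.of ⟨s, hs⟩) ⟨_, rfl⟩
  have h3 : (⟨gs l s, h⟩ : (fA l).range) = ⟨fA l (FreeGroup.of ⟨s, hs⟩), ⟨_, rfl⟩⟩ :=
    Subtype.ext h1
  rw [h3, h2]
  simp [fB]

theorem psi_symm_gs (hA : Function.Injective (fA l)) (hB : Function.Injective (fB l)) {s : LS a b}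
    (hs : s ∈ PB a b) (h : gs l s ∈ (fB l).range) :
    ((psi hA hB).symm ⟨gs l s, h⟩ : OR l) = gs l ((sh a b).symm ⟨s, hs⟩).1 := by
  have h1 : gs l s = fB l (FreeGroup.of ⟨s, hs⟩) := by simp [fB]
  have h2 := psi_symm_apply hA hB (FreeGroup.of ⟨s, hs⟩) ⟨_, rfl⟩
  have h3 : (⟨gs l s, h⟩ : (fB l).range) = ⟨fB l (FreeGroup.of ⟨s, hs⟩), ⟨_, rfl⟩⟩ :=
    Subtype.ext h1
  rw [h3, h2]
  simp [fA]

/-- on `A ∩ N` the associating isomorphism maps to `N` and is invisible after projection -/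
theorem psi_N (hA : Function.Injective (fA l)) (hB : Function.Injective (fB l))
    (hN : Function.Injective (fQ l (PN a b x₀))) {x : OR l}
    (hx : x ∈ Subgroup.closure (gs l '' (PA a b ∩ PN a b x₀))) (h1 : x ∈ (fA l).range) :
    (psi hA hB ⟨x, h1⟩ : OR l) ∈ (fQ l (PN a b x₀)).range ∧
      ∀ (h2 : x ∈ (fQ l (PN a b x₀)).range) (h3 : (psi hA hB ⟨x, h1⟩ : OR l) ∈
        (fQ l (PN a b x₀)).range), rho₀ x₀ hN ⟨x, h2⟩ = rho₀ x₀ hN ⟨_, h3⟩ := by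
  have hle : Subgroup.closure (gs l '' (PA a b ∩ PN a b x₀)) ≤ (fA l).range := by
    rw [Subgroup.closure_le]
    rintro _ ⟨s, hs, rfl⟩
    exact gs_mem_A hs.1
  have hle' : Subgroup.closure (gs l '' (PA a b ∩ PN a b x₀)) ≤ (fQ l (PN a b x₀)).range := by
    rw [Subgroup.closure_le]
    rintro _ ⟨s, hs, rfl⟩
    exact gs_mem_N x₀ hs.2
  induction hx using Subgroup.closure_induction with
  | mem x hx =>
    obtain ⟨s, hs, rfl⟩ := hx
    have hs2 : (sh a b ⟨s, hs.1⟩).1 ∈ PN a b x₀ := hs.2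
    have e1 := psi_gs hA hB hs.1 h1
    refine ⟨by rw [e1]; exact gs_mem_N x₀ hs2, ?_⟩
    intro h2 h3
    have e2 : (⟨(psi hA hB ⟨gs l s, h1⟩ : OR l), h3⟩ : (fQ l (PN a b x₀)).range) =
        ⟨gs l (sh a b ⟨s, hs.1⟩).1, gs_mem_N x₀ hs2⟩ := Subtype.ext e1
    rw [e2, rho₀_gs x₀ hN hs.2, rho₀_gs x₀ hN hs2]
    rfl
  | one =>
    have e1 : psi hA hB ⟨1, h1⟩ = 1 := map_one _
    refine ⟨by rw [e1]; exact one_mem _, ?_⟩
    intro h2 h3
    congr 1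
    apply Subtype.ext
    simp only [e1]
    rfl
  | mul x y hx hy ihx ihy =>
    have e1 : psi hA hB ⟨x * y, h1⟩ = psi hA hB ⟨x, hle hx⟩ * psi hA hB ⟨y, hle hy⟩ := by
      rw [← map_mul]; rfl
    obtain ⟨a1, a2⟩ := ihx (hle hx)
    obtain ⟨b1, b2⟩ := ihy (hle hy)
    refine ⟨by rw [e1]; exact mul_mem a1 b1, ?_⟩
    intro h2 h3
    have e2 : (⟨x * y, h2⟩ : (fQ l (PN a b x₀)).range) = ⟨x, hle' hx⟩ * ⟨y, hle' hy⟩ := rfl
    have e4 : (psi hA hB ⟨x * y, h1⟩ : OR l) =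
        (psi hA hB ⟨x, hle hx⟩ : OR l) * (psi hA hB ⟨y, hle hy⟩ : OR l) := by
      rw [e1]; rfl
    have e3 : (⟨(psi hA hB ⟨x * y, h1⟩ : OR l), h3⟩ : (fQ l (PN a b x₀)).range) =
        ⟨_, a1⟩ * ⟨_, b1⟩ := Subtype.ext e4
    rw [e2, e3, map_mul, map_mul, a2 (hle' hx) a1, b2 (hle' hy) b1]
  | inv x hx ihx =>
    have e1 : psi hA hB ⟨x⁻¹, h1⟩ = (psi hA hB ⟨x, hle hx⟩)⁻¹ := by
      rw [← map_inv]; rfl
    obtain ⟨a1, a2⟩ := ihx (hle hx)
    refine ⟨by rw [e1]; exact inv_mem a1, ?_⟩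
    intro h2 h3
    have e2 : (⟨x⁻¹, h2⟩ : (fQ l (PN a b x₀)).range) = ⟨x, hle' hx⟩⁻¹ := rfl
    have e4 : (psi hA hB ⟨x⁻¹, h1⟩ : OR l) = (psi hA hB ⟨x, hle hx⟩ : OR l)⁻¹ := by
      rw [e1]; rfl
    have e3 : (⟨(psi hA hB ⟨x⁻¹, h1⟩ : OR l), h3⟩ : (fQ l (PN a b x₀)).range) =
        ⟨_, a1⟩⁻¹ := Subtype.ext e4
    rw [e2, e3, map_inv, map_inv, a2 (hle' hx) a1]

theorem psi_symm_N (hA : Function.Injective (fA l)) (hB : Function.Injective (fB l)) {x : OR l}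
    (hx : x ∈ Subgroup.closure (gs l '' (PB a b ∩ PN a b x₀))) (h1 : x ∈ (fB l).range) :
    ((psi hA hB).symm ⟨x, h1⟩ : OR l) ∈ (fQ l (PN a b x₀)).range := by
  have hle : Subgroup.closure (gs l '' (PB a b ∩ PN a b x₀)) ≤ (fB l).range := by
    rw [Subgroup.closure_le]
    rintro _ ⟨s, hs, rfl⟩
    exact gs_mem_B hs.1
  induction hx using Subgroup.closure_induction with
  | mem x hx =>
    obtain ⟨s, hs, rfl⟩ := hx
    have hs2 : ((sh a b).symm ⟨s, hs.1⟩).1 ∈ PN a b x₀ := hs.2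
    rw [psi_symm_gs hA hB hs.1 h1]
    exact gs_mem_N x₀ hs2
  | one =>
    have e1 : (psi hA hB).symm ⟨1, h1⟩ = 1 := map_one _
    rw [e1]; exact one_mem _
  | mul x y hx hy ihx ihy =>
    have e1 : (psi hA hB).symm ⟨x * y, h1⟩ =
        (psi hA hB).symm ⟨x, hle hx⟩ * (psi hA hB).symm ⟨y, hle hy⟩ := by
      rw [← map_mul]; rfl
    rw [e1]
    exact mul_mem (ihx (hle hx)) (ihy (hle hy))
  | inv x hx ihx =>
    have e1 : (psi hA hB).symm ⟨x⁻¹, h1⟩ = ((psi hA hB).symm ⟨x, hle hx⟩)⁻¹ := by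
      rw [← map_inv]; rfl
    rw [e1]
    exact inv_mem (ihx (hle hx))

theorem compat_N : Compat (psi (hA_of hab x₀ hT) (hB_of hab x₀ hB')) (fQ l (PN a b x₀)).range := by
  have hN := fQ_injective l hT (top_not_PN hab x₀)
  apply Compat.mk'
  · rintro ⟨x, hx⟩ hxN
    exact (psi_N x₀ _ _ hN (mem_PA_PN hab x₀ hT hx hxN) hx).1
  · rintro ⟨x, hx⟩ hxN
    exact psi_symm_N x₀ _ _ (mem_PB_PN hab x₀ hB' hx hxN) hx

end

end Pool.Agent.OneRelCS
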