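import Pool.Agent.OneRelCS.Step

/-!
# The inductive step, continued
-/

namespace Pool.Agent.OneRelCS

variable {X : Type} {φ : X → ℤ} {a b : X → ℤ} {l : List (LS a b × Bool)} {w : List (X × Bool)}
variable (hab : ∀ x, a x ≤ b x) (x₀ : X)

variable (hT : Function.Injective (mg l (top' hab x₀)))
variable (hB' : Function.Injective (mg l (bot' hab x₀)))

/-- the embedding of the free group in the HNN extension of `N` -/
noncomputable def iota (φ : X → ℤ) :
    FreeGroup {y : X // y ≠ x₀} →*
      HNNExtension (fQ l (PN a b x₀)).range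
        ((fA l).range.subgroupOf (fQ l (PN a b x₀)).range)
        ((fB l).range.subgroupOf (fQ l (PN a b x₀)).range)
        (restrictIso _ (compat_N hab x₀ hT hB')) :=
  FreeGroup.lift fun y => HNNExtension.t ^ (- a y.1) *
    HNNExtension.of ⟨gs l ⟨(y.1, a y.1), le_rfl, hab y.1⟩, gs_mem_N x₀ y.2⟩ *
    HNNExtension.t ^ (a y.1 + φ y.1)

/-- the projection -/
noncomputable def proj :
      HNNExtension (fQ l (PN a b x₀)).range
        ((fA l).range.subgroupOf (fQ l (PN a b x₀)).range)
        ((fB l).range.subgroupOf (fQ l (PN a b x₀)).range)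
        (restrictIso _ (compat_N hab x₀ hT hB')) →*
    FreeGroup {y : X // y ≠ x₀} :=
  HNNExtension.lift (rho₀ x₀ (fQ_injective l hT (top_not_PN hab x₀))) 1 (by
    rintro ⟨⟨x, hxN⟩, hxA⟩
    have hxA' : x ∈ (fA l).range := hxA
    have h1 := (psi_N x₀ (hA_of hab x₀ hT) (hB_of hab x₀ hB')
      (fQ_injective l hT (top_not_PN hab x₀)) (mem_PA_PN hab x₀ hT hxA' hxN) hxA')
    have h2 := h1.2 hxN h1.1
    rw [one_mul, mul_one]
    exact h2)

theorem proj_iota (v : FreeGroup {y : X // y ≠ x₀}) :
    proj hab x₀ hT hB' (iota hab x₀ hT hB' φ v) = v := by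
  have h : (proj hab x₀ hT hB').comp (iota hab x₀ hT hB' φ) = MonoidHom.id _ := by
    apply FreeGroup.ext_hom
    intro y
    simp only [MonoidHom.comp_apply, MonoidHom.id_apply, iota, FreeGroup.lift_apply_of, proj,
      map_mul, map_zpow, HNNExtension.lift_t, HNNExtension.lift_of]
    rw [rho₀_gs x₀ (fQ_injective l hT (top_not_PN hab x₀)) y.2]
    simp
  exact DFunLike.congr_fun h v

include hT hB' in
/-- **Freiheitssatz**, inductive step -/
theorem step_inj (hl : l.map (fun p => (p.1.1, p.2)) = lvl φ 0 w) (htot : tot φ w = 0) :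
    Function.Injective (mg w x₀) := by
  have h1 : (hnnIncl _ (compat_N hab x₀ hT hB')).comp (iota hab x₀ hT hB' φ) =
      (Phi (hA_of hab x₀ hT) (hB_of hab x₀ hB') hab hl htot).comp (mg w x₀) := by
    apply FreeGroup.ext_hom
    intro y
    simp only [MonoidHom.comp_apply, iota, FreeGroup.lift_apply_of, mg, Phi_of, hnnIncl,
      map_mul, map_zpow, HNNExtension.lift_t, HNNExtension.lift_of, gx, Subgroup.subtype_apply]
  have h2 : Function.Injective (iota hab x₀ hT hB' φ) :=
    Function.LeftInverse.injective (proj_iota hab x₀ hT hB')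
  have h3 := (hnnIncl_injective _ (compat_N hab x₀ hT hB')).comp h2
  have h4 : Function.Injective ((Phi (hA_of hab x₀ hT) (hB_of hab x₀ hB') hab hl htot).comp
      (mg w x₀)) := by
    rw [← h1]; exact h3
  intro u v huv
  apply h4
  simp only [MonoidHom.comp_apply, huv]

/-- values of the letters -/
def gw (w : List (X × Bool)) (p : X × Bool) : OR w :=
  cond p.2 (PresentedGroup.of p.1) (PresentedGroup.of p.1)⁻¹

theorem ev_gw (w L : List (X × Bool)) :
    ev (gw w) L = PresentedGroup.mk _ (FreeGroup.mk L) := by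
  induction L with
  | nil => rw [ev_nil, ← FreeGroup.one_eq_mk, map_one]
  | cons p L ih =>
    have h1 : (FreeGroup.mk (p :: L) : FreeGroup X) = FreeGroup.mk [p] * FreeGroup.mk L := by
      simp
    rw [ev_cons, ih, h1, map_mul]
    congr 1
    obtain ⟨x, b⟩ := p
    cases b
    · have h2 : (FreeGroup.mk [(x, false)] : FreeGroup X) = (FreeGroup.of x)⁻¹ := rfl
      rw [h2, map_inv]; rfl
    · rfl

theorem gw_surj (w : List (X × Bool)) (x : OR w) : ∃ L, ev (gw w) L = x := by
  obtain ⟨v, rfl⟩ := PresentedGroup.mk_surjective _ x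
  induction v using Quot.inductionOn with
  | _ L => exact ⟨L, ev_gw w L⟩

include hT hB' in
/-- rational transversals, inductive step -/
theorem step_RT [Finite X] (hl : l.map (fun p => (p.1.1, p.2)) = lvl φ 0 w) (htot : tot φ w = 0)
    (hTR : RT (mg l (top' hab x₀)).range) (hBR : RT (mg l (bot' hab x₀)).range) :
    RT (mg w x₀).range := by
  have eA : (fA l).range = subS (mg l (top' hab x₀)) {s | s.1 ∈ PA a b} := by
    rw [subS_mg l _ _ (top_not_PA hab x₀)]; exact fQ_range l _
  have eB : (fB l).range = subS (mg l (bot' hab x₀)) {s | s.1 ∈ PB a b} := by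
    rw [subS_mg l _ _ (bot_not_PB hab x₀)]; exact fQ_range l _
  have eA' : (fA l).range = (fQ l (PA a b)).range := rfl
  have eN : (fQ l (PN a b x₀)).range = subS (mg l (top' hab x₀)) {s | s.1 ∈ PN a b x₀} := by
    rw [subS_mg l _ _ (top_not_PN hab x₀)]; exact fQ_range l _
  have eN' : (fQ l (PN a b x₀)).range = subS (mg l (bot' hab x₀)) {s | s.1 ∈ PN a b x₀} := by
    rw [subS_mg l _ _ (bot_not_PN hab x₀)]; exact fQ_range l _
  have rA : RT (fA l).range := by rw [eA]; exact RT.subS hT _ hTR
  have rB : RT (fB l).range := by rw [eB]; exact RT.subS hB' _ hBR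
  have rN : RT (fQ l (PN a b x₀)).range := by rw [eN]; exact RT.subS hT _ hTR
  have hhat : RT (hat (psi (hA_of hab x₀ hT) (hB_of hab x₀ hB')) (fQ l (PN a b x₀)).range) := by
    refine RT.hnn (compat_N hab x₀ hT hB') rA rB rN ?_
    intro u
    rcases Int.units_eq_one_or u with rfl | rfl
    · have h1 : HNNExtension.toSubgroup (fA l).range (fB l).range (-1) = (fB l).range := rfl
      rw [h1, eB, eN']
      exact RT.subS_compl hB' _ _ hBR
    · have h1 : HNNExtension.toSubgroup (fA l).range (fB l).range (-(-1)) = (fA l).range := rfl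
      rw [h1, eA, eN]
      exact RT.subS_compl hT _ _ hTR
  have hmap := hhat.map_equiv (isoE (hA_of hab x₀ hT) (hB_of hab x₀ hB') hab hl htot)
  have hgs : ∀ s ∈ PN a b x₀, Psi₀ hl htot (gs l s) ∈
      hat (MulEquiv.refl (⊥ : Subgroup (OR w))) (mg w x₀).range := by
    intro s hs
    rw [Psi₀_gs]
    unfold ys
    refine mul_mem (mul_mem (zpow_mem t_mem_hat _) (of_mem_hat ?_)) (inv_mem (zpow_mem t_mem_hat _))
    exact ⟨FreeGroup.of ⟨s.1.1, hs⟩, by simp [mg]⟩
  have heq : (hat (psi (hA_of hab x₀ hT) (hB_of hab x₀ hB')) (fQ l (PN a b x₀)).range).map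
      (isoE (hA_of hab x₀ hT) (hB_of hab x₀ hB') hab hl htot).toMonoidHom =
      hat (MulEquiv.refl (⊥ : Subgroup (OR w))) (mg w x₀).range := by
    apply le_antisymm
    · rw [Subgroup.map_le_iff_le_comap]
      unfold hat
      rw [Subgroup.closure_le]
      rintro _ (⟨n, hn, rfl⟩ | rfl)
      · show Psi (hA_of hab x₀ hT) (hB_of hab x₀ hB') hl htot (HNNExtension.of n) ∈
          hat (MulEquiv.refl (⊥ : Subgroup (OR w))) (mg w x₀).range
        rw [Psi_of]
        have h2 : (fQ l (PN a b x₀)).range ≤ (hat (MulEquiv.refl (⊥ : Subgroup (OR w)))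
            (mg w x₀).range).comap (Psi₀ hl htot) := by
          rw [fQ_range, Subgroup.closure_le]
          rintro _ ⟨s, hs, rfl⟩
          exact hgs s hs
        exact h2 hn
      · show Psi (hA_of hab x₀ hT) (hB_of hab x₀ hB') hl htot HNNExtension.t ∈
          hat (MulEquiv.refl (⊥ : Subgroup (OR w))) (mg w x₀).range
        rw [Psi_t]
        exact t_mem_hat
    · have h4 : ∀ z : FP (OR w), Phi' (hA_of hab x₀ hT) (hB_of hab x₀ hB') hab hl htot z ∈
          hat (psi (hA_of hab x₀ hT) (hB_of hab x₀ hB')) (fQ l (PN a b x₀)).range →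
          z ∈ (hat (psi (hA_of hab x₀ hT) (hB_of hab x₀ hB')) (fQ l (PN a b x₀)).range).map
            (isoE (hA_of hab x₀ hT) (hB_of hab x₀ hB') hab hl htot).toMonoidHom := by
        intro z hz
        exact ⟨_, hz, (isoE (hA_of hab x₀ hT) (hB_of hab x₀ hB') hab hl htot).apply_symm_apply z⟩
      have h5 : hat (MulEquiv.refl (⊥ : Subgroup (OR w))) (mg w x₀).range ≤
          (hat (psi (hA_of hab x₀ hT) (hB_of hab x₀ hB')) (fQ l (PN a b x₀)).range).comap
          (Phi' (hA_of hab x₀ hT) (hB_of hab x₀ hB') hab hl htot) := by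
        unfold hat
        rw [Subgroup.closure_le]
        rintro _ (⟨_, ⟨v, rfl⟩, rfl⟩ | rfl)
        · show Phi' (hA_of hab x₀ hT) (hB_of hab x₀ hB') hab hl htot
            (HNNExtension.of (mg w x₀ v)) ∈
            hat (psi (hA_of hab x₀ hT) (hB_of hab x₀ hB')) (fQ l (PN a b x₀)).range
          rw [Phi'_of]
          have h6 : ∀ y : {y : X // y ≠ x₀},
              Phi (hA_of hab x₀ hT) (hB_of hab x₀ hB') hab hl htot (mg w x₀ (FreeGroup.of y)) ∈
              hat (psi (hA_of hab x₀ hT) (hB_of hab x₀ hB')) (fQ l (PN a b x₀)).range := by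
            intro y
            simp only [mg, FreeGroup.lift_apply_of, Phi_of, gx]
            refine mul_mem (mul_mem (zpow_mem t_mem_hat _) (of_mem_hat ?_))
              (zpow_mem t_mem_hat _)
            exact gs_mem_N x₀ y.2
          induction v using FreeGroup.induction_on with
          | C1 => rw [map_one, map_one]; exact one_mem _
          | of y => exact h6 y
          | inv_of y ih => rw [map_inv, map_inv]; exact inv_mem ih
          | mul u v hu hv => rw [map_mul, map_mul]; exact mul_mem hu hv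
        · show Phi' (hA_of hab x₀ hT) (hB_of hab x₀ hB') hab hl htot HNNExtension.t ∈
            hat (psi (hA_of hab x₀ hT) (hB_of hab x₀ hB')) (fQ l (PN a b x₀)).range
          rw [Phi'_t]
          exact t_mem_hat
      intro z hz
      exact h4 z (h5 hz)
  rw [heq] at hmap
  exact RT.descent (gw w) (gw_surj w) hmap

end Pool.Agent.OneRelCS
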