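import Pool.Agent.OneRelCS.RatSet

/-!
# Rational transversals
-/

namespace Pool.Agent.OneRelCS

open scoped Pointwise

variable {G : Type*} [Group G]

/-- `T` is a set of representatives of the cosets `N g` contained in the (left `N`-invariant)
set `D`. -/
def Transv (N : Subgroup G) (D T : Set G) : Prop :=
  T ⊆ D ∧ ∀ g ∈ D, ∃ t ∈ T, g * t⁻¹ ∈ N ∧ ∀ t' ∈ T, g * t'⁻¹ ∈ N → t' = t

/-- `N` has a rational transversal containing `1`. -/
def RT (N : Subgroup G) : Prop := ∃ T : Set G, RatSet T ∧ 1 ∈ T ∧ Transv N Set.univ T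

theorem Transv.eq_of_mem {N : Subgroup G} {D T : Set G} (h : Transv N D T) {g t t' : G}
    (ht : t ∈ T) (ht' : t' ∈ T) (h1 : g * t⁻¹ ∈ N) (h2 : g * t'⁻¹ ∈ N) : t = t' := by
  obtain ⟨s, hs, hs1, hs2⟩ := h.2 t (h.1 ht)
  have e1 : t = s := hs2 t ht (by simp [N.one_mem])
  have e2 : t' = s := hs2 t' ht' (by
    have := N.mul_mem (N.inv_mem h1) h2
    simpa [mul_assoc] using this)
  rw [e1, e2]

theorem Transv.eq_of_mul_mem {N : Subgroup G} {D T : Set G} (h : Transv N D T) {t t' : G}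
    (ht : t ∈ T) (ht' : t' ∈ T) (h1 : t * t'⁻¹ ∈ N) : t = t' :=
  h.eq_of_mem (g := t) ht ht' (by simp [N.one_mem]) h1

theorem Transv.isComplement {N : Subgroup G} {T : Set G} (h : Transv N Set.univ T) :
    Subgroup.IsComplement (N : Set G) T := by
  rw [Subgroup.isComplement_iff_existsUnique_mul_inv_mem]
  intro g
  obtain ⟨t, ht, h1, h2⟩ := h.2 g trivial
  exact ⟨⟨t, ht⟩, h1, fun t' ht' => Subtype.ext (h2 t'.1 t'.2 ht')⟩

/-- transitivity: `N ≤ C`, `R` represents `N\C`, `T` represents `C\G`. -/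
theorem Transv.mul {N C : Subgroup G} {R T : Set G} (hNC : N ≤ C) (hR : Transv N (C : Set G) R)
    (hT : Transv C Set.univ T) :
    Transv N Set.univ ((fun p : G × G => p.1 * p.2) '' (R ×ˢ T)) ∧
      Set.InjOn (fun p : G × G => p.1 * p.2) (R ×ˢ T) := by
  have key : ∀ r ∈ R, ∀ t ∈ T, ∀ r' ∈ R, ∀ t' ∈ T, (r * t) * (r' * t')⁻¹ ∈ N → r = r' ∧ t = t' := by
    intro r hr t ht r' hr' t' ht' h
    have hrC : r ∈ C := hR.1 hr
    have hrC' : r' ∈ C := hR.1 hr'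
    have h1 : t * t'⁻¹ ∈ C := by
      have h2 : (r * t) * (r' * t')⁻¹ ∈ C := hNC h
      have h3 := C.mul_mem (C.mul_mem (C.inv_mem hrC) h2) hrC'
      simpa [mul_assoc] using h3
    have h4 : t = t' := hT.eq_of_mul_mem ht ht' h1
    subst h4
    refine ⟨hR.eq_of_mul_mem hr hr' ?_, rfl⟩
    simpa [mul_assoc] using h
  refine ⟨⟨fun _ _ => trivial, ?_⟩, ?_⟩
  · intro g _
    obtain ⟨t, ht, h1, -⟩ := hT.2 g trivial
    obtain ⟨r, hr, h2, -⟩ := hR.2 _ h1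
    have h3 : g * (r * t)⁻¹ ∈ N := by simpa [mul_assoc] using h2
    refine ⟨r * t, ⟨(r, t), ⟨hr, ht⟩, rfl⟩, h3, ?_⟩
    rintro _ ⟨⟨r', t'⟩, ⟨hr', ht'⟩, rfl⟩ h'
    have h4 : (r' * t') * (r * t)⁻¹ ∈ N := by
      have := N.mul_mem (N.inv_mem h') h3
      simpa [mul_assoc] using this
    obtain ⟨rfl, rfl⟩ := key r' hr' t' ht' r hr t ht h4
    rfl
  · rintro ⟨r, t⟩ ⟨hr, ht⟩ ⟨r', t'⟩ ⟨hr', ht'⟩ h
    have h' : r * t = r' * t' := h
    obtain ⟨h1, h2⟩ := key r hr t ht r' hr' t' ht' (by rw [h']; simp [N.one_mem])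
    rw [h1, h2]

/-- Transport along an injective... isomorphism. -/
theorem Transv.map_equiv {H : Type*} [Group H] (e : G ≃* H) {N : Subgroup G} {T : Set G}
    (h : Transv N Set.univ T) : Transv (N.map e.toMonoidHom) Set.univ (e '' T) := by
  refine ⟨fun _ _ => trivial, ?_⟩
  intro g _
  obtain ⟨t, ht, h1, h2⟩ := h.2 (e.symm g) trivial
  refine ⟨e t, ⟨t, ht, rfl⟩, ⟨_, h1, ?_⟩, ?_⟩
  · simp
  · rintro _ ⟨t', ht', rfl⟩ ⟨n, hn, hn'⟩
    rw [h2 t' ht']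
    have : e.symm g * t'⁻¹ = n := by
      apply e.injective
      have hn'' : e n = g * (e t')⁻¹ := hn'
      rw [hn'']
      simp
    rw [this]
    exact hn

theorem RT.map_equiv {H : Type*} [Group H] (e : G ≃* H) {N : Subgroup G} (h : RT N) :
    RT (N.map e.toMonoidHom) := by
  obtain ⟨T, h1, h2, h3⟩ := h
  exact ⟨e '' T, h1.map e.toMonoidHom e.injective.injOn, ⟨1, h2, by simp⟩, h3.map_equiv e⟩

theorem RT.trans {N C : Subgroup G} (hNC : N ≤ C) {R : Set G} (hR : RatSet R) (hR1 : 1 ∈ R)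
    (hRt : Transv N (C : Set G) R) (hC : RT C) : RT N := by
  obtain ⟨T, h1, h2, h3⟩ := hC
  obtain ⟨h4, h5⟩ := Transv.mul hNC hRt h3
  exact ⟨_, hR.mul h1 h5, ⟨(1, 1), ⟨hR1, h2⟩, by simp⟩, h4⟩

/-- The transversal of the cosets of `N` which do not meet `B`, where `N, B ≤ C`. -/
theorem exists_transv_compl {N B C : Subgroup G} (hNC : N ≤ C) (hBC : B ≤ C) {R : Set G}
    (hR : RatSet R) (hR1 : 1 ∈ R) (hRt : Transv N (C : Set G) R) (hRB : RatSet (R \ (B : Set G)))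
    (hmeet : ∀ r ∈ R, ∀ n ∈ N, ∀ b ∈ B, r = n * b → r ∈ B) (hC : RT C) :
    ∃ T : Set G, RatSet T ∧ Transv N {h | ¬ ∃ n ∈ N, ∃ b ∈ B, h = n * b} T := by
  obtain ⟨T, h1, h2, h3⟩ := hC
  obtain ⟨h4, h5⟩ := Transv.mul hNC hRt h3
  have h1' : RatSet (T \ {1}) := h1.diff_singleton 1
  have hsub : R ×ˢ (T \ {1}) ⊆ R ×ˢ T := Set.prod_mono_right Set.diff_subset
  have hinj' : Set.InjOn (fun p : G × G => p.1 * p.2) (R ×ˢ (T \ {1})) := h5.mono hsub
  have hrat := hR.mul h1' hinj'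
  have hT1 : ∀ t ∈ T, t ∈ C → t = 1 := fun t ht htC =>
    h3.eq_of_mul_mem ht h2 (by simpa using htC)
  have hdisj : Disjoint ((fun p : G × G => p.1 * p.2) '' (R ×ˢ (T \ {1}))) (R \ (B : Set G)) := by
    rw [Set.disjoint_left]
    rintro _ ⟨⟨r, t⟩, ⟨hr, ht, ht1⟩, rfl⟩ ⟨h6, -⟩
    apply ht1
    apply hT1 t ht
    have h7 : r * t ∈ C := hRt.1 h6
    have h8 := C.mul_mem (C.inv_mem (hRt.1 hr)) h7
    simpa using h8
  refine ⟨_, hrat.union hRB hdisj, ?_, ?_⟩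
  · rintro x (⟨⟨r, t⟩, ⟨hr, ht, ht1⟩, rfl⟩ | ⟨hr, hrB⟩)
    · rintro ⟨n, hn, b, hb, h6⟩
      apply ht1
      apply hT1 t ht
      have h7 : r * t ∈ C := by
        have h6' : r * t = n * b := h6
        rw [h6']; exact C.mul_mem (hNC hn) (hBC hb)
      have h8 := C.mul_mem (C.inv_mem (hRt.1 hr)) h7
      simpa using h8
    · rintro ⟨n, hn, b, hb, h6⟩
      exact hrB (hmeet x hr n hn b hb h6)
  · intro g hg
    obtain ⟨_, ⟨⟨r, t⟩, ⟨hr, ht⟩, rfl⟩, h6, h7⟩ := h4.2 g trivial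
    have hmem : ∀ x, x ∈ (fun p : G × G => p.1 * p.2) '' (R ×ˢ (T \ {1})) ∪ R \ (B : Set G) →
        x ∈ (fun p : G × G => p.1 * p.2) '' (R ×ˢ T) := by
      rintro x (hx | ⟨hx, -⟩)
      · exact Set.image_mono hsub hx
      · exact ⟨(x, 1), ⟨hx, h2⟩, by simp⟩
    refine ⟨r * t, ?_, h6, fun t' ht' h' => h7 t' (hmem t' ht') h'⟩
    by_cases h1t : t = 1
    · right
      subst h1t
      refine ⟨by simpa using hr, fun hB => hg ?_⟩
      refine ⟨g * (r * 1)⁻¹, h6, r, by simpa using hB, by simp⟩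
    · left
      exact ⟨(r, t), ⟨hr, ht, h1t⟩, rfl⟩

end Pool.Agent.OneRelCS
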